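import Pool.Agent.Helper22.PG.Defs
import Pool.Agent.Helper30.Perc.Unimod

/-! Basic facts on balls, distances, geodesics and the growth function. -/

namespace Pool.Agent.Helper22.PG

open Finset Pool.Agent.Helper30.Perc

variable {V : Type} {G : SimpleGraph V}

lemma dist_iso (hconn : G.Connected) (φ : G ≃g G) (x y : V) :
    G.dist (φ x) (φ y) = G.dist x y := by
  refine le_antisymm (iso_dist φ hconn x y) ?_
  have := iso_dist φ⁻¹ hconn (φ x) (φ y)
  rwa [iso_inv_apply_self, iso_inv_apply_self] at this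

/-! ### walks and geodesics -/

lemma dist_getVert_le (hconn : G.Connected) {y z : V} (w : G.Walk y z) (i j : ℕ) (hij : i ≤ j) :
    G.dist (w.getVert i) (w.getVert j) ≤ j - i := by
  induction j, hij using Nat.le_induction with
  | base => simp
  | succ j hij ih =>
    have h1 := hconn.dist_triangle (u := w.getVert i) (v := w.getVert j) (w := w.getVert (j + 1))
    have h2 : G.dist (w.getVert j) (w.getVert (j + 1)) ≤ 1 := by
      by_cases hj : j < w.length
      · exact (SimpleGraph.dist_eq_one_iff_adj.2 (w.adj_getVert_succ hj)).le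
      · rw [w.getVert_of_length_le (by omega), w.getVert_of_length_le (by omega)]
        simp
    omega

lemma dist_getVert (hconn : G.Connected) {y z : V} (w : G.Walk y z)
    (hw : w.length = G.dist y z) (i j : ℕ) (hij : i ≤ j) (hj : j ≤ w.length) :
    G.dist (w.getVert i) (w.getVert j) = j - i := by
  refine le_antisymm (dist_getVert_le hconn w i j hij) ?_
  have h1 := dist_getVert_le hconn w 0 i (Nat.zero_le _)
  have h2 := dist_getVert_le hconn w j w.length hj
  rw [w.getVert_zero] at h1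
  rw [w.getVert_length] at h2
  have h3 := hconn.dist_triangle (u := y) (v := w.getVert i) (w := z)
  have h4 := hconn.dist_triangle (u := w.getVert i) (v := w.getVert j) (w := z)
  omega

/-- a geodesic spends at most `2 r + 1` of its vertices in a ball of radius `r` -/
lemma card_geod_ball (hconn : G.Connected) {y z : V} (w : G.Walk y z)
    (hw : w.length = G.dist y z) (x : V) (r : ℕ) :
    ((range (w.length + 1)).filter fun k => G.dist (w.getVert k) x ≤ r).card ≤ 2 * r + 1 := by
  set S := (range (w.length + 1)).filter fun k => G.dist (w.getVert k) x ≤ r with hS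
  rcases S.eq_empty_or_nonempty with h | h
  · rw [h]; simp
  · obtain ⟨k0, hk0, hmin⟩ := exists_min_image S id h
    have hsub : S ⊆ Icc k0 (k0 + 2 * r) := by
      intro k hk
      have h1 := hmin k hk
      rw [hS, mem_filter, mem_range] at hk hk0
      have h2 := dist_getVert hconn w hw k0 k h1 (by omega)
      have h3 := hconn.dist_triangle (u := w.getVert k0) (v := x) (w := w.getVert k)
      rw [SimpleGraph.dist_comm (u := x)] at h3
      rw [mem_Icc]
      simp only [id] at h1
      omega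
    refine (card_le_card hsub).trans ?_
    rw [Nat.card_Icc]; omega

lemma exists_dist_eq_of_le (hconn : G.Connected) (x y : V) (r : ℕ)
    (h : r ≤ G.dist x y) : ∃ z, G.dist x z = r := by
  obtain ⟨w, hw⟩ := hconn.exists_walk_length_eq_dist x y
  refine ⟨w.getVert r, ?_⟩
  have := dist_getVert hconn w hw 0 r (Nat.zero_le _) (by omega)
  rwa [w.getVert_zero] at this

variable [DecidableEq V] [G.LocallyFinite] {d K C : ℕ} {v : ℕ → ℕ}

/-! ### balls -/

lemma self_mem_bl (x : V) (r : ℕ) : x ∈ bl G x r := by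
  induction r with
  | zero => simp [bl]
  | succ r ih => simp only [bl, mem_union]; exact Or.inl ih

lemma bl_subset (hconn : G.Connected) {x y : V} {r s : ℕ} (h : G.dist x y + r ≤ s) :
    bl G y r ⊆ bl G x s := by
  intro z hz
  rw [mem_bl hconn] at hz ⊢
  have := hconn.dist_triangle (u := x) (v := y) (w := z)
  omega

lemma bl_mono (hconn : G.Connected) (x : V) {r s : ℕ} (h : r ≤ s) : bl G x r ⊆ bl G x s :=
  bl_subset hconn (by simpa using h)

lemma mem_bl_comm (hconn : G.Connected) {x y : V} {r : ℕ} : y ∈ bl G x r ↔ x ∈ bl G y r := by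
  rw [mem_bl hconn, mem_bl hconn, SimpleGraph.dist_comm]

lemma map_mem_bl (hconn : G.Connected) (φ : G ≃g G) {x y : V} {r : ℕ} :
    φ y ∈ bl G (φ x) r ↔ y ∈ bl G x r := by
  rw [mem_bl hconn, mem_bl hconn, dist_iso hconn]

/-! ### the growth function -/

namespace PolyG

variable (hP : PolyG G d K C v)

include hP

lemma v_pos (r : ℕ) : 0 < v r := by
  obtain ⟨x⟩ : Nonempty V := hP.conn.nonempty
  rw [← hP.vol x r, card_pos]
  exact ⟨x, self_mem_bl x r⟩

lemma v_mono {r s : ℕ} (h : r ≤ s) : v r ≤ v s := by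
  obtain ⟨x⟩ : Nonempty V := hP.conn.nonempty
  rw [← hP.vol x r, ← hP.vol x s]
  exact card_le_card (bl_mono hP.conn x h)

lemma v_dbl (k r : ℕ) (hr : 1 ≤ r) : v (2 ^ k * r) ≤ K ^ k * v r := by
  induction k with
  | zero => simp
  | succ k ih =>
    have h1 := hP.dbl (2 ^ k * r) (Nat.mul_pos (by positivity) hr)
    have e : 2 ^ (k + 1) * r = 2 * (2 ^ k * r) := by ring
    rw [e]
    calc _ ≤ K * v (2 ^ k * r) := h1
      _ ≤ K * (K ^ k * v r) := Nat.mul_le_mul_left _ ih
      _ = _ := by ring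

lemma K_pos : 0 < K := by
  rcases Nat.eq_zero_or_pos K with h | h
  · have h1 := hP.dbl 1 le_rfl
    have h2 := hP.v_pos (2 * 1)
    rw [h] at h1
    omega
  · exact h

lemma v_mul {a k : ℕ} (r : ℕ) (hr : 1 ≤ r) (h : a ≤ 2 ^ k) : v (a * r) ≤ K ^ k * v r :=
  (hP.v_mono (Nat.mul_le_mul_right _ h)).trans (hP.v_dbl k r hr)

lemma C_pos : 0 < C := by
  rcases Nat.eq_zero_or_pos C with h | h
  · have h1 := hP.gr 0 1 le_rfl
    have h2 := hP.v_pos 1
    rw [h] at h1
    omega
  · exact h

/-- at least cubic growth -/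
lemma v_cube (r : ℕ) : r ^ 3 ≤ 8 * C * v r := by
  rcases Nat.eq_zero_or_pos r with rfl | hr
  · simp
  · have h1 : 2 ^ Nat.log 2 r ≤ r := Nat.pow_log_le_self 2 (by omega)
    have h2 : r < 2 ^ (Nat.log 2 r + 1) := Nat.lt_pow_succ_log_self (by norm_num) r
    have h3 := hP.gr (Nat.log 2 r) 1 le_rfl
    have h4 : v (2 ^ Nat.log 2 r * 1) ≤ v r := hP.v_mono (by simpa using h1)
    have h5 : r ^ 3 ≤ (2 ^ (Nat.log 2 r + 1)) ^ 3 := Nat.pow_le_pow_left h2.le 3
    have h6 : (2 ^ (Nat.log 2 r + 1)) ^ 3 = 8 * 8 ^ Nat.log 2 r := by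
      rw [← pow_mul, mul_comm, pow_mul]
      norm_num [pow_succ, mul_comm]
    have h7 := hP.v_pos 1
    calc r ^ 3 ≤ 8 * 8 ^ Nat.log 2 r := h5.trans_eq h6
      _ ≤ 8 * (8 ^ Nat.log 2 r * v 1) := by
          refine Nat.mul_le_mul_left _ ?_
          exact Nat.le_mul_of_pos_right _ h7
      _ ≤ 8 * (C * v (2 ^ Nat.log 2 r * 1)) := Nat.mul_le_mul_left _ h3
      _ ≤ 8 * (C * v r) := Nat.mul_le_mul_left _ (Nat.mul_le_mul_left _ h4)
      _ = _ := by ring

lemma exists_dist_eq (x : V) (r : ℕ) : ∃ z, G.dist x z = r := by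
  by_contra hcon
  push Not at hcon
  have h1 : ∀ y, y ∈ bl G x r := by
    intro y
    rw [mem_bl hP.conn]
    by_contra h
    obtain ⟨z, hz⟩ := exists_dist_eq_of_le hP.conn x y r (by omega)
    exact hcon z hz
  have := hP.inf
  refine Set.infinite_univ (α := V) ((bl G x r).finite_toSet.subset ?_)
  intro y _
  exact h1 y

lemma edge_infinite : G.edgeSet.Infinite := by
  intro hfin
  obtain ⟨x⟩ : Nonempty V := hP.conn.nonempty
  have h1 : (⋃ e ∈ G.edgeSet, {u : V | u ∈ e}).Finite := by
    refine hfin.biUnion fun e _ => ?_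
    refine (Sym2.toFinset e).finite_toSet.subset ?_
    intro u hu
    simpa using hu
  have := hP.inf
  have h2 : (Set.univ : Set V).Infinite := Set.infinite_univ
  refine h2 (h1.subset ?_)
  intro u _
  obtain ⟨z, hz⟩ := hP.exists_dist_eq u 1
  rw [SimpleGraph.dist_eq_one_iff_adj] at hz
  simp only [Set.mem_iUnion]
  exact ⟨s(u, z), hz, by simp⟩

end PolyG

end Pool.Agent.Helper22.PG
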