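import Pool.Agent.Helper22.PG.Blocks

/-! The cut bound for blocks hung along a geodesic. -/

namespace Pool.Agent.Helper22.PG

open Finset Pool.Agent.Helper30.Perc

variable {V : Type} {G : SimpleGraph V} [DecidableEq V] [G.LocallyFinite] {d K C : ℕ} {v : ℕ → ℕ}

lemma card_support_ball (hconn : G.Connected) {y z : V} (w : G.Walk y z)
    (hw : w.length = G.dist y z) (x : V) (r : ℕ) :
    (w.support.toFinset ∩ bl G x r).card ≤ 2 * r + 1 := by
  refine le_trans ?_ (card_geod_ball hconn w hw x r)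
  refine le_trans (card_le_card (t := ((range (w.length + 1)).filter fun k =>
    G.dist (w.getVert k) x ≤ r).image w.getVert) ?_) card_image_le
  intro u hu
  rw [mem_inter, List.mem_toFinset, mem_bl hconn] at hu
  obtain ⟨k, hk, hk'⟩ := SimpleGraph.Walk.mem_support_iff_exists_getVert.1 hu.1
  rw [mem_image]
  refine ⟨k, ?_, hk⟩
  rw [mem_filter, mem_range, hk, SimpleGraph.dist_comm]
  exact ⟨by omega, hu.2⟩

omit [G.LocallyFinite] in
lemma card_support_le {y z : V} (w : G.Walk y z) : w.support.toFinset.card ≤ w.length + 1 := by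
  rw [← w.length_support]
  exact List.toFinset_card_le _

/-- the data of the blocks hung along a geodesic -/
structure Hung (G : SimpleGraph V) [G.LocallyFinite] (v : ℕ → ℕ) (d : ℕ) (θ θ' : ℝ) (o : V)
    (M1 : Finset (Sym2 V)) (C0 D ℓ ρ2 Rθ S nb : ℕ) (A : Finset (V × ℕ)) {y z : V}
    (γ : G.Walk y z) (m : ℕ) (φ : ℕ → (G ≃g G))
    (π : ∀ j, G.Walk (γ.getVert (j * ℓ)) (φ j o)) : Prop where
  hγ : γ.length = G.dist y z
  hℓ : 0 < ℓ
  hm : m * ℓ ≤ γ.length
  hM1 : (M1 : Set (Sym2 V)) ⊆ G.edgeSet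
  hC0 : ∀ W : Finset V, Adm o M1 W → C0 ≤ cut G W
  hV0 : ∀ u ∈ insert o (vert M1), G.dist o u ≤ D
  hself : θ' * v 1 ≤ 1
  hA : ∀ x r, Dense G v θ' (insert o (vert M1)) x r → ∃ p ∈ A, r ≤ p.2 ∧ G.dist x p.1 ≤ 2 * p.2
  hD : ∀ p ∈ A, G.dist o p.1 + 2 * p.2 ≤ D
  hπ : ∀ j, (π j).length = G.dist (γ.getVert (j * ℓ)) (φ j o)
  hφ1 : ∀ j < m, G.dist (γ.getVert (j * ℓ)) (φ j o) ≤ ρ2
  hφ2 : ∀ j < m, ∀ p ∈ A, ∀ k ≤ γ.length, 2 * p.2 + Rθ + 1 < G.dist (φ j p.1) (γ.getVert k)
  hφ3 : ∀ j < m, ∀ i < j, ∀ p ∈ A, ∀ p' ∈ A,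
    2 * p.2 + 2 * p'.2 + 1 < G.dist (φ j p.1) (φ i p'.1)
  hnb : 2 * (S + 2 * ρ2 + 2 * D + Rθ + 1) / ℓ + 1 ≤ nb
  hθ : 0 < θ
  hθ' : 0 < θ'
  hθθ : (2 * nb + 1) * θ' ≤ θ
  hS : ∀ r, S ≤ r → ((2 * r + 1 + (2 * (r + ρ2 + D) / ℓ + 1) *
    (ρ2 + 1 + (insert o (vert M1)).card) : ℕ) : ℝ) * r < θ * v r
  hR : ∀ r, 1 ≤ r → θ' * v r ≤ ((2 * r + 1 : ℕ) : ℝ) * r → r ≤ Rθ

/-- the edges of block number `j` -/
def blockE (o : V) (M1 : Finset (Sym2 V)) {y z : V} {γ : G.Walk y z} {ℓ : ℕ}
    (φ : ℕ → (G ≃g G)) (π : ∀ j, G.Walk (γ.getVert (j * ℓ)) (φ j o)) (j : ℕ) :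
    Finset (Sym2 V) :=
  M1.image (Sym2.map (φ j)) ∪ (π j).edges.toFinset

/-- Maker's edges: the geodesic between `i ℓ` and `m ℓ` and the blocks `i, …, m - 1` -/
def hungE (o : V) (M1 : Finset (Sym2 V)) {y z : V} {γ : G.Walk y z} {ℓ : ℕ}
    (φ : ℕ → (G ≃g G)) (π : ∀ j, G.Walk (γ.getVert (j * ℓ)) (φ j o)) (i m : ℕ) :
    Finset (Sym2 V) :=
  ((Ico (i * ℓ) (m * ℓ)).image fun k => s(γ.getVert k, γ.getVert (k + 1))) ∪
    (Ico i m).biUnion (blockE o M1 φ π)

variable {θ θ' : ℝ} {o : V} {M1 : Finset (Sym2 V)} {C0 D ℓ ρ2 Rθ S nb : ℕ}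
  {A : Finset (V × ℕ)} {y z : V} {γ : G.Walk y z} {m : ℕ} {φ : ℕ → (G ≃g G)}
  {π : ∀ j, G.Walk (γ.getVert (j * ℓ)) (φ j o)}

omit [G.LocallyFinite] in
lemma mem_vert_blockE (j : ℕ) (u : V) (hu : u ∈ vert (blockE o M1 φ π j)) :
    u ∈ (π j).support ∨ ∃ u0 ∈ insert o (vert M1), φ j u0 = u := by
  rw [mem_vert] at hu
  obtain ⟨e, he, hue⟩ := hu
  rw [blockE, mem_union] at he
  rcases he with he | he
  · right
    rw [mem_image] at he
    obtain ⟨e', he', rfl⟩ := he
    rw [Sym2.mem_map] at hue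
    obtain ⟨u0, h1, h2⟩ := hue
    exact ⟨u0, mem_insert_of_mem ((mem_vert _ _).2 ⟨e', he', h1⟩), h2⟩
  · left
    rw [List.mem_toFinset] at he
    exact (π j).mem_support_of_mem_edges he hue

omit [G.LocallyFinite] in
lemma mem_vert_hungE (i m : ℕ) (u : V) (hu : u ∈ vert (hungE o M1 φ π i m)) :
    (∃ k, i * ℓ ≤ k ∧ k ≤ m * ℓ ∧ γ.getVert k = u) ∨ ∃ j ∈ Ico i m, u ∈ (π j).support ∨
      ∃ u0 ∈ insert o (vert M1), φ j u0 = u := by
  rw [mem_vert] at hu
  obtain ⟨e, he, hue⟩ := hu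
  rw [hungE, mem_union] at he
  rcases he with he | he
  · left
    rw [mem_image] at he
    obtain ⟨k, hk, rfl⟩ := he
    rw [mem_Ico] at hk
    rw [Sym2.mem_iff] at hue
    rcases hue with rfl | rfl
    · exact ⟨k, hk.1, hk.2.le, rfl⟩
    · exact ⟨k + 1, by omega, hk.2, rfl⟩
  · right
    rw [mem_biUnion] at he
    obtain ⟨j, hj, he⟩ := he
    exact ⟨j, hj, mem_vert_blockE j u ((mem_vert _ _).2 ⟨e, he, hue⟩)⟩

omit [G.LocallyFinite] in
lemma hungE_subset (hM1 : (M1 : Set (Sym2 V)) ⊆ G.edgeSet) (hm : m * ℓ ≤ γ.length) (i : ℕ) :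
    (hungE o M1 φ π i m : Set (Sym2 V)) ⊆ G.edgeSet := by
  intro e he
  rw [mem_coe, hungE, mem_union] at he
  rcases he with he | he
  · rw [mem_image] at he
    obtain ⟨k, hk, rfl⟩ := he
    rw [mem_Ico] at hk
    exact γ.adj_getVert_succ (by omega)
  · rw [mem_biUnion] at he
    obtain ⟨j, hj, he⟩ := he
    rw [blockE, mem_union] at he
    rcases he with he | he
    · rw [mem_image] at he
      obtain ⟨e', he', rfl⟩ := he
      induction e' with
      | _ a b =>
        have : G.Adj a b := by simpa using hM1 (mem_coe.2 he')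
        simpa using (φ j).map_adj_iff.2 this
    · rw [List.mem_toFinset] at he
      exact (π j).edges_subset_edgeSet he

/-- where the vertices of a minimal admissible set are -/
lemma Hung.loc_pieces (hP : PolyG G d K C v)
    (hloc : ∀ (o : V) (M : Finset (Sym2 V)) (W : Finset V), (M : Set (Sym2 V)) ⊆ G.edgeSet →
      Adm o M W → (∀ W', Adm o M W' → cut G W ≤ cut G W') →
      ∀ x ∈ W, ∃ r : ℕ, 1 ≤ r ∧ θ * v r ≤ ((insert o (vert M) ∩ bl G x r).card : ℝ) * r)
    (H : Hung G v d θ θ' o M1 C0 D ℓ ρ2 Rθ S nb A γ m φ π) (i : ℕ) (W : Finset V)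
    (hW : Adm (γ.getVert (m * ℓ)) (hungE o M1 φ π i m) W)
    (hmin : ∀ W', Adm (γ.getVert (m * ℓ)) (hungE o M1 φ π i m) W' → cut G W ≤ cut G W')
    (x : V) (hx : x ∈ W) :
    (∃ k ≤ γ.length, G.dist x (γ.getVert k) ≤ Rθ) ∨
      ∃ j ∈ Ico i m, (∃ u ∈ (π j).support, G.dist x u ≤ Rθ) ∨
        ∃ p ∈ A, G.dist x (φ j p.1) ≤ 2 * p.2 := by
  obtain ⟨r, hr1, hr⟩ := hloc _ _ W (hungE_subset H.hM1 H.hm i) hW hmin x hx
  set V0 := insert o (vert M1) with hV0
  set J := (Ico i m).filter fun j => G.dist (γ.getVert (j * ℓ)) x ≤ r + ρ2 + D with hJ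
  have hJsub : J ⊆ (range m).filter fun j => G.dist (γ.getVert (j * ℓ)) x ≤ r + ρ2 + D := by
    intro j hj
    rw [hJ, mem_filter, mem_Ico] at hj
    rw [mem_filter, mem_range]
    exact ⟨hj.1.2, hj.2⟩
  have hJc : J.card ≤ 2 * (r + ρ2 + D) / ℓ + 1 :=
    (card_le_card hJsub).trans (window_count hP.conn γ H.hγ ℓ m H.hℓ H.hm x _)
  -- covering of the vertices in the ball
  have hcov : insert (γ.getVert (m * ℓ)) (vert (hungE o M1 φ π i m)) ∩ bl G x r ⊆
      (γ.support.toFinset ∩ bl G x r) ∪ J.biUnion fun j =>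
        ((π j).support.toFinset ∩ bl G x r) ∪ (V0.image (φ j) ∩ bl G x r) := by
    intro u hu
    rw [mem_inter, mem_insert] at hu
    obtain ⟨hu, hur⟩ := hu
    have hγmem : ∀ k, γ.getVert k ∈ γ.support := fun k => γ.getVert_mem_support k
    have hur' := (mem_bl hP.conn _ _ _).1 hur
    rw [mem_union, mem_inter, List.mem_toFinset, mem_biUnion]
    rcases hu with rfl | hu
    · exact Or.inl ⟨hγmem _, hur⟩
    · rcases mem_vert_hungE i m u hu with ⟨k, -, -, rfl⟩ | ⟨j, hj, hju⟩
      · exact Or.inl ⟨hγmem _, hur⟩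
      · right
        have hjm : j < m := (mem_Ico.1 hj).2
        have hφ1 := H.hφ1 j hjm
        refine ⟨j, ?_, ?_⟩
        · rw [hJ, mem_filter]
          refine ⟨hj, ?_⟩
          have h1 := hP.conn.dist_triangle (u := γ.getVert (j * ℓ)) (v := u) (w := x)
          rw [SimpleGraph.dist_comm (u := u) (v := x)] at h1
          rcases hju with hju | ⟨u0, hu0, rfl⟩
          · obtain ⟨k, hk, hkl⟩ := SimpleGraph.Walk.mem_support_iff_exists_getVert.1 hju
            have h2 := dist_getVert_le hP.conn (π j) 0 k (Nat.zero_le _)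
            rw [(π j).getVert_zero, hk] at h2
            have h3 := H.hπ j
            omega
          · have h2 := hP.conn.dist_triangle (u := γ.getVert (j * ℓ)) (v := φ j o) (w := φ j u0)
            rw [dist_iso hP.conn] at h2
            have h3 := H.hV0 u0 hu0
            omega
        · rw [mem_union, mem_inter, mem_inter, List.mem_toFinset]
          rcases hju with hju | ⟨u0, hu0, rfl⟩
          · exact Or.inl ⟨hju, hur⟩
          · exact Or.inr ⟨mem_image_of_mem _ hu0, hur⟩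
  have hcard : (insert (γ.getVert (m * ℓ)) (vert (hungE o M1 φ π i m)) ∩ bl G x r).card ≤
      (γ.support.toFinset ∩ bl G x r).card + ∑ j ∈ J, (((π j).support.toFinset ∩ bl G x r).card +
        (V0.image (φ j) ∩ bl G x r).card) := by
    refine (card_le_card hcov).trans ((card_union_le _ _).trans ?_)
    refine Nat.add_le_add_left (card_biUnion_le.trans (sum_le_sum fun j _ => card_union_le _ _)) _
  have hγc := card_support_ball hP.conn γ H.hγ x r
  have hr0 : (0 : ℝ) < r := by exact_mod_cast hr1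
  have hrS : r < S := by
    by_contra hcon
    have h1 := H.hS r (by omega)
    have h2 : (insert (γ.getVert (m * ℓ)) (vert (hungE o M1 φ π i m)) ∩ bl G x r).card ≤
        2 * r + 1 + (2 * (r + ρ2 + D) / ℓ + 1) * (ρ2 + 1 + V0.card) := by
      refine hcard.trans (add_le_add hγc ?_)
      calc ∑ j ∈ J, (((π j).support.toFinset ∩ bl G x r).card +
            (V0.image (φ j) ∩ bl G x r).card) ≤ ∑ _j ∈ J, (ρ2 + 1 + V0.card) := by
            refine sum_le_sum fun j hj => ?_
            rw [hJ, mem_filter, mem_Ico] at hj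
            refine add_le_add ?_ ?_
            · refine (card_le_card inter_subset_left).trans ((card_support_le _).trans ?_)
              have h3 := H.hπ j
              have h4 := H.hφ1 j hj.1.2
              omega
            · exact (card_le_card inter_subset_left).trans card_image_le
        _ = J.card * (ρ2 + 1 + V0.card) := by rw [sum_const, smul_eq_mul]
        _ ≤ _ := Nat.mul_le_mul_right _ hJc
    have h3 : ((insert (γ.getVert (m * ℓ)) (vert (hungE o M1 φ π i m)) ∩ bl G x r).card : ℝ) ≤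
        ((2 * r + 1 + (2 * (r + ρ2 + D) / ℓ + 1) * (ρ2 + 1 + V0.card) : ℕ) : ℝ) := by
      exact_mod_cast h2
    have h4 := mul_le_mul_of_nonneg_right h3 hr0.le
    linarith
  have hJnb : J.card ≤ nb := by
    refine hJc.trans (le_trans ?_ H.hnb)
    refine Nat.add_le_add_right (Nat.div_le_div_right ?_) 1
    omega
  by_contra hcon
  push Not at hcon
  obtain ⟨hc1, hc2⟩ := hcon
  have hv : (0 : ℝ) < v r := by exact_mod_cast hP.v_pos r
  have hθv : 0 < θ' * v r := mul_pos H.hθ' hv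
  -- each piece is small
  have hp1 : ((γ.support.toFinset ∩ bl G x r).card : ℝ) * r < θ' * v r := by
    by_contra h
    push Not at h
    have h1 : r ≤ Rθ := H.hR r hr1 (h.trans (mul_le_mul_of_nonneg_right
      (by exact_mod_cast hγc) hr0.le))
    have h2 : (γ.support.toFinset ∩ bl G x r).Nonempty := by
      rw [← card_pos]
      by_contra h0
      have h0' : (γ.support.toFinset ∩ bl G x r).card = 0 := by omega
      rw [h0'] at h
      simp at h
      linarith
    obtain ⟨u, hu⟩ := h2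
    rw [mem_inter, List.mem_toFinset, mem_bl hP.conn] at hu
    obtain ⟨k, hk, hkl⟩ := SimpleGraph.Walk.mem_support_iff_exists_getVert.1 hu.1
    have := hc1 k hkl
    rw [hk] at this
    omega
  have hp2 : ∀ j ∈ J, (((π j).support.toFinset ∩ bl G x r).card : ℝ) * r < θ' * v r := by
    intro j hj
    have hj' := (mem_filter.1 hj).1
    by_contra h
    push Not at h
    have hπc := card_support_ball hP.conn (π j) (H.hπ j) x r
    have h1 : r ≤ Rθ := H.hR r hr1 (h.trans (mul_le_mul_of_nonneg_right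
      (by exact_mod_cast hπc) hr0.le))
    have h2 : ((π j).support.toFinset ∩ bl G x r).Nonempty := by
      rw [← card_pos]
      by_contra h0
      have h0' : ((π j).support.toFinset ∩ bl G x r).card = 0 := by omega
      rw [h0'] at h
      simp at h
      linarith
    obtain ⟨u, hu⟩ := h2
    rw [mem_inter, List.mem_toFinset, mem_bl hP.conn] at hu
    have := (hc2 j hj').1 u hu.1
    omega
  have hp3 : ∀ j ∈ J, ((V0.image (φ j) ∩ bl G x r).card : ℝ) * r < θ' * v r := by
    intro j hj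
    have hj' := (mem_filter.1 hj).1
    by_contra h
    push Not at h
    have h1 : (V0.image (φ j) ∩ bl G x r).card = (V0 ∩ bl G ((φ j)⁻¹ x) r).card := by
      have h2 : V0.image (φ j) ∩ bl G x r = (V0 ∩ bl G ((φ j)⁻¹ x) r).image (φ j) := by
        ext u
        rw [mem_inter, mem_image, mem_image]
        constructor
        · rintro ⟨⟨u0, hu0, rfl⟩, hu⟩
          refine ⟨u0, ?_, rfl⟩
          rw [mem_inter]
          refine ⟨hu0, ?_⟩
          rw [← map_mem_bl hP.conn (φ j), iso_apply_inv_self]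
          exact hu
        · rintro ⟨u0, hu0, rfl⟩
          rw [mem_inter] at hu0
          refine ⟨⟨u0, hu0.1, rfl⟩, ?_⟩
          have := (map_mem_bl hP.conn (φ j)).2 hu0.2
          rwa [iso_apply_inv_self] at this
      rw [h2, card_image_of_injective _ (φ j).injective]
    rw [h1] at h
    obtain ⟨p, hp, h2, h3⟩ := H.hA _ _ ⟨hr1, h⟩
    have h4 := (hc2 j hj').2 p hp
    have h5 : G.dist x (φ j p.1) = G.dist ((φ j)⁻¹ x) p.1 := by
      rw [← dist_iso hP.conn (φ j) ((φ j)⁻¹ x), iso_apply_inv_self]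
    omega
  have hfin : ((insert (γ.getVert (m * ℓ)) (vert (hungE o M1 φ π i m)) ∩ bl G x r).card : ℝ) * r <
      θ * v r := by
    have h1 : ((insert (γ.getVert (m * ℓ)) (vert (hungE o M1 φ π i m)) ∩ bl G x r).card : ℝ) ≤
        (γ.support.toFinset ∩ bl G x r).card + ∑ j ∈ J,
          ((((π j).support.toFinset ∩ bl G x r).card : ℝ) +
            (V0.image (φ j) ∩ bl G x r).card) := by exact_mod_cast hcard
    have h2 : (((γ.support.toFinset ∩ bl G x r).card : ℝ) + ∑ j ∈ J,
          ((((π j).support.toFinset ∩ bl G x r).card : ℝ) +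
            (V0.image (φ j) ∩ bl G x r).card)) * r < θ * v r := by
      rw [add_mul, sum_mul]
      have h3 : ∑ j ∈ J, ((((π j).support.toFinset ∩ bl G x r).card : ℝ) +
            (V0.image (φ j) ∩ bl G x r).card) * r ≤ ∑ _j ∈ J, (2 * (θ' * v r)) := by
        refine sum_le_sum fun j hj => ?_
        have := hp2 j hj
        have := hp3 j hj
        rw [add_mul]
        linarith
      rw [sum_const, nsmul_eq_mul] at h3
      have h4 : (J.card : ℝ) ≤ nb := by exact_mod_cast hJnb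
      have h5 : (J.card : ℝ) * (2 * (θ' * v r)) ≤ nb * (2 * (θ' * v r)) :=
        mul_le_mul_of_nonneg_right h4 (by positivity)
      have h6 : (2 * nb + 1) * θ' * v r ≤ θ * v r := mul_le_mul_of_nonneg_right H.hθθ hv.le
      nlinarith
    exact lt_of_le_of_lt (mul_le_mul_of_nonneg_right h1 hr0.le) h2
  linarith

omit [DecidableEq V] [G.LocallyFinite] in
lemma walk_closed (M : Finset (Sym2 V)) (W : Finset V)
    (hW : ∀ a b, s(a, b) ∈ M → a ∈ W → b ∈ W) {a b : V} (w : G.Walk a b)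
    (hw : ∀ e ∈ w.edges, e ∈ M) (ha : a ∈ W) : b ∈ W := by
  induction w with
  | nil => exact ha
  | cons hadj w' ih =>
    rw [SimpleGraph.Walk.edges_cons] at hw
    refine ih (fun e he => hw e (List.mem_cons_of_mem _ he)) ?_
    exact hW _ _ (hw _ List.mem_cons_self) ha

/-- the cut bound for a minimal admissible set -/
lemma Hung.cut_min (hP : PolyG G d K C v)
    (hloc : ∀ (o : V) (M : Finset (Sym2 V)) (W : Finset V), (M : Set (Sym2 V)) ⊆ G.edgeSet →
      Adm o M W → (∀ W', Adm o M W' → cut G W ≤ cut G W') →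
      ∀ x ∈ W, ∃ r : ℕ, 1 ≤ r ∧ θ * v r ≤ ((insert o (vert M) ∩ bl G x r).card : ℝ) * r)
    (H : Hung G v d θ θ' o M1 C0 D ℓ ρ2 Rθ S nb A γ m φ π) (i : ℕ) (W : Finset V)
    (hW : Adm (γ.getVert (m * ℓ)) (hungE o M1 φ π i m) W)
    (hmin : ∀ W', Adm (γ.getVert (m * ℓ)) (hungE o M1 φ π i m) W' → cut G W ≤ cut G W') :
    (m - i) * C0 ≤ cut G W + (m - i) * (d * (nb * ((ρ2 + 1) * v Rθ))) := by
  classical
  set U : ℕ → Finset V := fun j => A.biUnion fun p => bl G (φ j p.1) (2 * p.2) with hU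
  have hUmem : ∀ j x, x ∈ U j ↔ ∃ p ∈ A, G.dist (φ j p.1) x ≤ 2 * p.2 := by
    intro j x
    simp only [hU, mem_biUnion, mem_bl hP.conn]
  -- vertices of the blocks lie in `U j`
  have hV0U : ∀ j, ∀ u ∈ insert o (vert M1), φ j u ∈ U j := by
    intro j u hu
    have h1 : Dense G v θ' (insert o (vert M1)) u 1 := by
      refine ⟨le_rfl, H.hself.trans ?_⟩
      have h2 : 0 < (insert o (vert M1) ∩ bl G u 1).card :=
        card_pos.2 ⟨u, mem_inter.2 ⟨hu, self_mem_bl u 1⟩⟩
      have h3 : (1 : ℝ) ≤ (insert o (vert M1) ∩ bl G u 1).card := by exact_mod_cast h2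
      simpa using h3
    obtain ⟨p, hp, -, h2⟩ := H.hA _ _ h1
    rw [hUmem]
    refine ⟨p, hp, ?_⟩
    rw [dist_iso hP.conn, SimpleGraph.dist_comm]
    exact h2
  -- the geodesic
  have hγW : ∀ t, i * ℓ + t ≤ m * ℓ → γ.getVert (m * ℓ - t) ∈ W := by
    intro t
    induction t with
    | zero => intro _; exact hW.1
    | succ t ih =>
      intro ht
      have h1 := ih (by omega)
      refine hW.2 (γ.getVert (m * ℓ - t)) _ ?_ h1
      rw [hungE, mem_union, mem_image]
      refine Or.inl ⟨m * ℓ - (t + 1), ?_, ?_⟩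
      · rw [mem_Ico]; omega
      · have : m * ℓ - (t + 1) + 1 = m * ℓ - t := by omega
        rw [this, Sym2.eq_swap]
  have hblock : ∀ j ∈ Ico i m, ∀ e ∈ blockE o M1 φ π j, e ∈ hungE o M1 φ π i m := by
    intro j hj e he
    rw [hungE, mem_union, mem_biUnion]
    exact Or.inr ⟨j, hj, he⟩
  have hroot : ∀ j ∈ Ico i m, φ j o ∈ W := by
    intro j hj
    have hj' := mem_Ico.1 hj
    have h1 : γ.getVert (j * ℓ) ∈ W := by
      have h2 := Nat.mul_le_mul_right ℓ hj'.1
      have h3 := Nat.mul_le_mul_right ℓ hj'.2.le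
      have := hγW (m * ℓ - j * ℓ) (by omega)
      have e : m * ℓ - (m * ℓ - j * ℓ) = j * ℓ := by omega
      rwa [e] at this
    refine walk_closed (hungE o M1 φ π i m) W hW.2 (π j) ?_ h1
    intro e he
    refine hblock j hj e ?_
    rw [blockE, mem_union, List.mem_toFinset]
    exact Or.inr he
  -- each block
  have hcutj : ∀ j ∈ Ico i m, C0 ≤ cut G (W ∩ U j) := by
    intro j hj
    refine cap_translate G o M1 C0 H.hC0 (φ j) _ ?_ ?_
    · rw [mem_inter]
      exact ⟨hroot j hj, hV0U j o (mem_insert_self _ _)⟩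
    · intro a b hab ha
      rw [mem_inter] at ha ⊢
      refine ⟨hW.2 (φ j a) _ (hblock j hj _ ?_) ha.1, hV0U j b ?_⟩
      · rw [blockE, mem_union, mem_image]
        exact Or.inl ⟨s(a, b), hab, by simp⟩
      · rw [mem_insert, mem_vert]
        exact Or.inr ⟨_, hab, by simp⟩
  have hdisj : ∀ j ∈ Ico i m, ∀ j' ∈ Ico i m, j ≠ j' → ∀ x ∈ U j, ∀ b ∈ U j',
      1 < G.dist x b := by
    intro j hj j' hj' hne x hx b hb
    rw [hUmem] at hx hb
    obtain ⟨p, hp, h1⟩ := hx
    obtain ⟨p', hp', h2⟩ := hb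
    have hjm := (mem_Ico.1 hj).2
    have hjm' := (mem_Ico.1 hj').2
    have h3 : 2 * p.2 + 2 * p'.2 + 1 < G.dist (φ j p.1) (φ j' p'.1) := by
      rcases lt_or_gt_of_ne hne with h | h
      · have := H.hφ3 j' hjm' j h p' hp' p hp
        rw [SimpleGraph.dist_comm] at this
        omega
      · exact H.hφ3 j hjm j' h p hp p' hp'
    have h4 := hP.conn.dist_triangle (u := φ j p.1) (v := x) (w := φ j' p'.1)
    have h5 := hP.conn.dist_triangle (u := x) (v := b) (w := φ j' p'.1)
    rw [SimpleGraph.dist_comm (u := b)] at h5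
    omega
  set T : ℕ → Finset V := fun j => (W \ U j).filter fun b => ∃ a ∈ U j, G.Adj a b with hT
  have hTc : ∀ j ∈ Ico i m, (T j).card ≤ nb * ((ρ2 + 1) * v Rθ) := by
    intro j hj
    have hjm := (mem_Ico.1 hj).2
    set J' := (range m).filter fun j' => G.dist (γ.getVert (j' * ℓ)) (γ.getVert (j * ℓ)) ≤
      2 * ρ2 + Rθ + D + 1 with hJ'
    have hJ'c : J'.card ≤ nb := by
      refine (window_count hP.conn γ H.hγ ℓ m H.hℓ H.hm _ _).trans (le_trans ?_ H.hnb)
      refine Nat.add_le_add_right (Nat.div_le_div_right ?_) 1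
      omega
    have hsub : T j ⊆ J'.biUnion fun j' => (π j').support.toFinset.biUnion fun u => bl G u Rθ := by
      intro b hb
      rw [hT, mem_filter, mem_sdiff] at hb
      obtain ⟨⟨hbW, hbU⟩, a, haU, hab⟩ := hb
      have hab1 : G.dist a b = 1 := SimpleGraph.dist_eq_one_iff_adj.2 hab
      obtain ⟨p, hp, h1⟩ := (hUmem j a).1 haU
      have h2 := hP.conn.dist_triangle (u := φ j p.1) (v := a) (w := b)
      rcases H.loc_pieces hP hloc i W hW hmin b hbW with ⟨k, hk, hk'⟩ | ⟨j', hj', hcase⟩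
      · exfalso
        have h3 := H.hφ2 j hjm p hp k hk
        have h4 := hP.conn.dist_triangle (u := φ j p.1) (v := b) (w := γ.getVert k)
        omega
      · rcases hcase with ⟨u, hu, hbu⟩ | ⟨p', hp', hbp⟩
        · rw [mem_biUnion]
          refine ⟨j', ?_, ?_⟩
          · rw [hJ', mem_filter, mem_range]
            refine ⟨(mem_Ico.1 hj').2, ?_⟩
            obtain ⟨k, hk, hkl⟩ := SimpleGraph.Walk.mem_support_iff_exists_getVert.1 hu
            have h5 := dist_getVert_le hP.conn (π j') 0 k (Nat.zero_le _)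
            rw [(π j').getVert_zero, hk] at h5
            have h6 := H.hπ j'
            have h7 := H.hφ1 j' (mem_Ico.1 hj').2
            have h8 := hP.conn.dist_triangle (u := γ.getVert (j' * ℓ)) (v := u) (w := b)
            rw [SimpleGraph.dist_comm (u := u) (v := b)] at h8
            have h9 := hP.conn.dist_triangle (u := γ.getVert (j' * ℓ)) (v := b)
              (w := γ.getVert (j * ℓ))
            have h10 := hP.conn.dist_triangle (u := b) (v := φ j p.1) (w := γ.getVert (j * ℓ))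
            rw [SimpleGraph.dist_comm (u := b) (v := φ j p.1)] at h10
            have h11 := hP.conn.dist_triangle (u := φ j p.1) (v := φ j o) (w := γ.getVert (j * ℓ))
            rw [dist_iso hP.conn, SimpleGraph.dist_comm (u := p.1) (v := o),
              SimpleGraph.dist_comm (u := φ j o)] at h11
            have h12 := H.hφ1 j hjm
            have h13 := H.hD p hp
            omega
          · rw [mem_biUnion]
            refine ⟨u, List.mem_toFinset.2 hu, ?_⟩
            rw [mem_bl hP.conn, SimpleGraph.dist_comm]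
            exact hbu
        · exfalso
          have hbU' : b ∈ U j' := by
            rw [hUmem]
            exact ⟨p', hp', by rw [SimpleGraph.dist_comm]; exact hbp⟩
          have hne : j ≠ j' := by
            rintro rfl
            exact hbU hbU'
          have := hdisj j hj j' hj' hne a haU b hbU'
          omega
    refine (card_le_card hsub).trans (card_biUnion_le.trans ?_)
    calc ∑ j' ∈ J', ((π j').support.toFinset.biUnion fun u => bl G u Rθ).card
        ≤ ∑ _j' ∈ J', (ρ2 + 1) * v Rθ := by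
          refine sum_le_sum fun j' hj' => card_biUnion_le.trans ?_
          rw [hJ', mem_filter, mem_range] at hj'
          calc ∑ u ∈ (π j').support.toFinset, (bl G u Rθ).card
              = (π j').support.toFinset.card * v Rθ := by
                rw [sum_congr rfl fun u _ => hP.vol u Rθ, sum_const, smul_eq_mul]
            _ ≤ _ := by
                refine Nat.mul_le_mul_right _ ((card_support_le _).trans ?_)
                have h6 := H.hπ j'
                have h7 := H.hφ1 j' hj'.1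
                omega
      _ = J'.card * ((ρ2 + 1) * v Rθ) := by rw [sum_const, smul_eq_mul]
      _ ≤ _ := Nat.mul_le_mul_right _ hJ'c
  have hsplit : ∀ j ∈ Ico i m, cut G (W ∩ U j) ≤
      ∑ a ∈ W ∩ U j, (G.neighborFinset a \ W).card + d * (nb * ((ρ2 + 1) * v Rθ)) := by
    intro j hj
    have h1 : cut G (W ∩ U j) ≤ ∑ a ∈ W ∩ U j, (G.neighborFinset a \ W).card +
        ∑ a ∈ W ∩ U j, ((T j).filter fun b => G.Adj a b).card := by
      unfold cut
      rw [← sum_add_distrib]
      refine sum_le_sum fun a ha => ?_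
      refine le_trans (card_le_card ?_) (card_union_le _ _)
      intro b hb
      rw [mem_sdiff, SimpleGraph.mem_neighborFinset, mem_inter] at hb
      rw [mem_union, mem_sdiff, SimpleGraph.mem_neighborFinset, mem_filter, hT, mem_filter,
        mem_sdiff]
      by_cases hbW : b ∈ W
      · right
        exact ⟨⟨⟨hbW, fun h => hb.2 ⟨hbW, h⟩⟩, a, (mem_inter.1 ha).2, hb.1⟩, hb.1⟩
      · exact Or.inl ⟨hb.1, hbW⟩
    refine h1.trans (Nat.add_le_add_left ?_ _)
    calc ∑ a ∈ W ∩ U j, ((T j).filter fun b => G.Adj a b).card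
        = ∑ a ∈ W ∩ U j, ∑ b ∈ T j, if G.Adj a b then 1 else 0 := by
          refine sum_congr rfl fun a _ => ?_
          rw [card_filter]
      _ = ∑ b ∈ T j, ∑ a ∈ W ∩ U j, if G.Adj a b then 1 else 0 := sum_comm
      _ ≤ ∑ _b ∈ T j, d := by
          refine sum_le_sum fun b _ => ?_
          rw [← card_filter]
          refine le_trans (card_le_card ?_) (hP.deg b)
          intro a ha
          rw [mem_filter] at ha
          rw [SimpleGraph.mem_neighborFinset]
          exact ha.2.symm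
      _ = (T j).card * d := by rw [sum_const, smul_eq_mul]
      _ ≤ _ := by
          rw [mul_comm]
          exact Nat.mul_le_mul_left _ (hTc j hj)
  have htot : ∑ j ∈ Ico i m, ∑ a ∈ W ∩ U j, (G.neighborFinset a \ W).card ≤ cut G W := by
    rw [← sum_biUnion]
    · unfold cut
      refine sum_le_sum_of_subset ?_
      intro a ha
      rw [mem_biUnion] at ha
      obtain ⟨j, -, ha⟩ := ha
      exact (mem_inter.1 ha).1
    · intro j hj j' hj' hne
      rw [Function.onFun, disjoint_left]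
      intro x hx hx'
      have := hdisj j hj j' hj' hne x (mem_inter.1 hx).2 x (mem_inter.1 hx').2
      simp at this
  calc (m - i) * C0 = ∑ _j ∈ Ico i m, C0 := by rw [sum_const, Nat.card_Ico, smul_eq_mul]
    _ ≤ ∑ j ∈ Ico i m, (∑ a ∈ W ∩ U j, (G.neighborFinset a \ W).card +
        d * (nb * ((ρ2 + 1) * v Rθ))) := sum_le_sum fun j hj => (hcutj j hj).trans (hsplit j hj)
    _ = ∑ j ∈ Ico i m, ∑ a ∈ W ∩ U j, (G.neighborFinset a \ W).card +
        (m - i) * (d * (nb * ((ρ2 + 1) * v Rθ))) := by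
          rw [sum_add_distrib, sum_const, Nat.card_Ico, smul_eq_mul]
    _ ≤ _ := Nat.add_le_add_right htot _

/-- the cut bound for every finite set closed under the blocks -/
lemma Hung.cut_all (hP : PolyG G d K C v)
    (hloc : ∀ (o : V) (M : Finset (Sym2 V)) (W : Finset V), (M : Set (Sym2 V)) ⊆ G.edgeSet →
      Adm o M W → (∀ W', Adm o M W' → cut G W ≤ cut G W') →
      ∀ x ∈ W, ∃ r : ℕ, 1 ≤ r ∧ θ * v r ≤ ((insert o (vert M) ∩ bl G x r).card : ℝ) * r)
    (H : Hung G v d θ θ' o M1 C0 D ℓ ρ2 Rθ S nb A γ m φ π) (i : ℕ) (him : i ≤ m) (W : Finset V)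
    (hW1 : ∀ k, i * ℓ ≤ k → k ≤ m * ℓ → γ.getVert k ∈ W)
    (hW2 : ∀ j, i ≤ j → j < m → ∀ a b, s(a, b) ∈ blockE o M1 φ π j → a ∈ W → b ∈ W) :
    (m - i) * (C0 - d * (nb * ((ρ2 + 1) * v Rθ))) ≤ cut G W := by
  have hadm : Adm (γ.getVert (m * ℓ)) (hungE o M1 φ π i m) W := by
    refine ⟨hW1 _ (Nat.mul_le_mul_right _ him) le_rfl, ?_⟩
    intro a b hab ha
    rw [hungE, mem_union] at hab
    rcases hab with hab | hab
    · rw [mem_image] at hab
      obtain ⟨k, hk, he⟩ := hab
      rw [mem_Ico] at hk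
      rw [Sym2.eq_iff] at he
      rcases he with ⟨-, rfl⟩ | ⟨rfl, -⟩
      · exact hW1 _ (by omega) hk.2
      · exact hW1 _ hk.1 hk.2.le
    · rw [mem_biUnion] at hab
      obtain ⟨j, hj, hab⟩ := hab
      rw [mem_Ico] at hj
      exact hW2 j hj.1 hj.2 a b hab ha
  obtain ⟨n, ⟨W0, hW0, hn⟩, hmin⟩ : ∃ n, (∃ W0, Adm (γ.getVert (m * ℓ)) (hungE o M1 φ π i m) W0 ∧
      cut G W0 = n) ∧ ∀ n', (∃ W0, Adm (γ.getVert (m * ℓ)) (hungE o M1 φ π i m) W0 ∧
      cut G W0 = n') → n ≤ n' := by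
    classical
    have hex : ∃ n, ∃ W0, Adm (γ.getVert (m * ℓ)) (hungE o M1 φ π i m) W0 ∧ cut G W0 = n :=
      ⟨_, W, hadm, rfl⟩
    exact ⟨Nat.find hex, Nat.find_spec hex, fun n' h => Nat.find_min' hex h⟩
  have h1 := H.cut_min hP hloc i W0 hW0 (fun W' hW' => hn ▸ hmin _ ⟨W', hW', rfl⟩)
  have h2 : cut G W0 ≤ cut G W := hn ▸ hmin _ ⟨W, hadm, rfl⟩
  rw [Nat.mul_sub]
  omega

end Pool.Agent.Helper22.PG
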