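import Pool.Agent.Helper22.PG.Loc
import Pool.Agent.Helper22.PG.CutBound

/-! Near-optimal blocks of linear diameter. -/

namespace Pool.Agent.Helper22.PG

open Finset Filter Pool.Agent.Helper30.Perc

variable {V : Type} {G : SimpleGraph V} [DecidableEq V] [G.LocallyFinite] {d K C : ℕ} {v : ℕ → ℕ}

lemma block_exists (hP : PolyG G d K C v) (o : V) (κ ε : ℝ) (hε : 0 < ε)
    (hfreq : ∃ᶠ n in atTop, CapGE G o n ((κ - ε) * n)) :
    ∃ c1 : ℕ, ∀ s0 : ℕ, ∃ s1 ≥ s0, ∃ M1 : Finset (Sym2 V), (M1 : Set (Sym2 V)) ⊆ G.edgeSet ∧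
      M1.card ≤ s1 ∧ (∀ u ∈ insert o (vert M1), G.dist o u ≤ c1 * s1) ∧
      ∀ W, Adm o M1 W → (κ - ε) * s1 ≤ cut G W := by
  classical
  obtain ⟨c, hc, hdiam⟩ := diam hP
  refine ⟨⌈κ / c⌉₊ + 1, ?_⟩
  intro s0
  obtain ⟨s1, ⟨M0, h1, h2, h3⟩, hs1⟩ := (hfreq.and_eventually (eventually_ge_atTop (s0 + 1))).exists
  set c1 := ⌈κ / c⌉₊ + 1 with hc1
  refine ⟨s1, by omega, M0.filter fun e => ∀ u ∈ e, G.dist o u ≤ c1 * s1, ?_, ?_, ?_, ?_⟩
  · intro e he
    exact h1 (mem_coe.2 (mem_filter.1 (mem_coe.1 he)).1)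
  · exact (card_filter_le _ _).trans h2.le
  · intro u hu
    rw [mem_insert, mem_vert] at hu
    rcases hu with rfl | ⟨e, he, hue⟩
    · simp
    · exact (mem_filter.1 he).2 u hue
  · intro W hW
    set W' := W.filter fun x => ∃ w : G.Walk o x, ∀ a ∈ w.support, a ∈ W with hW'
    have hoW' : o ∈ W' := by
      rw [hW', mem_filter]
      refine ⟨hW.1, SimpleGraph.Walk.nil, ?_⟩
      intro a ha
      rw [SimpleGraph.Walk.support_nil, List.mem_singleton] at ha
      rw [ha]; exact hW.1
    have hext : ∀ a ∈ W', ∀ b, G.Adj a b → b ∈ W → b ∈ W' := by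
      intro a ha b hab hb
      rw [hW', mem_filter] at ha ⊢
      obtain ⟨ha, w, hw⟩ := ha
      refine ⟨hb, w.concat hab, ?_⟩
      intro c hc
      rw [SimpleGraph.Walk.support_concat, List.mem_append,
        List.mem_singleton] at hc
      rcases hc with hc | rfl
      · exact hw c hc
      · exact hb
    have hcut : cut G W' ≤ cut G W := by
      unfold cut
      calc ∑ a ∈ W', (G.neighborFinset a \ W').card ≤ ∑ a ∈ W', (G.neighborFinset a \ W).card := by
            refine sum_le_sum fun a ha => card_le_card ?_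
            intro b hb
            rw [Finset.mem_sdiff, SimpleGraph.mem_neighborFinset] at hb ⊢
            exact ⟨hb.1, fun h => hb.2 (hext a ha b hb.1 h)⟩
        _ ≤ _ := sum_le_sum_of_subset (filter_subset _ _)
    by_cases hfar : ∃ x ∈ W', c1 * s1 ≤ G.dist o x
    · obtain ⟨x, hx, hxd⟩ := hfar
      rw [hW', mem_filter] at hx
      obtain ⟨-, w, hw⟩ := hx
      have h4 := hdiam W o x w hw
      have h5 : ((c1 * s1 : ℕ) : ℝ) ≤ G.dist o x := by exact_mod_cast hxd
      have h6 : κ / c ≤ c1 := by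
        rw [hc1]
        push_cast
        linarith [Nat.le_ceil (κ / c)]
      rw [div_le_iff₀ hc] at h6
      push_cast at h5
      have h7 : (0 : ℝ) ≤ s1 := by positivity
      calc (κ - ε) * s1 ≤ κ * s1 := by nlinarith
        _ ≤ (c1 * c) * s1 := mul_le_mul_of_nonneg_right h6 h7
        _ = c * (c1 * s1) := by ring
        _ ≤ c * G.dist o x := mul_le_mul_of_nonneg_left h5 hc.le
        _ ≤ _ := h4
    · push Not at hfar
      have hadm : Adm o M0 W' := by
        refine ⟨hoW', ?_⟩
        intro a b hab ha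
        have hadj : G.Adj a b := by simpa using h1 (mem_coe.2 hab)
        have h4 := hfar a ha
        have h5 : G.dist o b ≤ c1 * s1 := by
          have h6 := hP.conn.dist_triangle (u := o) (v := a) (w := b)
          have h7 : G.dist a b = 1 := SimpleGraph.dist_eq_one_iff_adj.2 hadj
          omega
        have haW : a ∈ W := (mem_filter.1 ha).1
        refine hext a ha b hadj (hW.2 a b ?_ haW)
        rw [mem_filter]
        refine ⟨hab, ?_⟩
        intro u hu
        rw [Sym2.mem_iff] at hu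
        rcases hu with rfl | rfl
        · exact h4.le
        · exact h5
      refine (h3 W' hadm).trans ?_
      exact_mod_cast hcut

end Pool.Agent.Helper22.PG
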