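import Pool.Agent.Helper22.PG.Basic

/-! Mass transport on transitive graphs of polynomial growth, and two consequences: the cost of
uniform geodesics and the placement of finite patterns. -/

namespace Pool.Agent.Helper22.PG

open Finset

section Aut

variable {V : Type} {G : SimpleGraph V}

lemma aut_inv_self (φ : G ≃g G) (x : V) : φ⁻¹ (φ x) = x := φ.symm_apply_apply x

lemma aut_self_inv (φ : G ≃g G) (x : V) : φ (φ⁻¹ x) = x := φ.apply_symm_apply x

lemma aut_mul_apply (φ ψ : G ≃g G) (x : V) : (φ * ψ) x = φ (ψ x) := rfl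

lemma aut_dist_le (hconn : G.Connected) (φ : G ≃g G) (a b : V) :
    G.dist (φ a) (φ b) ≤ G.dist a b := by
  obtain ⟨w, hw⟩ := hconn.exists_walk_length_eq_dist a b
  have := SimpleGraph.dist_le (w.map φ.toHom)
  rw [SimpleGraph.Walk.length_map, hw] at this
  exact this

lemma aut_dist (hconn : G.Connected) (φ : G ≃g G) (a b : V) :
    G.dist (φ a) (φ b) = G.dist a b := by
  refine le_antisymm (aut_dist_le hconn φ a b) ?_
  have := aut_dist_le hconn φ⁻¹ (φ a) (φ b)
  rwa [aut_inv_self, aut_inv_self] at this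

end Aut

variable {V : Type} [DecidableEq V] {G : SimpleGraph V} [G.LocallyFinite]
variable {d K C : ℕ} {v : ℕ → ℕ}

lemma bl_aut (hconn : G.Connected) (φ : G ≃g G) (x : V) (s : ℕ) :
    bl G (φ x) s = (bl G x s).image φ := by
  ext y
  rw [mem_bl hconn, mem_image]
  constructor
  · intro h
    refine ⟨φ⁻¹ y, ?_, aut_self_inv φ y⟩
    rw [mem_bl hconn]
    have := aut_dist hconn φ x (φ⁻¹ y)
    rw [aut_self_inv] at this
    omega
  · rintro ⟨a, ha, rfl⟩
    rw [mem_bl hconn] at ha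
    rw [aut_dist hconn]
    exact ha

lemma sum_bl_aut (hconn : G.Connected) (φ : G ≃g G) (x : V) (s : ℕ) (f : V → ℝ) :
    ∑ y ∈ bl G (φ x) s, f y = ∑ y ∈ bl G x s, f (φ y) := by
  rw [bl_aut hconn, sum_image]
  intro a _ b _ h
  exact φ.injective h

/-- doubling forbids exponential growth -/
lemma PolyG.no_exp (hP : PolyG G d K C v) (s : ℕ) (hs : 1 ≤ s) (ρ : ℝ) (hρ : 1 < ρ)
    (h : ∀ n, ρ * v n ≤ v (n + s)) : False := by
  have h0 : (0 : ℝ) < ρ := by linarith
  have h1 : ∀ k : ℕ, ρ ^ k ≤ v (k * s) := by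
    intro k
    induction k with
    | zero =>
      have := hP.v_pos (0 * s)
      have h2 : (1 : ℝ) ≤ v (0 * s) := by exact_mod_cast this
      simpa using h2
    | succ k ih =>
      have h2 := h (k * s)
      have h3 : (k + 1) * s = k * s + s := by ring
      rw [h3, pow_succ]
      calc ρ ^ k * ρ = ρ * ρ ^ k := by ring
        _ ≤ ρ * v (k * s) := by gcongr
        _ ≤ _ := h2
  have h2 : ∀ j : ℕ, (v (2 ^ j * s) : ℝ) ≤ K ^ j * v s := by
    intro j
    induction j with
    | zero => simp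
    | succ j ih =>
      have h3 := hP.dbl (2 ^ j * s) (Nat.one_le_iff_ne_zero.2 (by positivity))
      have h4 : 2 ^ (j + 1) * s = 2 * (2 ^ j * s) := by ring
      rw [h4]
      calc (v (2 * (2 ^ j * s)) : ℝ) ≤ K * v (2 ^ j * s) := by exact_mod_cast h3
        _ ≤ K * (K ^ j * v s) := by gcongr
        _ = _ := by ring
  obtain ⟨m, hm⟩ := pow_unbounded_of_one_lt (2 * (K : ℝ) + 1) hρ
  set i := 2 * m + v s + 1 with hi
  have hi2 : i < 2 ^ i := Nat.lt_two_pow_self
  have h3 := h1 (2 ^ (2 * i))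
  have h4 := h2 (2 * i)
  have h5 : m * (2 * i) ≤ 2 ^ (2 * i) := by
    calc m * (2 * i) = (2 * m) * i := by ring
      _ ≤ 2 ^ i * 2 ^ i := Nat.mul_le_mul (by omega) (by omega)
      _ = 2 ^ (2 * i) := by ring
  have h6 : ρ ^ (m * (2 * i)) ≤ ρ ^ (2 ^ (2 * i)) := pow_le_pow_right₀ hρ.le h5
  have h7 : (2 * (K : ℝ) + 1) ^ (2 * i) ≤ ρ ^ (m * (2 * i)) := by
    rw [pow_mul ρ m (2 * i)]
    exact pow_le_pow_left₀ (by positivity) hm.le _
  have h8 : (2 : ℝ) ^ (2 * i) * (K : ℝ) ^ (2 * i) ≤ (2 * (K : ℝ) + 1) ^ (2 * i) := by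
    rw [← mul_pow]
    gcongr
    linarith
  have h9 : (v s : ℝ) + 1 ≤ 2 ^ (2 * i) := by
    have : v s + 1 ≤ 2 ^ (2 * i) := by
      calc v s + 1 ≤ i := by omega
        _ ≤ 2 ^ i := hi2.le
        _ ≤ 2 ^ (2 * i) := Nat.pow_le_pow_right (by norm_num) (by omega)
    exact_mod_cast this
  have hK : (1 : ℝ) ≤ K := by
    have h10 := hP.dbl 1 le_rfl
    have h11 := hP.v_pos (2 * 1)
    have : K ≠ 0 := by
      rintro rfl
      omega
    exact_mod_cast Nat.one_le_iff_ne_zero.2 this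
  have hKp : (0 : ℝ) < (K : ℝ) ^ (2 * i) := by positivity
  nlinarith

/-- **Mass transport** on a transitive graph of polynomial growth, for the whole automorphism
group. -/
theorem mtp (hP : PolyG G d K C v) (s : ℕ) (F : V → V → ℝ)
    (hinv : ∀ (φ : G ≃g G) x y, F (φ x) (φ y) = F x y) (x : V) :
    ∑ y ∈ bl G x s, F x y = ∑ y ∈ bl G x s, F y x := by
  have hconn := hP.conn
  by_contra hne
  have hconst : ∀ (f : V → V → ℝ), (∀ (φ : G ≃g G) a b, f (φ a) (φ b) = f a b) → ∀ a,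
      ∑ y ∈ bl G a s, f a y = ∑ y ∈ bl G x s, f x y := by
    intro f hf a
    obtain ⟨φ, rfl⟩ := hP.trans x a
    rw [sum_bl_aut hconn]
    exact sum_congr rfl fun y _ => hf φ x y
  set S := ∑ y ∈ bl G x s, F x y with hS
  set S' := ∑ y ∈ bl G x s, F y x with hS'
  set A := ∑ y ∈ bl G x s, |F x y| with hA
  set A' := ∑ y ∈ bl G x s, |F y x| with hA'
  have eS : ∀ a, ∑ y ∈ bl G a s, F a y = S := hconst F hinv
  have eS' : ∀ a, ∑ y ∈ bl G a s, F y a = S' := hconst (fun a b => F b a) fun φ a b => hinv φ b a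
  have eA : ∀ a, ∑ y ∈ bl G a s, |F a y| = A :=
    hconst (fun a b => |F a b|) fun φ a b => by rw [hinv]
  have eA' : ∀ a, ∑ y ∈ bl G a s, |F y a| = A' :=
    hconst (fun a b => |F b a|) fun φ a b => by rw [hinv]
  have hs : 1 ≤ s := by
    by_contra h
    have : s = 0 := by omega
    subst this
    apply hne
    rw [hS, hS']
    simp [bl]
  have key : ∀ n, |S - S'| * v (n + s) ≤ (A + A') * (v (n + s) - v n) := by
    intro n
    set W := bl G x (n + s) with hW
    set U := bl G x (n + s + s) with hU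
    set I := bl G x n with hI
    have hWU : W ⊆ U := by
      intro y hy
      rw [hW, mem_bl hconn] at hy
      rw [hU, mem_bl hconn]
      omega
    have hIW : I ⊆ W := by
      intro y hy
      rw [hI, mem_bl hconn] at hy
      rw [hW, mem_bl hconn]
      omega
    have hb : ∀ (f : V → V → ℝ) (a : V), a ∈ W →
        ∑ y ∈ bl G a s, f a y = ∑ y ∈ U, if G.dist a y ≤ s then f a y else 0 := by
      intro f a ha
      rw [← sum_filter]
      refine sum_congr ?_ fun _ _ => rfl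
      ext y
      rw [mem_filter, mem_bl hconn, hU, mem_bl hconn]
      rw [hW, mem_bl hconn] at ha
      have h1 := hconn.dist_triangle (u := x) (v := a) (w := y)
      constructor
      · intro h
        exact ⟨by omega, h⟩
      · exact fun h => h.2
    have hcardW : (W.card : ℝ) = v (n + s) := by rw [hW, hP.vol]
    have e1 : (v (n + s) : ℝ) * S = ∑ a ∈ W, ∑ y ∈ U, if G.dist a y ≤ s then F a y else 0 := by
      rw [← sum_congr rfl fun a ha => hb F a ha, sum_congr rfl fun a _ => eS a, sum_const,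
        nsmul_eq_mul, hcardW]
    have e2 : (v (n + s) : ℝ) * S' = ∑ a ∈ W, ∑ y ∈ U, if G.dist a y ≤ s then F y a else 0 := by
      rw [← sum_congr rfl fun a ha => hb (fun a b => F b a) a ha, sum_congr rfl fun a _ => eS' a,
        sum_const, nsmul_eq_mul, hcardW]
    have hsplit : ∀ f : V → ℝ, ∑ y ∈ U, f y = ∑ y ∈ U \ W, f y + ∑ y ∈ W, f y :=
      fun f => (sum_sdiff hWU).symm
    have e3 : (v (n + s) : ℝ) * (S - S') =
        ∑ a ∈ W, ∑ y ∈ U \ W, (if G.dist a y ≤ s then F a y else 0) -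
        ∑ a ∈ W, ∑ y ∈ U \ W, (if G.dist a y ≤ s then F y a else 0) := by
      have h1 : ∑ a ∈ W, ∑ y ∈ W, (if G.dist a y ≤ s then F a y else 0) =
          ∑ a ∈ W, ∑ y ∈ W, (if G.dist a y ≤ s then F y a else 0) := by
        rw [sum_comm]
        refine sum_congr rfl fun a _ => sum_congr rfl fun y _ => ?_
        rw [SimpleGraph.dist_comm]
      rw [mul_sub, e1, e2]
      simp only [hsplit]
      rw [sum_add_distrib, sum_add_distrib, h1]
      ring
    have hbd : ∀ (f : V → V → ℝ) (B : ℝ), (∀ a, ∑ y ∈ bl G a s, |f a y| = B) →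
        |∑ a ∈ W, ∑ y ∈ U \ W, (if G.dist a y ≤ s then f a y else 0)| ≤
          B * (v (n + s) - v n) := by
      intro f B hB
      have hB0 : 0 ≤ B := by
        rw [← hB x]
        exact sum_nonneg fun _ _ => abs_nonneg _
      have h1 : ∀ a ∈ I, ∑ y ∈ U \ W, (if G.dist a y ≤ s then f a y else 0) = 0 := by
        intro a ha
        refine sum_eq_zero fun y hy => ?_
        rw [if_neg]
        intro h
        have hy2 := (mem_sdiff.1 hy).2
        rw [hW, mem_bl hconn] at hy2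
        rw [hI, mem_bl hconn] at ha
        have h1 := hconn.dist_triangle (u := x) (v := a) (w := y)
        omega
      rw [← sum_sdiff hIW, sum_eq_zero h1, add_zero]
      refine (abs_sum_le_sum_abs _ _).trans ?_
      have h2 : ∀ a ∈ W \ I, |∑ y ∈ U \ W, (if G.dist a y ≤ s then f a y else 0)| ≤ B := by
        intro a ha
        refine (abs_sum_le_sum_abs _ _).trans ?_
        rw [← hB a, hb (fun a b => |f a b|) a (mem_sdiff.1 ha).1]
        refine (sum_le_sum_of_subset_of_nonneg sdiff_subset fun _ _ _ => abs_nonneg _).trans ?_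
        refine sum_le_sum fun y _ => ?_
        split_ifs
        · exact le_rfl
        · simp
      refine (sum_le_sum h2).trans ?_
      rw [sum_const, nsmul_eq_mul, card_sdiff_of_subset hIW,
        Nat.cast_sub (card_le_card hIW), hW, hI, hP.vol, hP.vol]
      rw [mul_comm]
    have h4 := hbd F A eA
    have h5 := hbd (fun a b => F b a) A' eA'
    have h6 : |(v (n + s) : ℝ) * (S - S')| ≤ A * (v (n + s) - v n) + A' * (v (n + s) - v n) := by
      rw [e3]
      exact (abs_sub _ _).trans (add_le_add h4 h5)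
    rw [abs_mul, Nat.abs_cast] at h6
    calc |S - S'| * v (n + s) = v (n + s) * |S - S'| := mul_comm _ _
      _ ≤ _ := h6
      _ = _ := by ring
  have hδ : 0 < |S - S'| := abs_pos.2 (sub_ne_zero.2 hne)
  have hA0 : 0 ≤ A := sum_nonneg fun _ _ => abs_nonneg _
  have hA0' : 0 ≤ A' := sum_nonneg fun _ _ => abs_nonneg _
  have hle : |S - S'| ≤ A + A' := by
    refine (abs_sub _ _).trans (add_le_add ?_ ?_)
    · exact abs_sum_le_sum_abs _ _
    · exact abs_sum_le_sum_abs _ _
  have hAA : 0 < A + A' := by linarith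
  have hlt : |S - S'| < A + A' := by
    rcases hle.lt_or_eq with h | h
    · exact h
    · exfalso
      have h1 := key 0
      rw [h] at h1
      have h2 : (0 : ℝ) < v 0 := by exact_mod_cast hP.v_pos 0
      nlinarith
  refine hP.no_exp s hs ((A + A') / (A + A' - |S - S'|)) ?_ ?_
  · rw [one_lt_div (by linarith)]
    linarith
  · intro n
    have h1 := key n
    rw [div_mul_eq_mul_div, div_le_iff₀ (by linarith)]
    nlinarith

/-! ### Geodesics -/

/-- the geodesic walks from `y` to `z` -/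
noncomputable def gw (G : SimpleGraph V) [G.LocallyFinite] (y z : V) : Finset (G.Walk y z) :=
  G.finsetWalkLength (G.dist y z) y z

lemma mem_gw {y z : V} {w : G.Walk y z} : w ∈ gw G y z ↔ w.length = G.dist y z :=
  SimpleGraph.mem_finsetWalkLength_iff

lemma gw_pos (hconn : G.Connected) (y z : V) : 0 < (gw G y z).card := by
  rw [card_pos]
  obtain ⟨w, hw⟩ := hconn.exists_walk_length_eq_dist y z
  exact ⟨w, mem_gw.2 hw⟩

/-- the number of geodesics from `y` to `z` whose vertex number `k` is `x` -/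
noncomputable def gn (G : SimpleGraph V) [G.LocallyFinite] (k : ℕ) (y z x : V) : ℕ :=
  ((gw G y z).filter fun w => w.getVert k = x).card

lemma gw_card_le (hconn : G.Connected) (φ : G ≃g G) (y z : V) :
    (gw G y z).card ≤ (gw G (φ y) (φ z)).card := by
  refine card_le_card_of_injOn (fun w => w.map φ.toHom) ?_ ?_
  · intro w hw
    have h1 := mem_gw.1 hw
    refine mem_gw.2 ?_
    rw [SimpleGraph.Walk.length_map, h1]
    exact (aut_dist hconn φ y z).symm
  · intro w _ w' _ h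
    exact SimpleGraph.Walk.map_injective_of_injective φ.injective _ _ h

lemma gw_card_aut (hconn : G.Connected) (φ : G ≃g G) (y z : V) :
    (gw G (φ y) (φ z)).card = (gw G y z).card := by
  refine le_antisymm ?_ (gw_card_le hconn φ y z)
  have := gw_card_le hconn φ⁻¹ (φ y) (φ z)
  rwa [aut_inv_self, aut_inv_self] at this

lemma gn_le (hconn : G.Connected) (φ : G ≃g G) (k : ℕ) (y z x : V) :
    gn G k y z x ≤ gn G k (φ y) (φ z) (φ x) := by
  refine card_le_card_of_injOn (fun w => w.map φ.toHom) ?_ ?_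
  · intro w hw
    have hw' := mem_filter.1 hw
    have h1 := mem_gw.1 hw'.1
    refine mem_filter.2 ⟨mem_gw.2 ?_, ?_⟩
    · rw [SimpleGraph.Walk.length_map, h1]
      exact (aut_dist hconn φ y z).symm
    · rw [SimpleGraph.Walk.getVert_map, hw'.2]
      rfl
  · intro w _ w' _ h
    exact SimpleGraph.Walk.map_injective_of_injective φ.injective _ _ h

lemma gn_aut (hconn : G.Connected) (φ : G ≃g G) (k : ℕ) (y z x : V) :
    gn G k (φ y) (φ z) (φ x) = gn G k y z x := by
  refine le_antisymm ?_ (gn_le hconn φ k y z x)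
  have := gn_le hconn φ⁻¹ k (φ y) (φ z) (φ x)
  rwa [aut_inv_self, aut_inv_self, aut_inv_self] at this

/-- the probability that vertex number `k` of a uniform geodesic from `y` to `z` is `x` -/
noncomputable def gp (G : SimpleGraph V) [G.LocallyFinite] (k : ℕ) (y z x : V) : ℝ :=
  gn G k y z x / (gw G y z).card

lemma gp_nonneg (k : ℕ) (y z x : V) : 0 ≤ gp G k y z x := by
  unfold gp
  positivity

lemma gp_aut (hconn : G.Connected) (φ : G ≃g G) (k : ℕ) (y z x : V) :
    gp G k (φ y) (φ z) (φ x) = gp G k y z x := by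
  unfold gp
  rw [gn_aut hconn, gw_card_aut hconn]

lemma gw_dist_le {y z : V} {w : G.Walk y z} (hw : w ∈ gw G y z) (k : ℕ) :
    G.dist y (w.getVert k) ≤ G.dist y z := by
  rw [mem_gw] at hw
  have h1 := SimpleGraph.dist_le (w.take k)
  rw [SimpleGraph.Walk.take_length] at h1
  omega

/-- average of a function over the vertex number `k` of a geodesic -/
lemma gp_sum (k : ℕ) (y z : V) (X : Finset V) (c : V → ℝ)
    (hX : ∀ w ∈ gw G y z, w.getVert k ∉ X → c (w.getVert k) = 0) :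
    ∑ x ∈ X, gp G k y z x * c x = (∑ w ∈ gw G y z, c (w.getVert k)) / (gw G y z).card := by
  have h1 : ∀ x ∈ X, gp G k y z x * c x =
      (∑ w ∈ gw G y z, if w.getVert k = x then c x else 0) / (gw G y z).card := by
    intro x _
    rw [← sum_filter, sum_const, nsmul_eq_mul]
    unfold gp gn
    ring
  rw [sum_congr rfl h1, ← sum_div, sum_comm]
  congr 1
  refine sum_congr rfl fun w hw => ?_
  by_cases h : w.getVert k ∈ X
  · rw [sum_ite_eq, if_pos h]
  · rw [hX w hw h]
    refine sum_eq_zero fun x hx => ?_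
    rw [if_neg]
    rintro rfl
    exact h hx

lemma gp_sum_one (hconn : G.Connected) (k : ℕ) (y z : V) (r : ℕ) (hr : G.dist y z ≤ r) :
    ∑ x ∈ bl G y r, gp G k y z x = 1 := by
  have h := gp_sum (G := G) k y z (bl G y r) (fun _ => 1) ?_
  · simp only [mul_one] at h
    rw [h, sum_const, nsmul_eq_mul, mul_one, div_self]
    exact_mod_cast (gw_pos hconn y z).ne'
  · intro w hw h
    exfalso
    apply h
    rw [mem_bl hconn]
    exact (gw_dist_le hw k).trans hr

lemma gp_ne_zero (k : ℕ) (y z x : V) (h : gp G k y z x ≠ 0) :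
    G.dist y x ≤ G.dist y z := by
  have h1 : gn G k y z x ≠ 0 := by
    intro h1
    apply h
    unfold gp
    rw [h1]
    simp
  obtain ⟨w, hw⟩ := card_pos.1 (Nat.pos_of_ne_zero h1)
  rw [mem_filter] at hw
  rw [← hw.2]
  exact gw_dist_le hw.1 k

/-- **Cost of geodesics**, summed form. -/
theorem geo_sum (hP : PolyG G d K C v) (r : ℕ) (Kx : Finset ℕ) (c : V → ℝ) (hc : ∀ x, 0 ≤ c x)
    (X : Finset V) (hX : ∀ x, x ∉ X → c x = 0) (P : Finset (V × V))
    (hPr : ∀ z ∈ P, G.dist z.1 z.2 ≤ r) (t : V × V → ℝ)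
    (ht : ∀ z ∈ P, ∀ w : G.Walk z.1 z.2, w.length = G.dist z.1 z.2 →
      t z ≤ ∑ k ∈ Kx, c (w.getVert k)) :
    ∑ z ∈ P, t z ≤ Kx.card * v r * ∑ x ∈ X, c x := by
  have hconn := hP.conn
  -- mass transport
  have h1 : ∀ k x, ∑ y ∈ bl G x r, ∑ z ∈ bl G y r, gp G k y z x = v r := by
    intro k x
    have h2 := mtp hP r (fun y x => ∑ z ∈ bl G y r, gp G k y z x) (by
      intro φ y x
      rw [sum_bl_aut hconn]
      exact sum_congr rfl fun z _ => gp_aut hconn φ k y z x) x
    rw [← h2, sum_comm]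
    rw [← hP.vol x r, card_eq_sum_ones, Nat.cast_sum]
    refine sum_congr rfl fun z hz => ?_
    rw [mem_bl hconn] at hz
    rw [gp_sum_one hconn k x z r hz]
    simp
  -- sums over `P`
  have h2 : ∀ k x, ∑ z ∈ P, gp G k z.1 z.2 x ≤ v r := by
    intro k x
    rw [← h1 k x, sum_sigma']
    have h3 : ∑ z ∈ P, gp G k z.1 z.2 x =
        ∑ z ∈ P.filter (fun z => gp G k z.1 z.2 x ≠ 0), gp G k z.1 z.2 x := by
      rw [sum_filter_ne_zero]
    rw [h3]
    have h4 : ∑ z ∈ P.filter (fun z => gp G k z.1 z.2 x ≠ 0), gp G k z.1 z.2 x =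
        ∑ p ∈ (P.filter (fun z => gp G k z.1 z.2 x ≠ 0)).image
          (fun z => (⟨z.1, z.2⟩ : (_ : V) × V)), gp G k p.1 p.2 x := by
      rw [sum_image]
      intro a _ b _ h
      simp only [Sigma.mk.injEq, heq_eq_eq] at h
      exact Prod.ext h.1 h.2
    rw [h4]
    refine sum_le_sum_of_subset_of_nonneg ?_ fun p _ _ => gp_nonneg k p.1 p.2 x
    intro p hp
    rw [mem_image] at hp
    obtain ⟨z, hz, rfl⟩ := hp
    rw [mem_filter] at hz
    have h5 := gp_ne_zero k z.1 z.2 x hz.2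
    have h6 := hPr z hz.1
    rw [mem_sigma]
    constructor
    · rw [mem_bl hconn, SimpleGraph.dist_comm]
      exact h5.trans h6
    · rw [mem_bl hconn]
      exact h6
  -- each pair
  have h3 : ∀ z ∈ P, t z ≤ ∑ k ∈ Kx, ∑ x ∈ X, gp G k z.1 z.2 x * c x := by
    intro z hz
    have h4 : ∀ k ∈ Kx, ∑ x ∈ X, gp G k z.1 z.2 x * c x =
        (∑ w ∈ gw G z.1 z.2, c (w.getVert k)) / (gw G z.1 z.2).card := fun k _ =>
      gp_sum k z.1 z.2 X c fun w _ h => hX _ h
    rw [sum_congr rfl h4, ← sum_div, sum_comm]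
    have h5 : (0 : ℝ) < (gw G z.1 z.2).card := by exact_mod_cast gw_pos hconn z.1 z.2
    rw [le_div_iff₀ h5]
    calc t z * (gw G z.1 z.2).card = ∑ _w ∈ gw G z.1 z.2, t z := by
          rw [sum_const, nsmul_eq_mul, mul_comm]
      _ ≤ _ := sum_le_sum fun w hw => ht z hz w (mem_gw.1 hw)
  calc ∑ z ∈ P, t z ≤ ∑ z ∈ P, ∑ k ∈ Kx, ∑ x ∈ X, gp G k z.1 z.2 x * c x := sum_le_sum h3
    _ = ∑ k ∈ Kx, ∑ x ∈ X, (∑ z ∈ P, gp G k z.1 z.2 x) * c x := by
        rw [sum_comm]
        refine sum_congr rfl fun k _ => ?_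
        rw [sum_comm]
        exact sum_congr rfl fun x _ => (sum_mul _ _ _).symm
    _ ≤ ∑ _k ∈ Kx, ∑ x ∈ X, (v r : ℝ) * c x := by
        refine sum_le_sum fun k _ => sum_le_sum fun x _ => ?_
        exact mul_le_mul_of_nonneg_right (h2 k x) (hc x)
    _ = _ := by
        rw [sum_const, nsmul_eq_mul, ← mul_sum]
        ring

/-- **Cost of geodesics.** -/
theorem geo (hP : PolyG G d K C v) (r : ℕ) (Kx : Finset ℕ) (c : V → ℝ) (hc : ∀ x, 0 ≤ c x)
    (X : Finset V) (hX : ∀ x, x ∉ X → c x = 0) (P : Finset (V × V))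
    (hPr : ∀ z ∈ P, G.dist z.1 z.2 ≤ r) (t : ℝ)
    (ht : ∀ z ∈ P, ∀ w : G.Walk z.1 z.2, w.length = G.dist z.1 z.2 →
      t ≤ ∑ k ∈ Kx, c (w.getVert k)) :
    (P.card : ℝ) * t ≤ Kx.card * v r * ∑ x ∈ X, c x := by
  have := geo_sum hP r Kx c hc X hX P hPr (fun _ => t) ht
  rwa [sum_const, nsmul_eq_mul] at this

/-! ### Placement -/

/-- the restrictions to `V0` of the automorphisms that take `o` to `x` -/
def rs (G : SimpleGraph V) (o : V) (V0 : Finset V) (x : V) : Set (V0 → V) :=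
  {ψ | ∃ φ : G ≃g G, φ o = x ∧ ∀ u : V0, ψ u = φ u}

lemma rs_finite (hconn : G.Connected) (o : V) (V0 : Finset V) (x : V) :
    (rs G o V0 x).Finite := by
  refine (Set.Finite.pi' fun u : V0 => finite_toSet (bl G x (G.dist o u))).subset ?_
  rintro ψ ⟨φ, h1, h2⟩ u
  rw [h2 u, mem_coe, mem_bl hconn, ← h1, aut_dist hconn]

lemma rs_nonempty (hP : PolyG G d K C v) (o : V) (V0 : Finset V) (x : V) :
    (rs G o V0 x).Nonempty := by
  obtain ⟨φ, hφ⟩ := hP.trans o x
  exact ⟨fun u => φ u, φ, hφ, fun _ => rfl⟩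

/-- the number of restrictions at `x` that take `u` to `w` -/
noncomputable def rn (G : SimpleGraph V) (o : V) (V0 : Finset V) (u : V0) (x w : V) : ℕ :=
  {ψ | ψ ∈ rs G o V0 x ∧ ψ u = w}.ncard

lemma rs_le (hconn : G.Connected) (o : V) (V0 : Finset V) (g : G ≃g G) (x : V) :
    (rs G o V0 x).ncard ≤ (rs G o V0 (g x)).ncard := by
  refine Set.ncard_le_ncard_of_injOn (fun ψ v => g (ψ v)) ?_ ?_ (rs_finite hconn o V0 (g x))
  · rintro ψ ⟨φ, h1, h2⟩
    refine ⟨g * φ, ?_, ?_⟩
    · rw [aut_mul_apply, h1]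
    · intro v
      rw [aut_mul_apply, ← h2 v]
  · intro ψ _ ψ' _ h
    funext v
    exact g.injective (congrFun h v)

lemma rn_le (hconn : G.Connected) (o : V) (V0 : Finset V) (u : V0) (g : G ≃g G) (x w : V) :
    rn G o V0 u x w ≤ rn G o V0 u (g x) (g w) := by
  refine Set.ncard_le_ncard_of_injOn (fun ψ v => g (ψ v)) ?_ ?_
    ((rs_finite hconn o V0 (g x)).subset fun ψ h => h.1)
  · rintro ψ ⟨⟨φ, h1, h2⟩, h3⟩
    refine ⟨⟨g * φ, ?_, ?_⟩, ?_⟩
    · rw [aut_mul_apply, h1]
    · intro v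
      rw [aut_mul_apply, ← h2 v]
    · exact congrArg g h3
  · intro ψ _ ψ' _ h
    funext v
    exact g.injective (congrFun h v)

lemma rs_aut (hconn : G.Connected) (o : V) (V0 : Finset V) (g : G ≃g G) (x : V) :
    (rs G o V0 (g x)).ncard = (rs G o V0 x).ncard := by
  refine le_antisymm ?_ (rs_le hconn o V0 g x)
  have := rs_le hconn o V0 g⁻¹ (g x)
  rwa [aut_inv_self] at this

lemma rn_aut (hconn : G.Connected) (o : V) (V0 : Finset V) (u : V0) (g : G ≃g G) (x w : V) :
    rn G o V0 u (g x) (g w) = rn G o V0 u x w := by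
  refine le_antisymm ?_ (rn_le hconn o V0 u g x w)
  have := rn_le hconn o V0 u g⁻¹ (g x) (g w)
  rwa [aut_inv_self, aut_inv_self] at this

/-- average of a function over the place of `u` -/
lemma rn_sum (hconn : G.Connected) (o : V) (V0 : Finset V) (u : V0) (x : V) (X : Finset V)
    (c : V → ℝ) (hX : ∀ w, w ∉ X → c w = 0) :
    ∑ w ∈ X, (rn G o V0 u x w : ℝ) * c w = ∑ ψ ∈ (rs_finite hconn o V0 x).toFinset, c (ψ u) := by
  have h1 : ∀ w ∈ X, (rn G o V0 u x w : ℝ) * c w =
      ∑ ψ ∈ (rs_finite hconn o V0 x).toFinset, if ψ u = w then c w else 0 := by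
    intro w _
    rw [← sum_filter, sum_const, nsmul_eq_mul]
    congr 2
    unfold rn
    rw [← Set.ncard_coe_finset]
    congr 1
    ext ψ
    simp
  rw [sum_congr rfl h1, sum_comm]
  refine sum_congr rfl fun ψ _ => ?_
  by_cases h : ψ u ∈ X
  · rw [sum_ite_eq, if_pos h]
  · rw [hX _ h]
    refine sum_eq_zero fun w hw => ?_
    rw [if_neg]
    rintro rfl
    exact h hw

/-- **Placement**, averaged form: costs `c u` are put on the possible places of the vertices `u`
of a finite pattern `V0`; some automorphism takes `o` into `N` at no more than the average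
cost. -/
theorem place_avg (hP : PolyG G d K C v) (o : V) (V0 N : Finset V) (hN : N.Nonempty)
    (c : V → V → ℝ) (hc : ∀ u ∈ V0, ∀ w, 0 ≤ c u w) (X : V → Finset V)
    (hX : ∀ u ∈ V0, ∀ w, w ∉ X u → c u w = 0) :
    ∃ φ : G ≃g G, φ o ∈ N ∧
      (N.card : ℝ) * ∑ u ∈ V0, c u (φ u) ≤ ∑ u ∈ V0, ∑ w ∈ X u, c u w := by
  have hconn := hP.conn
  set R : V → Finset (V0 → V) := fun x => (rs_finite hconn o V0 x).toFinset with hR
  have hRc : ∀ x, (R x).card = (rs G o V0 x).ncard := fun x =>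
    (Set.ncard_eq_toFinset_card _ _).symm
  have hRpos : ∀ x, (0 : ℝ) < (R x).card := by
    intro x
    have := (Set.ncard_pos (rs_finite hconn o V0 x)).2 (rs_nonempty hP o V0 x)
    rw [hRc]
    exact_mod_cast this
  -- mass transport for one vertex of the pattern
  have h1 : ∀ (u : V0) (w : V), ∑ x ∈ bl G w (G.dist o u),
      (rn G o V0 u x w : ℝ) / (R x).card = 1 := by
    intro u w
    have h2 := mtp hP (G.dist o u) (fun x w => (rn G o V0 u x w : ℝ) / (R x).card) (by
      intro φ x w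
      rw [rn_aut hconn, hRc, hRc, rs_aut hconn]) w
    rw [← h2, ← sum_div]
    have h3 := rn_sum hconn o V0 u w (bl G w (G.dist o u))
      (fun x => if x ∈ bl G w (G.dist o u) then 1 else 0) (by
        intro x hx
        rw [if_neg hx])
    have h4 : ∑ x ∈ bl G w (G.dist o u), (rn G o V0 u w x : ℝ) = (R w).card := by
      have h5 : ∑ x ∈ bl G w (G.dist o u), (rn G o V0 u w x : ℝ) *
          (if x ∈ bl G w (G.dist o u) then 1 else 0) =
          ∑ x ∈ bl G w (G.dist o u), (rn G o V0 u w x : ℝ) := by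
        refine sum_congr rfl fun x hx => ?_
        rw [if_pos hx, mul_one]
      rw [← h5, h3, card_eq_sum_ones, Nat.cast_sum]
      refine sum_congr rfl fun ψ hψ => ?_
      rw [Set.Finite.mem_toFinset] at hψ
      obtain ⟨φ, h6, h7⟩ := hψ
      rw [if_pos]
      · simp
      · rw [h7 u, mem_bl hconn, ← h6, aut_dist hconn]
    rw [h4]
    exact div_self (hRpos w).ne'
  have h2 : ∀ (u : V0) (w : V), ∑ x ∈ N, (rn G o V0 u x w : ℝ) / (R x).card ≤ 1 := by
    intro u w
    have h3 : ∑ x ∈ N, (rn G o V0 u x w : ℝ) / (R x).card =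
        ∑ x ∈ N.filter (fun x => (rn G o V0 u x w : ℝ) / (R x).card ≠ 0),
          (rn G o V0 u x w : ℝ) / (R x).card := by
      rw [sum_filter_ne_zero]
    rw [h3, ← h1 u w]
    refine sum_le_sum_of_subset_of_nonneg ?_ fun _ _ _ => by positivity
    intro x hx
    rw [mem_filter] at hx
    have h4 : rn G o V0 u x w ≠ 0 := by
      intro h4
      apply hx.2
      rw [h4]
      simp
    have h5 : {ψ | ψ ∈ rs G o V0 x ∧ ψ u = w}.Nonempty :=
      Set.nonempty_of_ncard_ne_zero h4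
    obtain ⟨ψ, ⟨φ, h6, h7⟩, h8⟩ := h5
    rw [mem_bl hconn, SimpleGraph.dist_comm, ← h6, ← h8, h7 u, aut_dist hconn]
  -- the average cost at `x`
  set E : V → ℝ := fun x => (∑ ψ ∈ R x, ∑ u : V0, c u (ψ u)) / (R x).card with hE
  have h3 : ∀ x, E x = ∑ u : V0, ∑ w ∈ X u, (rn G o V0 u x w : ℝ) / (R x).card * c u w := by
    intro x
    rw [hE]
    simp only
    rw [sum_comm, sum_div]
    refine sum_congr rfl fun u _ => ?_
    rw [← rn_sum hconn o V0 u x (X u) (c u) (hX u u.2), sum_div]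
    refine sum_congr rfl fun w _ => ?_
    ring
  have h4 : ∑ x ∈ N, E x ≤ ∑ u ∈ V0, ∑ w ∈ X u, c u w := by
    rw [sum_congr rfl fun x _ => h3 x, sum_comm, ← sum_coe_sort V0]
    refine sum_le_sum fun u _ => ?_
    rw [sum_comm]
    refine sum_le_sum fun w _ => ?_
    rw [← sum_mul]
    calc _ ≤ 1 * c u w := mul_le_mul_of_nonneg_right (h2 u w) (hc u u.2 w)
      _ = _ := one_mul _
  have hNpos : (0 : ℝ) < N.card := by exact_mod_cast card_pos.2 hN
  obtain ⟨x, hxN, hx⟩ : ∃ x ∈ N, N.card * E x ≤ ∑ u ∈ V0, ∑ w ∈ X u, c u w := by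
    by_contra hcon
    push Not at hcon
    have h5 : ∑ _x ∈ N, (∑ u ∈ V0, ∑ w ∈ X u, c u w) < ∑ x ∈ N, N.card * E x :=
      sum_lt_sum_of_nonempty hN hcon
    rw [sum_const, nsmul_eq_mul, ← mul_sum] at h5
    nlinarith
  obtain ⟨ψ, hψR, hψ⟩ : ∃ ψ ∈ R x, ∑ u : V0, c u (ψ u) ≤ E x := by
    by_contra hcon
    push Not at hcon
    have hne : (R x).Nonempty := by
      rw [← card_pos]
      exact_mod_cast hRpos x
    have h5 : ∑ _ψ ∈ R x, E x < ∑ ψ ∈ R x, ∑ u : V0, c u (ψ u) :=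
      sum_lt_sum_of_nonempty hne hcon
    rw [sum_const, nsmul_eq_mul] at h5
    have h6 : ((R x).card : ℝ) * E x = ∑ ψ ∈ R x, ∑ u : V0, c u (ψ u) := by
      rw [hE]
      simp only
      rw [mul_div_cancel₀ _ (hRpos x).ne']
    linarith
  have hψ' := hψR
  rw [hR] at hψ'
  simp only [Set.Finite.mem_toFinset] at hψ'
  obtain ⟨φ, h6, h7⟩ := hψ'
  refine ⟨φ, h6 ▸ hxN, ?_⟩
  have h8 : ∑ u ∈ V0, c u (φ u) = ∑ u : V0, c u (ψ u) := by
    rw [← sum_coe_sort V0]
    exact sum_congr rfl fun u _ => by rw [h7 u]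
  rw [h8]
  calc (N.card : ℝ) * ∑ u : V0, c u (ψ u) ≤ N.card * E x := by gcongr
    _ ≤ _ := hx

/-- **Placement** of a finite pattern. -/
theorem place (hP : PolyG G d K C v) (o : V) (V0 N : Finset V) (Z : V → Finset V)
    (h : ∑ u ∈ V0, (Z u).card < N.card) :
    ∃ φ : G ≃g G, φ o ∈ N ∧ ∀ u ∈ V0, φ u ∉ Z u := by
  have hN : N.Nonempty := by
    rw [← card_pos]
    omega
  obtain ⟨φ, h1, h2⟩ := place_avg hP o V0 N hN (fun u w => if w ∈ Z u then 1 else 0)
    (fun u _ w => by positivity) Z (fun u _ w hw => if_neg hw)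
  refine ⟨φ, h1, fun u hu hZ => ?_⟩
  have h3 : (1 : ℝ) ≤ ∑ u ∈ V0, if φ u ∈ Z u then (1 : ℝ) else 0 := by
    have h4 := single_le_sum (f := fun u => if φ u ∈ Z u then (1 : ℝ) else 0)
      (fun u _ => by positivity) hu
    simp only [if_pos hZ] at h4
    exact h4
  have h5 : ∑ u ∈ V0, ∑ w ∈ Z u, (if w ∈ Z u then (1 : ℝ) else 0) =
      ((∑ u ∈ V0, (Z u).card : ℕ) : ℝ) := by
    rw [Nat.cast_sum]
    refine sum_congr rfl fun u _ => ?_
    rw [sum_congr rfl fun w hw => if_pos hw]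
    simp
  rw [h5] at h2
  have h6 : ((∑ u ∈ V0, (Z u).card : ℕ) : ℝ) < N.card := by exact_mod_cast h
  have h7 : (0 : ℝ) ≤ N.card := by positivity
  nlinarith

end Pool.Agent.Helper22.PG
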