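import Pool.Agent.Helper22.PG.Vitali
import Pool.Agent.Helper22.PG.Mtp

/-! Placing the blocks along a geodesic. -/

namespace Pool.Agent.Helper22.PG

open Finset Pool.Agent.Helper30.Perc

variable {V : Type} {G : SimpleGraph V} [DecidableEq V] [G.LocallyFinite] {d K C : ℕ} {v : ℕ → ℕ}

omit [DecidableEq V] [G.LocallyFinite] in
lemma sum_biUnion_le' {ι α : Type*} [DecidableEq α] [DecidableEq ι] (I : Finset ι)
    (t : ι → Finset α) (f : α → ℕ) :
    ∑ b ∈ I.biUnion t, f b ≤ ∑ i ∈ I, ∑ b ∈ t i, f b := by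
  induction I using Finset.induction_on with
  | empty => simp
  | insert i I hi ih =>
    rw [biUnion_insert, sum_insert hi]
    have h1 : ∑ b ∈ t i ∪ I.biUnion t, f b + ∑ b ∈ t i ∩ I.biUnion t, f b =
      ∑ b ∈ t i, f b + ∑ b ∈ I.biUnion t, f b := sum_union_inter
    omega

/-- one block, avoiding a finite family of balls -/
lemma place_one (hP : PolyG G d K C v) (o : V) (A Ob : Finset (V × ℕ)) (x0 : V) (ρ2 : ℕ)
    (h : ∑ p ∈ A, ∑ b ∈ Ob, v (2 * p.2 + b.2 + 1) < v ρ2) :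
    ∃ φ : G ≃g G, G.dist x0 (φ o) ≤ ρ2 ∧
      ∀ p ∈ A, ∀ b ∈ Ob, 2 * p.2 + b.2 + 1 < G.dist (φ p.1) b.1 := by
  set Z : V → Finset V := fun u => (A.filter fun p => p.1 = u).biUnion fun p =>
    Ob.biUnion fun b => bl G b.1 (2 * p.2 + b.2 + 1) with hZ
  have hsum : ∑ u ∈ A.image Prod.fst, (Z u).card < (bl G x0 ρ2).card := by
    rw [hP.vol]
    refine lt_of_le_of_lt ?_ h
    calc ∑ u ∈ A.image Prod.fst, (Z u).card
        ≤ ∑ u ∈ A.image Prod.fst, ∑ p ∈ A.filter (fun p => p.1 = u),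
            ∑ b ∈ Ob, v (2 * p.2 + b.2 + 1) := by
          refine sum_le_sum fun u _ => ?_
          refine card_biUnion_le.trans (sum_le_sum fun p _ => ?_)
          refine card_biUnion_le.trans (sum_le_sum fun b _ => ?_)
          rw [hP.vol]
      _ = ∑ p ∈ A, ∑ b ∈ Ob, v (2 * p.2 + b.2 + 1) :=
          sum_fiberwise_of_maps_to (fun p hp => mem_image_of_mem _ hp) _
  obtain ⟨φ, h1, h2⟩ := place hP o (A.image Prod.fst) (bl G x0 ρ2) Z hsum
  refine ⟨φ, (mem_bl hP.conn _ _ _).1 h1, ?_⟩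
  intro p hp b hb
  have h3 := h2 p.1 (mem_image_of_mem _ hp)
  by_contra hcon
  apply h3
  rw [hZ, mem_biUnion]
  refine ⟨p, mem_filter.2 ⟨hp, rfl⟩, ?_⟩
  rw [mem_biUnion]
  refine ⟨b, hb, ?_⟩
  rw [mem_bl hP.conn, SimpleGraph.dist_comm]
  omega

/-- The blocks are placed one after the other along the geodesic `γ`. `n1` bounds the number of
earlier blocks that can interfere, `n2` the number of vertices of `γ` that can interfere. -/
lemma place_all (hP : PolyG G d K C v) (o : V) (A : Finset (V × ℕ)) (ℓ ρ2 Rθ D : ℕ) (hℓ : 0 < ℓ)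
    (hD : ∀ p ∈ A, G.dist o p.1 + 2 * p.2 ≤ D)
    (hsum : ∑ p ∈ A, ((∑ p' ∈ A, (2 * (2 * D + 2 * ρ2 + 1) / ℓ + 1) * v (2 * p.2 + 2 * p'.2 + 1)) +
      (2 * (ρ2 + D + Rθ + 1) + 1) * v (2 * p.2 + Rθ + 1)) < v ρ2)
    {y z : V} (γ : G.Walk y z) (hγ : γ.length = G.dist y z) (n : ℕ) :
    n * ℓ ≤ γ.length → ∃ φ : ℕ → (G ≃g G), ∀ j < n,
      G.dist (γ.getVert (j * ℓ)) (φ j o) ≤ ρ2 ∧
      (∀ p ∈ A, ∀ k ≤ γ.length, 2 * p.2 + Rθ + 1 < G.dist (φ j p.1) (γ.getVert k)) ∧
      ∀ i < j, ∀ p ∈ A, ∀ p' ∈ A, 2 * p.2 + 2 * p'.2 + 1 < G.dist (φ j p.1) (φ i p'.1) := by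
  induction n with
  | zero => intro _; exact ⟨fun _ => 1, fun j hj => absurd hj (Nat.not_lt_zero _)⟩
  | succ n ih =>
    intro hn
    have hn' : n * ℓ ≤ γ.length := (Nat.mul_le_mul_right _ (Nat.le_succ n)).trans hn
    obtain ⟨φ, hφ⟩ := ih hn'
    set x0 := γ.getVert (n * ℓ) with hx0
    set I := (range n).filter fun j => G.dist (γ.getVert (j * ℓ)) x0 ≤ 2 * D + 2 * ρ2 + 1 with hI
    have hIc : I.card ≤ 2 * (2 * D + 2 * ρ2 + 1) / ℓ + 1 :=
      window_count hP.conn γ hγ ℓ n hℓ hn' x0 _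
    set Kk := (range (γ.length + 1)).filter fun k => G.dist (γ.getVert k) x0 ≤ ρ2 + D + Rθ + 1
      with hKk
    have hKc : Kk.card ≤ 2 * (ρ2 + D + Rθ + 1) + 1 := card_geod_ball hP.conn γ hγ x0 _
    set Ob : Finset (V × ℕ) := (I.biUnion fun i => A.image fun p' => (φ i p'.1, 2 * p'.2)) ∪
      Kk.image fun k => (γ.getVert k, Rθ) with hOb
    have hkey : ∑ p ∈ A, ∑ b ∈ Ob, v (2 * p.2 + b.2 + 1) < v ρ2 := by
      refine lt_of_le_of_lt (sum_le_sum fun p _ => ?_) hsum
      have hnn : ∀ (S T : Finset (V × ℕ)), ∑ b ∈ S ∪ T, v (2 * p.2 + b.2 + 1) ≤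
          ∑ b ∈ S, v (2 * p.2 + b.2 + 1) + ∑ b ∈ T, v (2 * p.2 + b.2 + 1) := by
        intro S T
        rw [← sum_union_inter]
        exact Nat.le_add_right _ _
      refine (hnn _ _).trans (add_le_add ?_ ?_)
      · calc ∑ b ∈ I.biUnion (fun i => A.image fun p' => (φ i p'.1, 2 * p'.2)),
              v (2 * p.2 + b.2 + 1)
            ≤ ∑ i ∈ I, ∑ b ∈ A.image (fun p' => (φ i p'.1, 2 * p'.2)), v (2 * p.2 + b.2 + 1) :=
              sum_biUnion_le' _ _ _
          _ ≤ ∑ _i ∈ I, ∑ p' ∈ A, v (2 * p.2 + 2 * p'.2 + 1) := by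
              refine sum_le_sum fun i _ => ?_
              exact sum_image_le_of_nonneg (fun _ _ => Nat.zero_le _)
          _ = I.card * ∑ p' ∈ A, v (2 * p.2 + 2 * p'.2 + 1) := by rw [sum_const, smul_eq_mul]
          _ ≤ (2 * (2 * D + 2 * ρ2 + 1) / ℓ + 1) * ∑ p' ∈ A, v (2 * p.2 + 2 * p'.2 + 1) :=
              Nat.mul_le_mul_right _ hIc
          _ = _ := by rw [mul_sum]
      · calc ∑ b ∈ Kk.image (fun k => (γ.getVert k, Rθ)), v (2 * p.2 + b.2 + 1)
            ≤ ∑ _k ∈ Kk, v (2 * p.2 + Rθ + 1) := sum_image_le_of_nonneg (fun _ _ => Nat.zero_le _)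
          _ = Kk.card * v (2 * p.2 + Rθ + 1) := by rw [sum_const, smul_eq_mul]
          _ ≤ _ := Nat.mul_le_mul_right _ hKc
    obtain ⟨ψ, h1, h2⟩ := place_one hP o A Ob x0 ρ2 hkey
    have hψ : ∀ p ∈ A, G.dist x0 (ψ p.1) + 2 * p.2 ≤ ρ2 + D := by
      intro p hp
      have h3 := hP.conn.dist_triangle (u := x0) (v := ψ o) (w := ψ p.1)
      rw [dist_iso hP.conn] at h3
      have := hD p hp
      omega
    refine ⟨Function.update φ n ψ, ?_⟩
    intro j hj
    rcases Nat.lt_succ_iff_lt_or_eq.1 hj with hjn | rfl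
    · obtain ⟨h3, h4, h5⟩ := hφ j hjn
      rw [Function.update_of_ne hjn.ne]
      refine ⟨h3, h4, ?_⟩
      intro i hi
      rw [Function.update_of_ne (hi.trans hjn).ne]
      exact h5 i hi
    · rw [Function.update_self]
      refine ⟨h1, ?_, ?_⟩
      · intro p hp k hk
        by_cases hkK : k ∈ Kk
        · have := h2 p hp (γ.getVert k, Rθ) (by
            rw [hOb, mem_union]; exact Or.inr (mem_image_of_mem _ hkK))
          simpa using this
        · rw [hKk, mem_filter, mem_range] at hkK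
          push Not at hkK
          have h3 := hkK (by omega)
          have h4 := hP.conn.dist_triangle (u := γ.getVert k) (v := ψ p.1) (w := x0)
          rw [SimpleGraph.dist_comm (u := γ.getVert k) (v := ψ p.1),
            SimpleGraph.dist_comm (u := ψ p.1) (v := x0)] at h4
          have := hψ p hp
          omega
      · intro i hi p hp p' hp'
        rw [Function.update_of_ne hi.ne]
        by_cases hiI : i ∈ I
        · have := h2 p hp (φ i p'.1, 2 * p'.2) (by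
            rw [hOb, mem_union, mem_biUnion]
            exact Or.inl ⟨i, hiI, mem_image.2 ⟨p', hp', rfl⟩⟩)
          simpa using this
        · rw [hI, mem_filter, mem_range] at hiI
          push Not at hiI
          have h3 := hiI hi
          have h4 := hP.conn.dist_triangle (u := γ.getVert (i * ℓ)) (v := φ i p'.1) (w := x0)
          have h5 := hP.conn.dist_triangle (u := φ i p'.1) (v := ψ p.1) (w := x0)
          rw [SimpleGraph.dist_comm (u := φ i p'.1) (v := ψ p.1)] at h5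
          rw [SimpleGraph.dist_comm (u := ψ p.1) (v := x0)] at h5
          have h6 := hP.conn.dist_triangle (u := γ.getVert (i * ℓ)) (v := φ i o) (w := φ i p'.1)
          rw [dist_iso hP.conn] at h6
          have h7 := (hφ i hi).1
          have h8 := hD p' hp'
          have h9 := hψ p hp
          omega

end Pool.Agent.Helper22.PG
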