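import Pool.Agent.Helper30.Perc.Main

/-! Transitive graphs of polynomial growth: standing assumptions and basic facts. -/

namespace Pool.Agent.Helper22.PG

open Finset Pool.Agent.Helper30.Perc

variable {V : Type} [DecidableEq V] (G : SimpleGraph V) [G.LocallyFinite]

/-- the ball of radius `r` around `x`, as a finite set -/
def bl (x : V) : ℕ → Finset V
  | 0 => {x}
  | r + 1 => bl x r ∪ (bl x r).biUnion fun a => G.neighborFinset a

/-- Standing assumptions: `G` is an infinite connected vertex-transitive graph of degree at most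
`d`, the balls of radius `r` have `v r` vertices, and the growth function `v` is doubling with
constant `K` and grows at least cubically with constant `C`. -/
structure PolyG (d K C : ℕ) (v : ℕ → ℕ) : Prop where
  inf : Infinite V
  conn : G.Connected
  deg : ∀ x, (G.neighborFinset x).card ≤ d
  trans : ∀ x y : V, ∃ φ : G ≃g G, φ x = y
  vol : ∀ x r, (bl G x r).card = v r
  dbl : ∀ r, 1 ≤ r → v (2 * r) ≤ K * v r
  gr : ∀ k r, 1 ≤ r → 8 ^ k * v r ≤ C * v (2 ^ k * r)

variable {G}

lemma mem_bl (hconn : G.Connected) (x y : V) (r : ℕ) : y ∈ bl G x r ↔ G.dist x y ≤ r := by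
  induction r generalizing y with
  | zero =>
    simp only [bl, mem_singleton, Nat.le_zero, hconn.dist_eq_zero_iff]
    exact eq_comm
  | succ r ih =>
    simp only [bl, mem_union, mem_biUnion, SimpleGraph.mem_neighborFinset, ih]
    constructor
    · rintro (h | ⟨a, h1, h2⟩)
      · omega
      · have h3 := hconn.dist_triangle (u := x) (v := a) (w := y)
        have h4 : G.dist a y = 1 := SimpleGraph.dist_eq_one_iff_adj.2 h2
        omega
    · intro h
      by_cases hr : G.dist x y ≤ r
      · exact Or.inl hr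
      · right
        obtain ⟨w, hw⟩ := hconn.exists_walk_length_eq_dist x y
        have hpos : 0 < w.length := by omega
        have hnn : ¬ w.Nil := by
          intro hn
          have := SimpleGraph.Walk.length_eq_zero_iff.2 hn
          omega
        refine ⟨w.penultimate, ?_, w.adj_penultimate hnn⟩
        have h5 := SimpleGraph.dist_le w.dropLast
        have h6 : w.dropLast.length = w.length - 1 := by
          simp [SimpleGraph.Walk.dropLast, SimpleGraph.Walk.take_length]
        omega

/-- One round of the `(p,q)`-game from Maker's set `M` and Breaker's set `B`: Maker has a legal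
move `X` that adds an edge to her cluster of `v₀`, such that `Φ` holds after every legal reply. -/
def Step (G : SimpleGraph V) (v₀ : V) (p q : ℕ) (M B : Finset (Sym2 V))
    (Φ : Finset (Sym2 V) → Finset (Sym2 V) → Prop) : Prop :=
  ∃ X : Finset (Sym2 V), X.card = p ∧ (X : Set (Sym2 V)) ⊆ G.edgeSet ∧ Disjoint X (M ∪ B) ∧
    (∃ e ∈ X, ∃ u ∈ e, (SimpleGraph.fromEdgeSet ((M ∪ X : Finset (Sym2 V)) :
      Set (Sym2 V))).Reachable v₀ u) ∧
    ∀ Y : Finset (Sym2 V), Y.card = q → (Y : Set (Sym2 V)) ⊆ G.edgeSet →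
      Disjoint Y (M ∪ X ∪ B) → Φ (M ∪ X) (B ∪ Y)

/-- Maker can force the play to reach a position satisfying `Q`. -/
inductive Force (G : SimpleGraph V) (v₀ : V) (p q : ℕ)
    (Q : Finset (Sym2 V) → Finset (Sym2 V) → Prop) :
    Finset (Sym2 V) → Finset (Sym2 V) → Prop
  | base (M B : Finset (Sym2 V)) (h : Q M B) : Force G v₀ p q Q M B
  | step (M B X : Finset (Sym2 V)) (h1 : X.card = p) (h2 : (X : Set (Sym2 V)) ⊆ G.edgeSet)
      (h3 : Disjoint X (M ∪ B))
      (h4 : ∃ e ∈ X, ∃ u ∈ e, (SimpleGraph.fromEdgeSet ((M ∪ X : Finset (Sym2 V)) :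
        Set (Sym2 V))).Reachable v₀ u)
      (h5 : ∀ Y : Finset (Sym2 V), Y.card = q → (Y : Set (Sym2 V)) ⊆ G.edgeSet →
        Disjoint Y (M ∪ X ∪ B) → Force G v₀ p q Q (M ∪ X) (B ∪ Y)) : Force G v₀ p q Q M B

/-- legal position: disjoint sets of edges of `G` -/
def Pos (G : SimpleGraph V) (M B : Finset (Sym2 V)) : Prop :=
  (M : Set (Sym2 V)) ⊆ G.edgeSet ∧ (B : Set (Sym2 V)) ⊆ G.edgeSet ∧ Disjoint M B

/-- One-round hypothesis of the steering theorem for the predicate `At M B y` (Maker is live at
`y`): whenever she is live at `y`, at most `Λ p` endpoints of claimed edges are within `8 p` of `y`,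
and `a` is a vertex at distance between `p / 8` and `4 p` of `y`, then in one round she can get
live at a vertex `y'` that is closer to `a` by at least `p / T`, without going farther than
`p / 16`. -/
def TurnHyp (G : SimpleGraph V) [G.LocallyFinite] (v₀ : V) (p q T Λ : ℕ)
    (At : Finset (Sym2 V) → Finset (Sym2 V) → V → Prop) : Prop :=
  ∀ M B y a, Pos G M B → At M B y → (vert (M ∪ B) ∩ bl G y (8 * p)).card ≤ Λ * p →
    p ≤ 8 * G.dist y a → G.dist y a ≤ 4 * p →
    Step G v₀ p q M B fun M' B' => ∃ y', At M' B' y' ∧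
      T * G.dist y' a + p ≤ T * G.dist y a ∧ 16 * G.dist y y' ≤ p

/-- Blocks can be hung along every geodesic: block `j` is within distance `R` of the vertex
number `j ℓ`, has at most `s - ℓ` edges, and every finite vertex set that contains the geodesic
from number `i ℓ` to number `m ℓ` and is closed under the blocks `i, …, m - 1` has at least
`(m - i) C'` boundary edges. -/
def StaticHyp (G : SimpleGraph V) [G.LocallyFinite] (ℓ s R C' : ℕ) : Prop :=
  0 < ℓ ∧ 64 * ℓ ≤ s ∧ ∀ (y z : V) (γ : G.Walk y z), γ.length = G.dist y z →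
    ∀ m, m * ℓ ≤ γ.length → ∃ E : ℕ → Finset (Sym2 V),
      (∀ j < m, (E j : Set (Sym2 V)) ⊆ G.edgeSet ∧ (E j).card + ℓ ≤ s ∧
        ∀ e ∈ E j, ∀ u ∈ e, G.dist (γ.getVert (j * ℓ)) u ≤ R) ∧
      ∀ i ≤ m, ∀ W : Finset V, (∀ k, i * ℓ ≤ k → k ≤ m * ℓ → γ.getVert k ∈ W) →
        (∀ j, i ≤ j → j < m → ∀ a b, s(a, b) ∈ E j → a ∈ W → b ∈ W) →
        (m - i) * C' ≤ cut G W

end Pool.Agent.Helper22.PG
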