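import Pool.Agent.Helper30.Perc.Game

/-! Maker's win is invariant under automorphisms. -/

namespace Pool.Agent.Helper22.PG

open Pool.Agent.Helper30.Perc

variable {V : Type}

/-- the permutation of pairs induced by a permutation of points -/
def pairEquiv (φ : V ≃ V) : Sym2 V ≃ Sym2 V where
  toFun := Sym2.map φ
  invFun := Sym2.map φ.symm
  left_inv := fun e => by
    induction e using Sym2.ind with
    | _ a b => simp
  right_inv := fun e => by
    induction e using Sym2.ind with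
    | _ a b => simp

lemma pairEquiv_mem {G : SimpleGraph V} (φ : G ≃g G) (e : Sym2 V) :
    pairEquiv φ.toEquiv e ∈ G.edgeSet ↔ e ∈ G.edgeSet := by
  induction e using Sym2.ind with
  | _ a b =>
    change s(φ a, φ b) ∈ G.edgeSet ↔ _
    rw [SimpleGraph.mem_edgeSet, SimpleGraph.mem_edgeSet]
    exact φ.map_rel_iff

theorem makerWins_map {G : SimpleGraph V} (φ : G ≃g G) {v : V} {p q : ℕ}
    (h : MakerWins G v p q) : MakerWins G (φ v) p q := by
  obtain ⟨σ, hσ⟩ := h
  set ψ := pairEquiv φ.toEquiv with hψ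
  -- the transported strategy
  refine ⟨fun L => (σ (L.map (fun F => F.map ψ.symm.toEmbedding))).map ψ.toEmbedding, ?_⟩
  intro B n
  set B' : ℕ → Finset (Sym2 V) := fun k => (B k).map ψ.symm.toEmbedding with hB'
  have hlist : ∀ m, (List.ofFn (fun j : Fin m => B j.val)).map
      (fun F => F.map ψ.symm.toEmbedding) = List.ofFn (fun j : Fin m => B' j.val) := by
    intro m
    rw [List.map_ofFn]
    rfl
  simp only [hlist]
  have hBp : ∀ k, ((B' k : Finset (Sym2 V)) : Set (Sym2 V)) = ψ ⁻¹' (B k : Set (Sym2 V)) := by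
    intro k
    rw [hB', Finset.coe_map]
    ext e
    simp [Equiv.symm_apply_eq]
  have hσp : ∀ F : Finset (Sym2 V), ((F : Finset (Sym2 V)) : Set (Sym2 V)) =
      ψ ⁻¹' ((F.map ψ.toEmbedding : Finset (Sym2 V)) : Set (Sym2 V)) := by
    intro F
    rw [Finset.coe_map]
    ext e
    simp
  have hsurj : Function.Surjective ψ := ψ.surjective
  have hdis : ∀ A C : Set (Sym2 V), Disjoint (ψ ⁻¹' A) (ψ ⁻¹' C) ↔ Disjoint A C := by
    intro A C
    rw [Set.disjoint_iff_inter_eq_empty, Set.disjoint_iff_inter_eq_empty, ← Set.preimage_inter]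
    constructor
    · intro h
      rw [Set.eq_empty_iff_forall_notMem] at h ⊢
      intro x hx
      obtain ⟨y, rfl⟩ := hsurj x
      exact h y hx
    · intro h
      rw [h, Set.preimage_empty]
  have hsub : ∀ A : Set (Sym2 V), ψ ⁻¹' A ⊆ G.edgeSet ↔ A ⊆ G.edgeSet := by
    intro A
    constructor
    · intro h x hx
      obtain ⟨y, rfl⟩ := hsurj x
      rw [hψ, pairEquiv_mem]
      exact h hx
    · intro h x hx
      rw [← pairEquiv_mem φ]
      exact h hx
  set f : ℕ → Finset (Sym2 V) := fun m => σ (List.ofFn (fun j : Fin m => B' j.val)) with hf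
  have hfp : ∀ m, ((f m : Finset (Sym2 V)) : Set (Sym2 V)) =
      ψ ⁻¹' (((f m).map ψ.toEmbedding : Finset (Sym2 V)) : Set (Sym2 V)) := fun m => hσp _
  have hcard : ∀ k, (B' k).card = (B k).card := fun k => Finset.card_map _
  have key2 : (∀ k < n, (B' k).card = q ∧ ((B' k : Finset (Sym2 V)) : Set (Sym2 V)) ⊆ G.edgeSet ∧
        Disjoint ((B' k : Finset (Sym2 V)) : Set (Sym2 V))
          ((⋃ i ≤ k, ((f i : Finset (Sym2 V)) : Set (Sym2 V))) ∪
            ⋃ i < k, ((B' i : Finset (Sym2 V)) : Set (Sym2 V)))) →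
      ((f n).card = p ∧ ((f n : Finset (Sym2 V)) : Set (Sym2 V)) ⊆ G.edgeSet ∧
        Disjoint ((f n : Finset (Sym2 V)) : Set (Sym2 V))
          ((⋃ i < n, ((f i : Finset (Sym2 V)) : Set (Sym2 V))) ∪
            ⋃ i < n, ((B' i : Finset (Sym2 V)) : Set (Sym2 V)))) ∧
      (((B' n).card = q ∧ ((B' n : Finset (Sym2 V)) : Set (Sym2 V)) ⊆ G.edgeSet ∧
        Disjoint ((B' n : Finset (Sym2 V)) : Set (Sym2 V))
          ((⋃ i ≤ n, ((f i : Finset (Sym2 V)) : Set (Sym2 V))) ∪
            ⋃ i < n, ((B' i : Finset (Sym2 V)) : Set (Sym2 V)))) →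
        {w : V | (G.deleteEdges (⋃ i ≤ n,
          ((B' i : Finset (Sym2 V)) : Set (Sym2 V)))).Reachable v w}.Infinite) := hσ B' n
  simp only [hBp, hfp, hcard] at key2
  simp only [← Set.preimage_iUnion, ← Set.preimage_union, hdis, hsub] at key2
  intro hB
  obtain ⟨h1, h2⟩ := key2 hB
  refine ⟨⟨by rw [Finset.card_map]; exact h1.1, h1.2.1, h1.2.2⟩, fun hBn => ?_⟩
  have h3 := h2 hBn
  refine (h3.image φ.injective.injOn).mono ?_
  rintro _ ⟨w, hw, rfl⟩
  rw [Set.mem_setOf_eq] at hw ⊢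
  let f : (G.deleteEdges (ψ ⁻¹' ⋃ i ≤ n, ((B i : Finset (Sym2 V)) : Set (Sym2 V)))) →g
      (G.deleteEdges (⋃ i ≤ n, ((B i : Finset (Sym2 V)) : Set (Sym2 V)))) :=
    { toFun := φ
      map_rel' := by
        intro a b hab
        rw [SimpleGraph.deleteEdges_adj] at hab ⊢
        exact ⟨φ.map_rel_iff.2 hab.1, fun h => hab.2 h⟩ }
  exact hw.map f

end Pool.Agent.Helper22.PG
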