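import Pool.Agent.Helper22.PG.Steer
import Pool.Agent.Helper22.PG.Iso

/-! Assembly of the main theorem on graphs of polynomial growth. -/

namespace Pool.Agent.Helper22.PG

open Finset Filter Pool.Agent.Helper30.Perc

variable {V : Type} [DecidableEq V] {G : SimpleGraph V} [G.LocallyFinite] {d K C : ℕ} {v : ℕ → ℕ}

lemma capGE_of_static (hP : PolyG G d K C v) {ℓ s R C' : ℕ} (hS : StaticHyp G ℓ s R C') (o : V)
    (p : ℕ) : CapGE G o p (((p / s : ℕ) : ℝ) * C') := by
  classical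
  obtain ⟨hℓ, hs, hS⟩ := hS
  set m := p / s with hm
  have hms : m * s ≤ p := by rw [hm]; exact Nat.div_mul_le_self p s
  obtain ⟨z, hz⟩ := hP.exists_dist_eq o (m * ℓ)
  obtain ⟨γ, hγ⟩ := hP.conn.exists_walk_length_eq_dist o z
  obtain ⟨E, hE, hcut⟩ := hS o z γ hγ m (by rw [hγ, hz])
  -- edges of the geodesic
  set P : Finset (Sym2 V) := (range (m * ℓ)).image fun k => s(γ.getVert k, γ.getVert (k + 1)) with hPd
  have hPc : P.card ≤ m * ℓ := by
    rw [hPd]; exact card_image_le.trans (by rw [card_range])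
  have hPE : (P : Set (Sym2 V)) ⊆ G.edgeSet := by
    intro e he
    rw [hPd, coe_image] at he
    obtain ⟨k, hk, rfl⟩ := he
    have hk' := mem_range.1 (mem_coe.1 hk)
    rw [SimpleGraph.mem_edgeSet]
    exact γ.adj_getVert_succ (by rw [hγ, hz]; exact hk')
  set M0 : Finset (Sym2 V) := P ∪ (range m).biUnion E with hM0
  have hM0E : (M0 : Set (Sym2 V)) ⊆ G.edgeSet := by
    rw [hM0, coe_union]
    refine Set.union_subset hPE ?_
    intro e he
    rw [mem_coe, mem_biUnion] at he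
    obtain ⟨j, hj, he⟩ := he
    exact (hE j (mem_range.1 hj)).1 (mem_coe.2 he)
  have hM0c : M0.card ≤ p := by
    have h1 : ((range m).biUnion E).card ≤ m * (s - ℓ) := by
      refine card_biUnion_le.trans ?_
      calc ∑ j ∈ range m, (E j).card ≤ ∑ _j ∈ range m, (s - ℓ) := by
            refine sum_le_sum fun j hj => ?_
            have := (hE j (mem_range.1 hj)).2.1
            omega
        _ = m * (s - ℓ) := by rw [sum_const, card_range, smul_eq_mul]
    have h2 : M0.card ≤ m * ℓ + m * (s - ℓ) := by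
      rw [hM0]
      exact (card_union_le _ _).trans (by omega)
    have h3 : m * ℓ + m * (s - ℓ) = m * s := by
      rw [← mul_add]; congr 1; omega
    omega
  obtain ⟨M, hM0M, hMc, hME, -⟩ := exists_move hP.edge_infinite M0 ∅ p hM0E (by simp) hM0c
  refine ⟨M, hME, hMc, ?_⟩
  intro W hW
  have hgeo : ∀ k, k ≤ m * ℓ → γ.getVert k ∈ W := by
    intro k
    induction k with
    | zero => intro _; rw [γ.getVert_zero]; exact hW.1
    | succ k ih =>
      intro hk
      refine hW.2 _ _ (hM0M ?_) (ih (by omega))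
      rw [hM0, mem_union]
      left
      rw [hPd, mem_image]
      exact ⟨k, mem_range.2 (by omega), rfl⟩
  have key := hcut 0 (Nat.zero_le _) W (fun k _ hk => hgeo k hk) (by
    intro j _ hj a b hab ha
    refine hW.2 a b (hM0M ?_) ha
    rw [hM0, mem_union]
    right
    rw [mem_biUnion]
    exact ⟨j, mem_range.2 hj, hab⟩)
  rw [Nat.sub_zero] at key
  exact_mod_cast key

theorem main_of (hP : PolyG G d K C v)
    (hstatic : ∀ (o : V) (κ ε : ℝ), 0 < ε → (∃ᶠ n in atTop, CapGE G o n ((κ - ε) * n)) →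
      ∃ ℓ s R C' : ℕ, StaticHyp G ℓ s R C' ∧ (κ - 2 * ε) * s ≤ C')
    (hturn : ∀ (ℓ s R C' : ℕ), StaticHyp G ℓ s R C' → ∀ ε : ℝ, 0 < ε → ∀ v₀ : V,
      ∃ (At : ℕ → Finset (Sym2 V) → Finset (Sym2 V) → V → Prop) (T : ℕ), 0 < T ∧
        (∀ p, At p ∅ ∅ v₀) ∧ ∀ Λ : ℕ, ∃ p₀ : ℕ, ∀ p q : ℕ, p₀ ≤ p →
          (q + ε * p) * s ≤ C' * p → TurnHyp G v₀ p q T Λ (At p)) :
    ∃ b : ℝ, 0 ≤ b ∧
      (∀ v₀ : V, Tendsto (fun p : ℕ => (maxCap G v₀ p : ℝ) / p) atTop (nhds b)) ∧
      ∀ ε : ℝ, 0 < ε → ∃ p₀ : ℕ, ∀ p q : ℕ, p₀ ≤ p → ∀ v₀ : V,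
        ((b + ε) * (p : ℝ) < (q : ℝ) → BreakerWins G v₀ p q) ∧
        ((q : ℝ) < (b - ε) * (p : ℝ) → MakerWins G v₀ p q) := by
  obtain ⟨o⟩ : Nonempty V := hP.conn.nonempty
  have hE := hP.edge_infinite
  have hd := hP.deg
  set S : Set ℝ := {c | ∃ᶠ n in atTop, CapGE G o n (c * n)} with hS
  have h0S : (0 : ℝ) ∈ S := by
    rw [hS, Set.mem_setOf_eq]
    refine (Eventually.of_forall fun n => ?_).frequently
    obtain ⟨M, hM, hMc⟩ := hE.exists_subset_card_eq n
    exact ⟨M, hM, hMc, fun W _ => by rw [zero_mul]; positivity⟩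
  have hbdd : BddAbove S := by
    refine ⟨3 * d, ?_⟩
    intro c hc
    obtain ⟨n, ⟨M, h1, h2, h3⟩, hn⟩ := (hc.and_eventually (eventually_ge_atTop 1)).exists
    obtain ⟨W, hW, hW'⟩ := exists_adm_small G d hd o M
    have h4 := h3 W hW
    rw [h2] at hW'
    have h5 : (cut G W : ℝ) ≤ (2 * n + 1) * d := by exact_mod_cast hW'
    have h6 : (1 : ℝ) ≤ n := by exact_mod_cast hn
    have h7 : (0 : ℝ) < n := by linarith
    have h8 : c * n ≤ 3 * d * n := by nlinarith [(Nat.cast_nonneg d : (0 : ℝ) ≤ d)]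
    exact le_of_mul_le_mul_right h8 h7
  set b : ℝ := sSup S with hb
  have hb0 : 0 ≤ b := le_csSup hbdd h0S
  have hlow : ∀ ε : ℝ, 0 < ε → ∃ᶠ n in atTop, CapGE G o n ((b - ε) * n) := by
    intro ε hε
    obtain ⟨c, hc, hc'⟩ := exists_lt_of_lt_csSup ⟨0, h0S⟩ (show b - ε < sSup S by
      rw [← hb]; linarith)
    refine Frequently.mono hc fun n hn => hn.mono G ?_
    exact mul_le_mul_of_nonneg_right hc'.le (by positivity)
  have hup : ∀ ε : ℝ, 0 < ε → ∀ᶠ n : ℕ in atTop, ¬ CapGE G o n ((b + ε) * n) := by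
    intro ε hε
    have h1 : b + ε ∉ S := by
      intro h2
      have := le_csSup hbdd h2
      linarith
    rw [hS, Set.mem_setOf_eq, not_frequently] at h1
    exact h1
  have htr : ∀ v w : V, ∀ n c, CapGE G v n c → CapGE G w n c := by
    intro v w n c hc
    obtain ⟨φ, hφ⟩ := hP.trans v w
    rw [← hφ]
    exact hc.translate G φ
  have hlow' : ∀ ε : ℝ, 0 < ε → ∃ p0 : ℕ, ∀ p : ℕ, p0 ≤ p → ∀ v,
      CapGE G v p ((b - ε) * p) := by
    intro ε hε
    obtain ⟨ℓ, s, R, C', hSt, hC'⟩ := hstatic o b (ε / 4) (by linarith) (hlow _ (by linarith))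
    have hs0 : 0 < s := by have := hSt.1; have := hSt.2.1; omega
    have hs0' : (0 : ℝ) < s := by exact_mod_cast hs0
    refine ⟨⌈2 * (C' : ℝ) / ε⌉₊ + 1, ?_⟩
    intro p hp w
    refine (capGE_of_static hP hSt w p).mono G ?_
    have h1 : (p : ℝ) / s - 1 ≤ ((p / s : ℕ) : ℝ) := by
      have h2 : p < (p / s + 1) * s := by
        have := Nat.lt_div_mul_add hs0 (a := p)
        rw [add_mul, one_mul]; exact this
      have h3 : (p : ℝ) < (((p / s : ℕ) : ℝ) + 1) * s := by exact_mod_cast h2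
      rw [sub_le_iff_le_add, div_le_iff₀ hs0']
      exact h3.le
    have h4 : 2 * (C' : ℝ) / ε ≤ p := by
      have h5 := Nat.le_ceil (2 * (C' : ℝ) / ε)
      have h6 : ((⌈2 * (C' : ℝ) / ε⌉₊ : ℕ) : ℝ) ≤ p := by
        exact_mod_cast (show ⌈2 * (C' : ℝ) / ε⌉₊ ≤ p by omega)
      linarith
    rw [div_le_iff₀ hε] at h4
    have h7 : ((p : ℝ) / s - 1) * C' ≤ ((p / s : ℕ) : ℝ) * C' :=
      mul_le_mul_of_nonneg_right h1 (by positivity)
    have h8 : (b - ε / 2) * p ≤ (p : ℝ) / s * C' := by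
      have h9 : (b - 2 * (ε / 4)) * s * (p / s) ≤ C' * ((p : ℝ) / s) :=
        mul_le_mul_of_nonneg_right hC' (by positivity)
      have h10 : (b - 2 * (ε / 4)) * s * ((p : ℝ) / s) = (b - ε / 2) * p := by
        field_simp
        ring
      rw [h10] at h9
      linarith
    have h11 : ((p : ℝ) / s - 1) * C' = (p : ℝ) / s * C' - C' := by ring
    rw [h11] at h7
    linarith
  refine ⟨b, hb0, ?_, ?_⟩
  · intro w
    rw [Metric.tendsto_atTop]
    intro ε hε
    obtain ⟨p1, hp1⟩ := hlow' (ε / 2) (by linarith)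
    obtain ⟨p2, hp2⟩ := eventually_atTop.1 (hup (ε / 2) (by linarith))
    refine ⟨max (max p1 p2) 1, ?_⟩
    intro p hp
    have hpp : (0 : ℝ) < p := by
      have : 1 ≤ p := (le_max_right _ _).trans hp
      exact_mod_cast this
    have h1 := hp1 p ((le_max_left _ _).trans ((le_max_left _ _).trans hp)) w
    have h2 := hp2 p ((le_max_right _ _).trans ((le_max_left _ _).trans hp))
    have h3 : ¬ CapGE G w p ((b + ε / 2) * p) := fun hc => h2 (htr w o _ _ hc)
    rw [capGE_iff G d hd hE] at h1 h3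
    rw [not_le] at h3
    rw [Real.dist_eq, abs_lt]
    constructor
    · have : b - ε / 2 ≤ (maxCap G w p : ℝ) / p := by
        rw [le_div_iff₀ hpp]; exact h1
      linarith
    · have : (maxCap G w p : ℝ) / p < b + ε / 2 := by
        rw [div_lt_iff₀ hpp]; exact h3
      linarith
  · intro ε hε
    obtain ⟨p2, hp2⟩ := eventually_atTop.1 (hup ε hε)
    obtain ⟨ℓ, s, R, C', hSt, hC'⟩ := hstatic o b (ε / 4) (by linarith) (hlow _ (by linarith))
    obtain ⟨At, T, hT, hAt0, hAt⟩ := hturn ℓ s R C' hSt (ε / 4) (by linarith) o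
    obtain ⟨Λ, p1, hst⟩ := steering hP T ⌈b⌉₊ hT
    obtain ⟨p3, hp3⟩ := hAt Λ
    refine ⟨max p2 (max p1 p3), ?_⟩
    intro p q hp w
    constructor
    · intro hq
      refine breakerWins_of_cut G hE w p q ?_
      intro X hX hXE
      have h1 : ¬ CapGE G w p ((b + ε) * p) := fun hc =>
        hp2 p ((le_max_left _ _).trans hp) (htr w o _ _ hc)
      have h2 : ∃ W : Finset V, Adm w X W ∧ (cut G W : ℝ) < (b + ε) * p := by
        by_contra hcon
        push Not at hcon
        exact h1 ⟨X, hXE, hX, hcon⟩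
      obtain ⟨W, hW, hWc⟩ := h2
      refine ⟨W, bdE G W, hW.1, ?_, ?_, ?_, ?_⟩
      · rw [card_bdE]
        have : (cut G W : ℝ) < q := hWc.trans hq
        have : cut G W < q := by exact_mod_cast this
        exact this.le
      · intro e he
        rw [mem_coe, mem_bdE] at he
        obtain ⟨a, -, b, -, hab, rfl⟩ := he
        simpa using hab
      · rw [adm_iff G w X hXE, bdry_eq] at hW
        exact hW.2
      · intro a ha b' hb' hab
        rw [mem_bdE]
        exact ⟨a, ha, b', hb', hab, rfl⟩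
    · intro hq
      have hp0 : (0 : ℝ) ≤ p := by positivity
      have hs0' : (0 : ℝ) ≤ s := by positivity
      have hMo : MakerWins G o p q := by
        refine hst p q ((le_max_left _ _).trans ((le_max_right _ _).trans hp)) ?_ o (At p)
          (hAt0 p) (hp3 p q ((le_max_right _ _).trans ((le_max_right _ _).trans hp)) ?_)
        · have h1 : (q : ℝ) ≤ ⌈b⌉₊ * p := by
            have h2 : b ≤ ⌈b⌉₊ := Nat.le_ceil b
            have h3 : (b - ε) * p ≤ ⌈b⌉₊ * p :=
              mul_le_mul_of_nonneg_right (by linarith) hp0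
            linarith
          exact_mod_cast h1
        · have h1 : (q : ℝ) + ε / 4 * p ≤ (b - 2 * (ε / 4)) * p := by
            have : 0 ≤ ε * p := by positivity
            nlinarith
          calc ((q : ℝ) + ε / 4 * p) * s ≤ ((b - 2 * (ε / 4)) * p) * s :=
                mul_le_mul_of_nonneg_right h1 hs0'
            _ = ((b - 2 * (ε / 4)) * s) * p := by ring
            _ ≤ C' * p := mul_le_mul_of_nonneg_right hC' hp0
      obtain ⟨φ, hφ⟩ := hP.trans o w
      rw [← hφ]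
      exact makerWins_map φ hMo

end Pool.Agent.Helper22.PG
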