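import Pool.Agent.Helper22.PG.Basic

/-! A set of positions from which Maker can always force her way back into the set, in at least one
round and joining an edge to her cluster of the root in every round, gives a winning strategy. -/

namespace Pool.Agent.Helper22.PG

open Finset Pool.Agent.Helper30.Perc

variable {V : Type} [DecidableEq V] {G : SimpleGraph V} [G.LocallyFinite]

theorem makerWins_of_force (hE : G.edgeSet.Infinite) (v₀ : V) (p q : ℕ)
    (Q : Finset (Sym2 V) → Finset (Sym2 V) → Prop) (h0 : Q ∅ ∅)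
    (hstep : ∀ M B, Pos G M B → Q M B → Step G v₀ p q M B (Force G v₀ p q Q)) :
    MakerWins G v₀ p q := by
  -- the edges of Maker's cluster
  let P : ℕ → Finset (Sym2 V) → Finset (Sym2 V) → Prop := fun k M B =>
    Pos G M B ∧ Force G v₀ p q Q M B ∧ ∃ E : Finset (Sym2 V), E ⊆ M ∧ k ≤ E.card ∧
      ∀ e ∈ E, ∃ u ∈ e, (SimpleGraph.fromEdgeSet (M : Set (Sym2 V))).Reachable v₀ u
  have hs : ∀ k M B, P k M B → ∃ X : Finset (Sym2 V), X.card = p ∧
      (X : Set (Sym2 V)) ⊆ G.edgeSet ∧ Disjoint (X : Set (Sym2 V)) ((M : Set (Sym2 V)) ∪ B) ∧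
      ∀ M' B' Y : Finset (Sym2 V), (M' : Set (Sym2 V)) = (M : Set (Sym2 V)) ∪ (X : Set (Sym2 V)) →
        (B' : Set (Sym2 V)) = (B : Set (Sym2 V)) ∪ (Y : Set (Sym2 V)) →
        Y.card = q → (Y : Set (Sym2 V)) ⊆ G.edgeSet →
        Disjoint (Y : Set (Sym2 V)) ((M' : Set (Sym2 V)) ∪ B) → P (k + 1) M' B' := by
    rintro k M B ⟨hPos, hF, E, hEM, hEk, hEr⟩
    have hS : Step G v₀ p q M B (Force G v₀ p q Q) := by
      cases hF with
      | base _ _ h => exact hstep M B hPos h
      | step _ _ X h1 h2 h3 h4 h5 => exact ⟨X, h1, h2, h3, h4, h5⟩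
    obtain ⟨X, hXp, hXE, hXd, ⟨e, heX, u, hue, hur⟩, hX⟩ := hS
    refine ⟨X, hXp, hXE, ?_, ?_⟩
    · rw [← Finset.coe_union, Finset.disjoint_coe]; exact hXd
    intro M' B' Y hM' hB' hY hYE hYd
    have eM : M' = M ∪ X := by
      apply Finset.coe_injective; rw [hM', Finset.coe_union]
    have eB : B' = B ∪ Y := by
      apply Finset.coe_injective; rw [hB', Finset.coe_union]
    subst eM; subst eB
    rw [← Finset.coe_union, Finset.disjoint_coe] at hYd
    refine ⟨⟨?_, ?_, ?_⟩, hX Y hY hYE hYd, insert e E, ?_, ?_, ?_⟩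
    · rw [Finset.coe_union]; exact Set.union_subset hPos.1 hXE
    · rw [Finset.coe_union]; exact Set.union_subset hPos.2.1 hYE
    · rw [disjoint_union_right, disjoint_union_left]
      rw [disjoint_union_right] at hXd
      rw [disjoint_union_right] at hYd
      exact ⟨⟨hPos.2.2, hXd.2⟩, hYd.1.symm⟩
    · exact insert_subset (mem_union_right _ heX) (hEM.trans subset_union_left)
    · have : e ∉ E := by
        intro h
        rw [disjoint_union_right] at hXd
        exact (Finset.disjoint_left.1 hXd.1) heX (hEM h)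
      rw [card_insert_of_notMem this]; omega
    · intro f hf
      rw [mem_insert] at hf
      rcases hf with rfl | hf
      · exact ⟨u, hue, hur⟩
      · obtain ⟨u', hu', hr⟩ := hEr f hf
        refine ⟨u', hu', hr.mono (SimpleGraph.fromEdgeSet_mono ?_)⟩
        rw [Finset.coe_union]; exact Set.subset_union_left
  refine makerWins_of_invariant G v₀ p q P ?_ hs ?_
  · exact ⟨⟨by simp, by simp, by simp⟩, Force.base _ _ h0, ∅, by simp, by simp, by simp⟩
  · intro k M B hP hfin
    have hgo : ∀ m, ∃ M' B', P (k + m) M' B' ∧ B ⊆ B' := by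
      intro m
      induction m with
      | zero => exact ⟨M, B, hP, subset_rfl⟩
      | succ m ih =>
        obtain ⟨M', B', hP', hBB'⟩ := ih
        obtain ⟨X, hXp, hXE, hXd, hX⟩ := hs _ _ _ hP'
        obtain ⟨Y, -, hYq, hYE, hYd⟩ := exists_move hE ∅ (M' ∪ X ∪ B') q (by simp) (by simp)
          (by simp)
        refine ⟨M' ∪ X, B' ∪ Y, hX _ _ Y (Finset.coe_union _ _) (Finset.coe_union _ _) hYq hYE ?_,
          hBB'.trans subset_union_left⟩
        rw [← Finset.coe_union]
        exact hYd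
    obtain ⟨M', B', ⟨hPos, -, E, hEM, hEk, hEr⟩, hBB'⟩ := hgo (hfin.toFinset.sym2.card + 1)
    have hle : SimpleGraph.fromEdgeSet (M' : Set (Sym2 V)) ≤
        G.deleteEdges (B : Set (Sym2 V)) := by
      intro a b hab
      rw [SimpleGraph.fromEdgeSet_adj] at hab
      rw [SimpleGraph.deleteEdges_adj]
      refine ⟨hPos.1 hab.1, fun h => ?_⟩
      exact (Finset.disjoint_left.1 hPos.2.2) hab.1 (hBB' h)
    have hsub : E ⊆ hfin.toFinset.sym2 := by
      intro e he
      obtain ⟨u, hue, hur⟩ := hEr e he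
      have heM := hEM he
      induction e using Sym2.ind with
      | _ a b =>
        have hab : (SimpleGraph.fromEdgeSet (M' : Set (Sym2 V))).Adj a b := by
          rw [SimpleGraph.fromEdgeSet_adj]
          refine ⟨heM, ?_⟩
          have := hPos.1 heM
          exact G.ne_of_adj this
        have hboth : (SimpleGraph.fromEdgeSet (M' : Set (Sym2 V))).Reachable v₀ a ∧
            (SimpleGraph.fromEdgeSet (M' : Set (Sym2 V))).Reachable v₀ b := by
          rw [Sym2.mem_iff] at hue
          rcases hue with rfl | rfl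
          · exact ⟨hur, hur.trans hab.reachable⟩
          · exact ⟨hur.trans hab.symm.reachable, hur⟩
        rw [Finset.mk_mem_sym2_iff, Set.Finite.mem_toFinset, Set.Finite.mem_toFinset]
        exact ⟨hboth.1.mono hle, hboth.2.mono hle⟩
    have := card_le_card hsub
    omega

/-! ### composition of forcing steps -/

variable {v₀ : V} {p q : ℕ}

lemma Step.mono {M B : Finset (Sym2 V)} {Φ Ψ : Finset (Sym2 V) → Finset (Sym2 V) → Prop}
    (h : Step G v₀ p q M B Φ) (h' : ∀ M' B', Φ M' B' → Ψ M' B') : Step G v₀ p q M B Ψ := by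
  obtain ⟨X, h1, h2, h3, h4, h5⟩ := h
  exact ⟨X, h1, h2, h3, h4, fun Y a b c => h' _ _ (h5 Y a b c)⟩

/-- the position after a round is legal and contains the old one -/
lemma Step.strong {M B : Finset (Sym2 V)} {Φ : Finset (Sym2 V) → Finset (Sym2 V) → Prop}
    (hPos : Pos G M B) (h : Step G v₀ p q M B Φ) :
    Step G v₀ p q M B fun M' B' => Φ M' B' ∧ Pos G M' B' ∧ vert (M ∪ B) ⊆ vert (M' ∪ B') ∧
      (vert (M' ∪ B')).card ≤ (vert (M ∪ B)).card + 2 * (p + q) := by
  obtain ⟨X, h1, h2, h3, h4, h5⟩ := h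
  refine ⟨X, h1, h2, h3, h4, fun Y hY hYE hYd => ⟨h5 Y hY hYE hYd, ⟨?_, ?_, ?_⟩, ?_, ?_⟩⟩
  · rw [Finset.coe_union]; exact Set.union_subset hPos.1 h2
  · rw [Finset.coe_union]; exact Set.union_subset hPos.2.1 hYE
  · rw [disjoint_union_right, disjoint_union_left]
    rw [disjoint_union_right] at h3
    rw [disjoint_union_right] at hYd
    exact ⟨⟨hPos.2.2, h3.2⟩, hYd.1.symm⟩
  · apply biUnion_subset_biUnion_of_subset_left
    exact union_subset_union subset_union_left subset_union_left
  · have e : M ∪ X ∪ (B ∪ Y) = (M ∪ B) ∪ (X ∪ Y) := by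
      ext e; simp only [mem_union]; tauto
    have e2 : vert ((M ∪ B) ∪ (X ∪ Y)) = vert (M ∪ B) ∪ vert (X ∪ Y) := by
      unfold vert; rw [union_biUnion]
    rw [e, e2]
    refine (card_union_le _ _).trans ?_
    have h6 := card_vert (X ∪ Y)
    have h7 := card_union_le X Y
    omega

lemma Step.force {M B : Finset (Sym2 V)} {Q : Finset (Sym2 V) → Finset (Sym2 V) → Prop}
    (h : Step G v₀ p q M B (Force G v₀ p q Q)) : Force G v₀ p q Q M B := by
  obtain ⟨X, h1, h2, h3, h4, h5⟩ := h
  exact Force.step M B X h1 h2 h3 h4 h5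

lemma Force.trans {M B : Finset (Sym2 V)} {Q Q' : Finset (Sym2 V) → Finset (Sym2 V) → Prop}
    (h : Force G v₀ p q Q M B) (h' : ∀ M' B', Q M' B' → Force G v₀ p q Q' M' B') :
    Force G v₀ p q Q' M B := by
  induction h with
  | base M B h => exact h' M B h
  | step M B X h1 h2 h3 h4 _ ih => exact Force.step M B X h1 h2 h3 h4 ih

lemma Force.mono {M B : Finset (Sym2 V)} {Q Q' : Finset (Sym2 V) → Finset (Sym2 V) → Prop}
    (h : Force G v₀ p q Q M B) (h' : ∀ M' B', Q M' B' → Q' M' B') :
    Force G v₀ p q Q' M B := h.trans fun M' B' h => Force.base _ _ (h' M' B' h)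

/-- forcing followed by at least one more round -/
lemma Force.bind {M B : Finset (Sym2 V)} {Q Q' : Finset (Sym2 V) → Finset (Sym2 V) → Prop}
    (h : Force G v₀ p q Q M B)
    (h' : ∀ M' B', Q M' B' → Step G v₀ p q M' B' (Force G v₀ p q Q')) :
    Step G v₀ p q M B (Force G v₀ p q Q') := by
  cases h with
  | base _ _ h => exact h' M B h
  | step _ _ X h1 h2 h3 h4 h5 =>
    exact ⟨X, h1, h2, h3, h4, fun Y a b c => (h5 Y a b c).trans fun M' B' hQ => (h' M' B' hQ).force⟩

end Pool.Agent.Helper22.PG
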