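import Pool.Agent.Helper22.PG.LocOf
import Pool.Agent.Helper22.PG.Mtp

/-! Local isoperimetry, localisation of minimal cuts and the diameter bound for transitive graphs
of polynomial growth. -/

namespace Pool.Agent.Helper22.PG

open Finset Filter Pool.Agent.Helper30.Perc

variable {V : Type} [DecidableEq V] {G : SimpleGraph V} [G.LocallyFinite] {d K C : ℕ} {v : ℕ → ℕ}

lemma geo_of (hP : PolyG G d K C v) : Geo G v := fun r Kx c hc X hX P hPr t ht =>
  geo hP r Kx c hc X hX P hPr t ht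

/-- local isoperimetry -/
theorem liso (hP : PolyG G d K C v) (W A : Finset V) (hA : A ⊆ W) (r : ℕ)
    (h : ∀ x ∈ A, 2 * (W ∩ bl G x r).card ≤ v r) :
    A.card ≤ 2 * (r + 1) *
      ∑ a ∈ W.filter (fun a => ∃ x ∈ A, G.dist x a ≤ r), (G.neighborFinset a \ W).card :=
  liso' hP (geo_of hP) W A hA r h

/-- localisation of minimal cuts -/
theorem loc (hP : PolyG G d K C v) : ∃ θ : ℝ, 0 < θ ∧
    ∀ (o : V) (M : Finset (Sym2 V)) (W : Finset V), (M : Set (Sym2 V)) ⊆ G.edgeSet →
      Adm o M W → (∀ W', Adm o M W' → cut G W ≤ cut G W') →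
      ∀ x ∈ W, ∃ r : ℕ, 1 ≤ r ∧ θ * v r ≤ ((insert o (vert M) ∩ bl G x r).card : ℝ) * r :=
  loc' hP (geo_of hP)

/-- a connected finite set has boundary at least proportional to its diameter -/
theorem diam (hP : PolyG G d K C v) : ∃ c : ℝ, 0 < c ∧
    ∀ (W : Finset V) (o x : V) (w : G.Walk o x), (∀ a ∈ w.support, a ∈ W) →
      c * G.dist o x ≤ cut G W :=
  diam' hP (geo_of hP)

end Pool.Agent.Helper22.PG
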