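import Pool.Agent.Helper22.PG.Basic

/-! Local isoperimetry, localisation of minimal cuts and the diameter bound for transitive graphs
of polynomial growth. -/

namespace Pool.Agent.Helper22.PG

open Finset Filter Pool.Agent.Helper30.Perc

variable {V : Type} [DecidableEq V] {G : SimpleGraph V} [G.LocallyFinite] {d K C : ℕ} {v : ℕ → ℕ}

lemma bl_monotone (G : SimpleGraph V) [G.LocallyFinite] (x : V) : Monotone (bl G x) :=
  monotone_nat_of_le_succ fun r => by
    rw [bl]
    exact subset_union_left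

lemma v_mono (hP : PolyG G d K C v) : Monotone v := by
  intro a b hab
  obtain ⟨x⟩ := hP.conn.nonempty
  rw [← hP.vol x a, ← hP.vol x b]
  exact card_le_card (bl_monotone G x hab)

lemma v_pos (hP : PolyG G d K C v) (r : ℕ) : 1 ≤ v r := by
  obtain ⟨x⟩ := hP.conn.nonempty
  rw [← hP.vol x r]
  exact card_pos.2 ⟨x, (mem_bl hP.conn x x r).2 (by simp)⟩

lemma K_pos (hP : PolyG G d K C v) : 1 ≤ K := by
  have h1 := hP.dbl 1 le_rfl
  have h2 := v_pos hP (2 * 1)
  rcases Nat.eq_zero_or_pos K with h | h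
  · subst h; omega
  · exact h

lemma C_pos (hP : PolyG G d K C v) : 1 ≤ C := by
  have h1 := hP.gr 0 1 le_rfl
  have h2 := v_pos hP 1
  rcases Nat.eq_zero_or_pos C with h | h
  · subst h; simp at h1; omega
  · exact h

lemma dblk (hP : PolyG G d K C v) (k r : ℕ) (hr : 1 ≤ r) : v (2 ^ k * r) ≤ K ^ k * v r := by
  induction k with
  | zero => simp
  | succ k ih =>
    have h1 := hP.dbl (2 ^ k * r) (Nat.one_le_iff_ne_zero.2 (by positivity))
    calc v (2 ^ (k + 1) * r) = v (2 * (2 ^ k * r)) := by congr 1; ring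
      _ ≤ K * v (2 ^ k * r) := h1
      _ ≤ K * (K ^ k * v r) := Nat.mul_le_mul_left _ ih
      _ = _ := by ring

/-- the boundary edges of `W` with inner endpoint in a ball -/
def bd (G : SimpleGraph V) [G.LocallyFinite] (W : Finset V) (x : V) (r : ℕ) : ℕ :=
  ∑ a ∈ W ∩ bl G x r, (G.neighborFinset a \ W).card

lemma bd_mono (G : SimpleGraph V) [G.LocallyFinite] (W : Finset V) (x : V) :
    Monotone (bd G W x) := by
  intro a b hab
  unfold bd
  exact sum_le_sum_of_subset (inter_subset_inter_left (bl_monotone G x hab))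

/-- the statement of `geo` (random geodesics) for a fixed graph -/
def Geo (G : SimpleGraph V) (v : ℕ → ℕ) : Prop :=
  ∀ (r : ℕ) (Kx : Finset ℕ) (c : V → ℝ), (∀ x, 0 ≤ c x) →
    ∀ (X : Finset V), (∀ x, x ∉ X → c x = 0) → ∀ (P : Finset (V × V)),
    (∀ z ∈ P, G.dist z.1 z.2 ≤ r) → ∀ (t : ℝ),
    (∀ z ∈ P, ∀ w : G.Walk z.1 z.2, w.length = G.dist z.1 z.2 →
      t ≤ ∑ k ∈ Kx, c (w.getVert k)) →
    (P.card : ℝ) * t ≤ Kx.card * v r * ∑ x ∈ X, c x

/-- local isoperimetry -/
theorem liso' (hP : PolyG G d K C v) (hg : Geo G v) (W A : Finset V) (hA : A ⊆ W) (r : ℕ)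
    (h : ∀ x ∈ A, 2 * (W ∩ bl G x r).card ≤ v r) :
    A.card ≤ 2 * (r + 1) *
      ∑ a ∈ W.filter (fun a => ∃ x ∈ A, G.dist x a ≤ r), (G.neighborFinset a \ W).card := by
  classical
  set X := W.filter (fun a => ∃ x ∈ A, G.dist x a ≤ r) with hXd
  set c : V → ℝ := fun a => if a ∈ X then ((G.neighborFinset a \ W).card : ℝ) else 0 with hcd
  set P : Finset (V × V) := A.biUnion fun x => (bl G x r \ W).image fun z => (x, z) with hPd
  have hPmem : ∀ z, z ∈ P ↔ z.1 ∈ A ∧ G.dist z.1 z.2 ≤ r ∧ z.2 ∉ W := by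
    rintro ⟨x, z⟩
    simp only [hPd, mem_biUnion, mem_image, Finset.mem_sdiff, mem_bl hP.conn, Prod.mk.injEq]
    constructor
    · rintro ⟨a, ha, b, ⟨h1, h2⟩, rfl, rfl⟩
      exact ⟨ha, h1, h2⟩
    · rintro ⟨h1, h2, h3⟩
      exact ⟨x, h1, z, ⟨h2, h3⟩, rfl, rfl⟩
  have hPcard : P.card = ∑ x ∈ A, (bl G x r \ W).card := by
    rw [hPd, card_biUnion]
    · refine sum_congr rfl fun x _ => ?_
      rw [card_image_of_injective]
      intro a b hab
      simpa using hab
    · intro a _ b _ hab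
      rw [Function.onFun, Finset.disjoint_left]
      intro e he he'
      simp only [mem_image] at he he'
      obtain ⟨u, -, rfl⟩ := he
      obtain ⟨u', -, h⟩ := he'
      simp only [Prod.mk.injEq] at h
      exact hab h.1.symm
  have hcount : A.card * v r ≤ 2 * P.card := by
    rw [hPcard, mul_sum, ← smul_eq_mul, ← sum_const]
    refine sum_le_sum fun x hx => ?_
    have h1 := h x hx
    have h2 := hP.vol x r
    have h3 := card_sdiff_add_card_inter (bl G x r) W
    rw [inter_comm] at h3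
    omega
  replace hg := hg r (range (r + 1)) c ?_ X ?_ P ?_ 1 ?_
  · have h1 : (A.card : ℝ) * v r ≤ 2 * P.card := by exact_mod_cast hcount
    have h2 : (0 : ℝ) < v r := by exact_mod_cast v_pos hP r
    have h3 : ∑ x ∈ X, c x = ((∑ a ∈ X, (G.neighborFinset a \ W).card : ℕ) : ℝ) := by
      push_cast
      refine sum_congr rfl fun a ha => ?_
      simp only [hcd, if_pos ha]
    rw [h3, card_range] at hg
    have h4 : (A.card : ℝ) * v r ≤ (2 * (r + 1) *
        ((∑ a ∈ X, (G.neighborFinset a \ W).card : ℕ) : ℝ)) * v r := by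
      calc (A.card : ℝ) * v r ≤ 2 * P.card := h1
        _ = 2 * (P.card * 1) := by ring
        _ ≤ 2 * (((r + 1 : ℕ) : ℝ) * v r *
            ((∑ a ∈ X, (G.neighborFinset a \ W).card : ℕ) : ℝ)) := by linarith
        _ = _ := by push_cast; ring
    have h5 := le_of_mul_le_mul_right h4 h2
    exact_mod_cast h5
  · intro x
    simp only [hcd]
    split_ifs <;> positivity
  · intro x hx
    simp only [hcd, if_neg hx]
  · intro z hz
    exact ((hPmem z).1 hz).2.1
  · intro z hz w hw
    obtain ⟨hz1, hz2, hz3⟩ := (hPmem z).1 hz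
    -- the last vertex in `W`
    have hex : ∃ k, k < w.length ∧ w.getVert k ∈ W ∧ w.getVert (k + 1) ∉ W := by
      by_contra hcon
      push Not at hcon
      have hall : ∀ k, k ≤ w.length → w.getVert k ∈ W := by
        intro k
        induction k with
        | zero => intro _; simpa using hA hz1
        | succ k ih => intro hk; exact hcon k (by omega) (ih (by omega))
      have := hall w.length le_rfl
      rw [SimpleGraph.Walk.getVert_length] at this
      exact hz3 this
    obtain ⟨k, hk1, hk2, hk3⟩ := hex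
    have hkr : k < r + 1 := by omega
    have hdist : G.dist z.1 (w.getVert k) ≤ r := by
      have := SimpleGraph.dist_le (w.take k)
      rw [SimpleGraph.Walk.take_length] at this
      omega
    have hX : w.getVert k ∈ X := by
      rw [hXd, mem_filter]
      exact ⟨hk2, z.1, hz1, hdist⟩
    have hc1 : 1 ≤ c (w.getVert k) := by
      simp only [hcd, if_pos hX]
      have : 0 < (G.neighborFinset (w.getVert k) \ W).card :=
        card_pos.2 ⟨w.getVert (k + 1), by
          rw [Finset.mem_sdiff, SimpleGraph.mem_neighborFinset]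
          exact ⟨w.adj_getVert_succ hk1, hk3⟩⟩
      exact_mod_cast this
    refine hc1.trans ?_
    refine single_le_sum (f := fun k => c (w.getVert k)) (fun i _ => ?_) (mem_range.2 hkr)
    simp only [hcd]
    split_ifs <;> positivity

/-- comparison of a minimal cut with the cut obtained by removing a ball -/
lemma star (hP : PolyG G d K C v) (o : V) (M : Finset (Sym2 V)) (W : Finset V)
    (hadm : Adm o M W) (hmin : ∀ W', Adm o M W' → cut G W ≤ cut G W') (x : V) (r : ℕ) :
    bd G W x r + d * (W ∩ bl G x r).card ≤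
      d * (W ∩ bl G x (r + 1)).card + 2 * d * (insert o (vert M) ∩ bl G x r).card := by
  set V0 := insert o (vert M) with hV0
  set W' : Finset V := (W \ bl G x r) ∪ (W ∩ V0) with hW'
  have hW'W : W' ⊆ W := by
    intro a ha
    rw [hW', mem_union, Finset.mem_sdiff, mem_inter] at ha
    tauto
  have hadm' : Adm o M W' := by
    constructor
    · rw [hW', mem_union, mem_inter]
      exact Or.inr ⟨hadm.1, mem_insert_self _ _⟩
    · intro a b hab ha
      rw [hW', mem_union, mem_inter]
      refine Or.inr ⟨hadm.2 a b hab (hW'W ha), ?_⟩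
      rw [hV0, mem_insert, mem_vert]
      exact Or.inr ⟨_, hab, by simp⟩
  have hcut := hmin W' hadm'
  have h1 : cut G W = ∑ a ∈ W', (G.neighborFinset a \ W).card +
      ∑ a ∈ W \ W', (G.neighborFinset a \ W).card := by
    unfold cut
    rw [add_comm, sum_sdiff hW'W]
  have h2 : cut G W' ≤ ∑ a ∈ W', (G.neighborFinset a \ W).card +
      ∑ a ∈ W', (G.neighborFinset a ∩ (W \ W')).card := by
    unfold cut
    rw [← sum_add_distrib]
    refine sum_le_sum fun a _ => ?_
    refine (card_le_card ?_).trans (card_union_le _ _)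
    intro b hb
    rw [Finset.mem_sdiff] at hb
    rw [mem_union, Finset.mem_sdiff, mem_inter, Finset.mem_sdiff]
    tauto
  have h3 : ∑ a ∈ W', (G.neighborFinset a ∩ (W \ W')).card ≤
      d * ((W ∩ bl G x (r + 1)) \ (W ∩ bl G x r)).card + d * (V0 ∩ bl G x r).card := by
    calc ∑ a ∈ W', (G.neighborFinset a ∩ (W \ W')).card
        ≤ ∑ a ∈ ((W ∩ bl G x (r + 1)) \ (W ∩ bl G x r)) ∪ (V0 ∩ bl G x r),
            (G.neighborFinset a ∩ (W \ W')).card := by
          rw [← sum_filter_add_sum_filter_not W'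
            (fun a => a ∈ ((W ∩ bl G x (r + 1)) \ (W ∩ bl G x r)) ∪ (V0 ∩ bl G x r))]
          have hz : ∑ a ∈ W'.filter (fun a =>
              ¬ a ∈ ((W ∩ bl G x (r + 1)) \ (W ∩ bl G x r)) ∪ (V0 ∩ bl G x r)),
              (G.neighborFinset a ∩ (W \ W')).card = 0 := by
            refine sum_eq_zero fun a ha => ?_
            rw [mem_filter] at ha
            obtain ⟨ha1, ha2⟩ := ha
            rw [card_eq_zero, eq_empty_iff_forall_notMem]
            intro b hb
            rw [mem_inter, SimpleGraph.mem_neighborFinset, Finset.mem_sdiff] at hb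
            obtain ⟨hb1, hb2, hb3⟩ := hb
            apply ha2
            have hbx : b ∈ bl G x r := by
              by_contra hcon
              apply hb3
              rw [hW', mem_union, Finset.mem_sdiff]
              exact Or.inl ⟨hb2, hcon⟩
            have hax : a ∈ bl G x (r + 1) := by
              rw [bl, mem_union, mem_biUnion]
              exact Or.inr ⟨b, hbx, by rw [SimpleGraph.mem_neighborFinset]; exact hb1.symm⟩
            have haW := hW'W ha1
            rw [mem_union, Finset.mem_sdiff, mem_inter, mem_inter, mem_inter]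
            by_cases hax' : a ∈ bl G x r
            · right
              rw [hW', mem_union, Finset.mem_sdiff, mem_inter] at ha1
              tauto
            · left
              tauto
          rw [hz, add_zero]
          refine sum_le_sum_of_subset ?_
          intro a ha
          rw [mem_filter] at ha
          exact ha.2
      _ ≤ ∑ a ∈ ((W ∩ bl G x (r + 1)) \ (W ∩ bl G x r)) ∪ (V0 ∩ bl G x r), d :=
          sum_le_sum fun a _ => (card_le_card inter_subset_left).trans (hP.deg a)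
      _ ≤ _ := by
          rw [sum_const, smul_eq_mul]
          have := card_union_le ((W ∩ bl G x (r + 1)) \ (W ∩ bl G x r)) (V0 ∩ bl G x r)
          calc _ ≤ (((W ∩ bl G x (r + 1)) \ (W ∩ bl G x r)).card + (V0 ∩ bl G x r).card) * d :=
                Nat.mul_le_mul_right _ this
            _ = _ := by ring
  have h4 : ((W ∩ bl G x (r + 1)) \ (W ∩ bl G x r)).card + (W ∩ bl G x r).card =
      (W ∩ bl G x (r + 1)).card :=
    card_sdiff_add_card_eq_card (inter_subset_inter_left (bl_monotone G x (Nat.le_succ r)))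
  have h5 : bd G W x r ≤ ∑ a ∈ W \ W', (G.neighborFinset a \ W).card +
      d * (V0 ∩ bl G x r).card := by
    unfold bd
    calc ∑ a ∈ W ∩ bl G x r, (G.neighborFinset a \ W).card
        ≤ ∑ a ∈ (W \ W') ∪ (V0 ∩ bl G x r), (G.neighborFinset a \ W).card := by
          refine sum_le_sum_of_subset ?_
          intro a ha
          rw [mem_inter] at ha
          rw [mem_union, Finset.mem_sdiff, mem_inter, hW', mem_union, Finset.mem_sdiff, mem_inter]
          tauto
      _ ≤ ∑ a ∈ W \ W', (G.neighborFinset a \ W).card +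
          ∑ a ∈ V0 ∩ bl G x r, (G.neighborFinset a \ W).card := by
          rw [← sum_union_inter]
          exact Nat.le_add_right _ _
      _ ≤ _ := by
          refine Nat.add_le_add_left ?_ _
          calc ∑ a ∈ V0 ∩ bl G x r, (G.neighborFinset a \ W).card
              ≤ ∑ a ∈ V0 ∩ bl G x r, d :=
                sum_le_sum fun a _ => (card_le_card sdiff_subset).trans (hP.deg a)
            _ = _ := by rw [sum_const, smul_eq_mul, mul_comm]
  rw [← h4, mul_add]
  have h6 : 2 * d * (V0 ∩ bl G x r).card = d * (V0 ∩ bl G x r).card +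
    d * (V0 ∩ bl G x r).card := by ring
  omega

/-- localisation of minimal cuts -/
theorem loc' (hP : PolyG G d K C v) (hg : Geo G v) : ∃ θ : ℝ, 0 < θ ∧
    ∀ (o : V) (M : Finset (Sym2 V)) (W : Finset V), (M : Set (Sym2 V)) ⊆ G.edgeSet →
      Adm o M W → (∀ W', Adm o M W' → cut G W ≤ cut G W') →
      ∀ x ∈ W, ∃ r : ℕ, 1 ≤ r ∧ θ * v r ≤ ((insert o (vert M) ∩ bl G x r).card : ℝ) * r := by
  set q0 : ℕ := 6 * (d + 1) * K ^ 3 with hq0
  set Q : ℕ := 2 ^ q0 with hQ
  have hQ1 : 6 * (d + 1) * K ^ 3 ≤ Q := by rw [hQ, hq0]; exact Nat.lt_two_pow_self.le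
  have hQpos : 1 ≤ Q := Nat.one_le_two_pow
  have hK := K_pos hP
  have hC := C_pos hP
  have hvQ := v_pos hP Q
  have hKpos : (0 : ℝ) < K ^ (3 + q0) := by
    have : (0 : ℝ) < K := by exact_mod_cast hK
    positivity
  have hvQ' : (0 : ℝ) < v Q := by exact_mod_cast hvQ
  set η : ℝ := 1 / (2 * K ^ (3 + q0) * v Q) with hη
  have hηpos : 0 < η := by rw [hη]; positivity
  have hη1 : η * K ^ (3 + q0) ≤ 1 / 2 := by
    rw [hη, div_mul_eq_mul_div, div_le_div_iff₀ (by positivity) (by norm_num)]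
    have : (1 : ℝ) ≤ v Q := by exact_mod_cast hvQ
    nlinarith
  have hη2 : η * v Q ≤ 1 := by
    rw [hη, div_mul_eq_mul_div, div_le_one (by positivity)]
    have : (1 : ℝ) ≤ K ^ (3 + q0) := one_le_pow₀ (by exact_mod_cast hK)
    nlinarith
  refine ⟨η, hηpos, ?_⟩
  intro o M W _ hadm hmin x hx
  by_contra hcon
  push Not at hcon
  set a : ℕ → ℕ := fun r => (W ∩ bl G x r).card with ha
  have hamono : Monotone a := by
    intro r s hrs
    exact card_le_card (inter_subset_inter_left (bl_monotone G x hrs))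
  have claim : ∀ j : ℕ, η * v (8 ^ j * Q) ≤ a (8 ^ j * Q) := by
    intro j
    induction j with
    | zero =>
      rw [pow_zero, one_mul]
      refine hη2.trans ?_
      have : 0 < a Q := card_pos.2 ⟨x, by
        rw [mem_inter, mem_bl hP.conn]
        exact ⟨hx, by simp⟩⟩
      exact_mod_cast this
    | succ j ih =>
      by_contra hlt
      push Not at hlt
      set ρ : ℕ := 8 ^ j * Q with hρ
      have hρ8 : 8 ^ (j + 1) * Q = 8 * ρ := by rw [hρ]; ring
      rw [hρ8] at hlt
      have h8j : 1 ≤ 8 ^ j := Nat.one_le_pow _ _ (by norm_num)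
      have h8ρ : 8 ^ j ≤ ρ := by
        rw [hρ]
        exact Nat.le_mul_of_pos_right _ hQpos
      have hρpos : 1 ≤ ρ := h8j.trans h8ρ
      have hvol8 : (v (8 * ρ) : ℝ) ≤ K ^ (3 + q0) * v (8 ^ j) := by
        have h1 := dblk hP (3 + q0) (8 ^ j) h8j
        have h2 : 2 ^ (3 + q0) * 8 ^ j = 8 * ρ := by rw [hρ, hQ]; ring
        rw [h2] at h1
        exact_mod_cast h1
      have hv8pos : (0 : ℝ) < v (8 ^ j) := by exact_mod_cast v_pos hP _
      have hl := liso' hP hg W (W ∩ bl G x ρ) inter_subset_left (8 ^ j) (by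
        intro y hy
        rw [mem_inter, mem_bl hP.conn] at hy
        have h1 : (W ∩ bl G y (8 ^ j)).card ≤ a (8 * ρ) := by
          refine card_le_card (inter_subset_inter_left ?_)
          intro z hz
          rw [mem_bl hP.conn] at hz ⊢
          have := hP.conn.dist_triangle (u := x) (v := y) (w := z)
          omega
        have h2 : (2 : ℝ) * (W ∩ bl G y (8 ^ j)).card ≤ v (8 ^ j) := by
          calc (2 : ℝ) * (W ∩ bl G y (8 ^ j)).card ≤ 2 * a (8 * ρ) := by
                have : ((W ∩ bl G y (8 ^ j)).card : ℝ) ≤ a (8 * ρ) := by exact_mod_cast h1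
                linarith
            _ ≤ 2 * (η * v (8 * ρ)) := by linarith
            _ ≤ 2 * (η * (K ^ (3 + q0) * v (8 ^ j))) := by
                have := mul_le_mul_of_nonneg_left hvol8 hηpos.le
                linarith
            _ = 2 * (η * K ^ (3 + q0)) * v (8 ^ j) := by ring
            _ ≤ 1 * v (8 ^ j) := mul_le_mul_of_nonneg_right (by linarith) hv8pos.le
            _ = _ := one_mul _
        exact_mod_cast h2)
      have hbd2 : ∑ b ∈ W.filter (fun b => ∃ y ∈ W ∩ bl G x ρ, G.dist y b ≤ 8 ^ j),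
          (G.neighborFinset b \ W).card ≤ bd G W x (2 * ρ) := by
        unfold bd
        refine sum_le_sum_of_subset ?_
        intro b hb
        rw [mem_filter] at hb
        obtain ⟨hb1, y, hy, hyb⟩ := hb
        rw [mem_inter, mem_bl hP.conn] at hy ⊢
        refine ⟨hb1, ?_⟩
        have := hP.conn.dist_triangle (u := x) (v := y) (w := b)
        omega
      have hl2 : a ρ ≤ 4 * 8 ^ j * bd G W x (2 * ρ) := by
        refine hl.trans ?_
        refine Nat.mul_le_mul ?_ hbd2
        omega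
      -- sum of (star) over `r` in `[2ρ, 4ρ)`
      have hsum : ∑ r ∈ Ico (2 * ρ) (4 * ρ), (bd G W x r + d * a r) ≤
          ∑ r ∈ Ico (2 * ρ) (4 * ρ), (d * a (r + 1) + 2 * d *
            (insert o (vert M) ∩ bl G x r).card) :=
        sum_le_sum fun r _ => star hP o M W hadm hmin x r
      have htel : ∑ r ∈ Ico (2 * ρ) (4 * ρ), (a (r + 1) : ℝ) -
          ∑ r ∈ Ico (2 * ρ) (4 * ρ), (a r : ℝ) = a (4 * ρ) - a (2 * ρ) := by
        rw [← sum_sub_distrib]
        exact sum_Ico_sub (fun r => (a r : ℝ)) (by omega)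
      have hV : ∀ r ∈ Ico (2 * ρ) (4 * ρ),
          ((insert o (vert M) ∩ bl G x r).card : ℝ) * (2 * ρ) ≤ η * v (4 * ρ) := by
        intro r hr
        rw [mem_Ico] at hr
        have h1 := (hcon r (by omega)).le
        have h2 : (v r : ℝ) ≤ v (4 * ρ) := by exact_mod_cast v_mono hP (by omega : r ≤ 4 * ρ)
        have h3 : ((2 * ρ : ℕ) : ℝ) ≤ r := by exact_mod_cast hr.1
        push_cast at h3
        calc ((insert o (vert M) ∩ bl G x r).card : ℝ) * (2 * ρ)
            ≤ ((insert o (vert M) ∩ bl G x r).card : ℝ) * r :=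
              mul_le_mul_of_nonneg_left h3 (by positivity)
          _ ≤ η * v r := h1
          _ ≤ η * v (4 * ρ) := mul_le_mul_of_nonneg_left h2 hηpos.le
      have hcardIco : (Ico (2 * ρ) (4 * ρ)).card = 2 * ρ := by rw [Nat.card_Ico]; omega
      have hρR : (0 : ℝ) < 2 * ρ := by
        have : (0 : ℝ) < ρ := by exact_mod_cast hρpos
        linarith
      have hVsum : ∑ r ∈ Ico (2 * ρ) (4 * ρ), ((insert o (vert M) ∩ bl G x r).card : ℝ) ≤
          η * v (4 * ρ) := by
        have h1 : ∑ r ∈ Ico (2 * ρ) (4 * ρ), ((insert o (vert M) ∩ bl G x r).card : ℝ) ≤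
            ∑ r ∈ Ico (2 * ρ) (4 * ρ), η * v (4 * ρ) / (2 * ρ) :=
          sum_le_sum fun r hr => by
            rw [le_div_iff₀ hρR]
            exact hV r hr
        refine h1.trans ?_
        rw [sum_const, hcardIco, nsmul_eq_mul]
        push_cast
        rw [mul_div_cancel₀ _ hρR.ne']
      have hbdsum : (2 * ρ : ℝ) * bd G W x (2 * ρ) ≤
          ∑ r ∈ Ico (2 * ρ) (4 * ρ), (bd G W x r : ℝ) := by
        have h1 : ∑ r ∈ Ico (2 * ρ) (4 * ρ), (bd G W x (2 * ρ) : ℝ) ≤
            ∑ r ∈ Ico (2 * ρ) (4 * ρ), (bd G W x r : ℝ) :=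
          sum_le_sum fun r hr => by
            rw [mem_Ico] at hr
            exact_mod_cast bd_mono G W x hr.1
        rw [sum_const, hcardIco, nsmul_eq_mul] at h1
        push_cast at h1
        exact h1
      have hsumR : ∑ r ∈ Ico (2 * ρ) (4 * ρ), (bd G W x r : ℝ) +
          d * ∑ r ∈ Ico (2 * ρ) (4 * ρ), (a r : ℝ) ≤
          d * ∑ r ∈ Ico (2 * ρ) (4 * ρ), (a (r + 1) : ℝ) +
          2 * d * ∑ r ∈ Ico (2 * ρ) (4 * ρ), ((insert o (vert M) ∩ bl G x r).card : ℝ) := by
        have h1 : ((∑ r ∈ Ico (2 * ρ) (4 * ρ), (bd G W x r + d * a r) : ℕ) : ℝ) ≤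
          ((∑ r ∈ Ico (2 * ρ) (4 * ρ), (d * a (r + 1) + 2 * d *
            (insert o (vert M) ∩ bl G x r).card) : ℕ) : ℝ) := by exact_mod_cast hsum
        push_cast at h1
        rw [sum_add_distrib, sum_add_distrib, ← mul_sum, ← mul_sum, ← mul_sum] at h1
        exact h1
      have hdR : (0 : ℝ) ≤ d := by positivity
      have key1 : (2 * ρ : ℝ) * bd G W x (2 * ρ) ≤ (d + 1) * (a (8 * ρ) + 2 * (η * v (8 * ρ))) := by
        have e1 : (a (4 * ρ) : ℝ) ≤ a (8 * ρ) := by
          exact_mod_cast hamono (by omega : 4 * ρ ≤ 8 * ρ)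
        have e2 : (v (4 * ρ) : ℝ) ≤ v (8 * ρ) := by
          exact_mod_cast v_mono hP (by omega : 4 * ρ ≤ 8 * ρ)
        have e3 : (0 : ℝ) ≤ a (2 * ρ) := by positivity
        have e4 : (d : ℝ) * (∑ r ∈ Ico (2 * ρ) (4 * ρ), (a (r + 1) : ℝ) -
          ∑ r ∈ Ico (2 * ρ) (4 * ρ), (a r : ℝ)) = d * (a (4 * ρ) - a (2 * ρ)) := by rw [htel]
        have e5 : (2 * d : ℝ) * ∑ r ∈ Ico (2 * ρ) (4 * ρ),
            ((insert o (vert M) ∩ bl G x r).card : ℝ) ≤ 2 * d * (η * v (4 * ρ)) :=
          mul_le_mul_of_nonneg_left hVsum (by positivity)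
        have e6 : (0 : ℝ) ≤ a (8 * ρ) := by positivity
        have e7 : (0 : ℝ) ≤ η * v (8 * ρ) := by positivity
        have e8 : η * v (4 * ρ) ≤ η * v (8 * ρ) := mul_le_mul_of_nonneg_left e2 hηpos.le
        have e9 : (d : ℝ) * (a (4 * ρ) - a (2 * ρ)) ≤ d * a (8 * ρ) := by
          apply mul_le_mul_of_nonneg_left _ hdR
          linarith
        have e10 : (2 * d : ℝ) * (η * v (4 * ρ)) ≤ 2 * d * (η * v (8 * ρ)) :=
          mul_le_mul_of_nonneg_left e8 (by positivity)
        rw [mul_sub] at e4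
        nlinarith
      have key2 : (Q : ℝ) / 2 * a ρ ≤ (2 * ρ : ℝ) * bd G W x (2 * ρ) := by
        have h1 : (a ρ : ℝ) ≤ 4 * 8 ^ j * bd G W x (2 * ρ) := by exact_mod_cast hl2
        have h2 : (ρ : ℝ) = 8 ^ j * Q := by rw [hρ]; push_cast; ring
        have h3 : (0 : ℝ) < Q := by exact_mod_cast hQpos
        calc (Q : ℝ) / 2 * a ρ ≤ (Q : ℝ) / 2 * (4 * 8 ^ j * bd G W x (2 * ρ)) :=
              mul_le_mul_of_nonneg_left h1 (by positivity)
          _ = (2 * ρ : ℝ) * bd G W x (2 * ρ) := by rw [h2]; ring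
      have key3 : 3 * (d + 1) * (η * v (8 * ρ)) ≤ (Q : ℝ) / 2 * a ρ := by
        have h1 : (v (8 * ρ) : ℝ) ≤ K ^ 3 * v ρ := by
          have := dblk hP 3 ρ hρpos
          norm_num at this
          exact_mod_cast this
        have h2 : (6 * (d + 1) * K ^ 3 : ℝ) ≤ Q := by exact_mod_cast hQ1
        have h3 : (0 : ℝ) ≤ v ρ := by positivity
        calc 3 * (d + 1) * (η * v (8 * ρ)) ≤ 3 * (d + 1) * (η * (K ^ 3 * v ρ)) := by
              refine mul_le_mul_of_nonneg_left ?_ (by positivity)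
              exact mul_le_mul_of_nonneg_left h1 hηpos.le
          _ = (6 * (d + 1) * K ^ 3) / 2 * (η * v ρ) := by ring
          _ ≤ (Q : ℝ) / 2 * (η * v ρ) := by
              refine mul_le_mul_of_nonneg_right ?_ (by positivity)
              linarith
          _ ≤ (Q : ℝ) / 2 * a ρ := by
              refine mul_le_mul_of_nonneg_left ih ?_
              have : (0 : ℝ) < Q := by exact_mod_cast hQpos
              linarith
      have hd1 : (0 : ℝ) < d + 1 := by positivity
      have : 3 * (d + 1) * (η * v (8 * ρ)) ≤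
          (d + 1 : ℝ) * (a (8 * ρ) + 2 * (η * v (8 * ρ))) := key3.trans (key2.trans key1)
      have h9 : (d + 1 : ℝ) * a (8 * ρ) < (d + 1) * (η * v (8 * ρ)) :=
        mul_lt_mul_of_pos_left hlt hd1
      nlinarith
  -- the final contradiction
  obtain ⟨n, hn⟩ := exists_nat_gt ((C : ℝ) * W.card / η)
  have h1 := claim n
  have h2 : a (8 ^ n * Q) ≤ W.card := card_le_card inter_subset_left
  have h3 := hP.gr (3 * n + q0) 1 le_rfl
  have h4 : 2 ^ (3 * n + q0) * 1 = 8 ^ n * Q := by
    rw [hQ, mul_one, pow_add, pow_mul]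
    norm_num
  rw [h4] at h3
  have h5 : n ≤ 8 ^ (3 * n + q0) * v 1 := by
    have e1 : n ≤ 3 * n + q0 := by omega
    have e2 : 3 * n + q0 ≤ 8 ^ (3 * n + q0) := (Nat.lt_pow_self (by norm_num)).le
    exact (e1.trans e2).trans (Nat.le_mul_of_pos_right _ (v_pos hP 1))
  have h6 : (n : ℝ) ≤ C * v (8 ^ n * Q) := by exact_mod_cast h5.trans h3
  have h7 : (C : ℝ) * W.card < η * n := by
    rw [div_lt_iff₀ hηpos] at hn
    linarith
  have h8 : (a (8 ^ n * Q) : ℝ) ≤ W.card := by exact_mod_cast h2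
  have hCpos : (0 : ℝ) < C := by exact_mod_cast hC
  have h9 : η * n ≤ C * W.card := by
    calc η * n ≤ η * (C * v (8 ^ n * Q)) := mul_le_mul_of_nonneg_left h6 hηpos.le
      _ = C * (η * v (8 ^ n * Q)) := by ring
      _ ≤ C * W.card := mul_le_mul_of_nonneg_left (h1.trans h8) hCpos.le
  linarith

/-- a critical scale around a vertex of a finite set -/
lemma exists_scale (hP : PolyG G d K C v) (W : Finset V) (y : V) (hy : y ∈ W) :
    ∃ k : ℕ, v (2 ^ k) ≤ 2 * K * v 1 * (W ∩ bl G y (2 ^ k)).card ∧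
      2 * K * v 1 * (W ∩ bl G y (2 * 2 ^ k)).card < v (2 * 2 ^ k) := by
  classical
  have hex : ∃ k : ℕ, 2 * K * v 1 * (W ∩ bl G y (2 ^ k)).card < v (2 ^ k) := by
    set n := C * (2 * K * v 1 * W.card) + 1 with hn
    refine ⟨n, ?_⟩
    by_contra hcon
    push Not at hcon
    have h1 := hP.gr n 1 le_rfl
    rw [mul_one] at h1
    have h2 : n < 8 ^ n * v 1 :=
      (Nat.lt_pow_self (by norm_num)).trans_le (Nat.le_mul_of_pos_right _ (v_pos hP 1))
    have h3 : 2 * K * v 1 * (W ∩ bl G y (2 ^ n)).card ≤ 2 * K * v 1 * W.card :=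
      Nat.mul_le_mul_left _ (card_le_card inter_subset_left)
    have h4 : C * v (2 ^ n) ≤ C * (2 * K * v 1 * W.card) :=
      Nat.mul_le_mul_left _ (hcon.trans h3)
    omega
  obtain ⟨k, hk⟩ : ∃ k, Nat.find hex = k := ⟨_, rfl⟩
  have hk0 : k ≠ 0 := by
    rintro rfl
    have h := Nat.find_spec hex
    rw [hk, pow_zero] at h
    have h1 : 1 ≤ (W ∩ bl G y 1).card := card_pos.2 ⟨y, by
      rw [mem_inter, mem_bl hP.conn]
      exact ⟨hy, by simp⟩⟩
    have h2 := K_pos hP
    have h3 : 1 * v 1 * 1 ≤ 2 * K * v 1 * (W ∩ bl G y 1).card :=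
      Nat.mul_le_mul (Nat.mul_le_mul (by omega) le_rfl) h1
    omega
  obtain ⟨k, rfl⟩ := Nat.exists_eq_succ_of_ne_zero hk0
  refine ⟨k, ?_, ?_⟩
  · have := Nat.find_min hex (m := k) (by omega)
    omega
  · have h := Nat.find_spec hex
    rw [hk] at h
    have e : 2 ^ (k + 1) = 2 * 2 ^ k := by ring
    rwa [Nat.succ_eq_add_one, e] at h

/-- boundary at the critical scale -/
lemma scale_bd (hP : PolyG G d K C v) (hg : Geo G v) (W : Finset V) (y : V) (k : ℕ)
    (h1 : v (2 ^ k) ≤ 2 * K * v 1 * (W ∩ bl G y (2 ^ k)).card)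
    (h2 : 2 * K * v 1 * (W ∩ bl G y (2 * 2 ^ k)).card < v (2 * 2 ^ k)) :
    2 ^ k ≤ 8 * K * v 1 * C * bd G W y (2 * 2 ^ k) := by
  set ρ := 2 ^ k with hρ
  have hρ1 : 1 ≤ ρ := Nat.one_le_two_pow
  have hK := K_pos hP
  have hv1 := v_pos hP 1
  have hl := liso' hP hg W (W ∩ bl G y ρ) inter_subset_left ρ (by
    intro z hz
    rw [mem_inter, mem_bl hP.conn] at hz
    have e1 : (W ∩ bl G z ρ).card ≤ (W ∩ bl G y (2 * ρ)).card := by
      refine card_le_card (inter_subset_inter_left ?_)
      intro u hu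
      rw [mem_bl hP.conn] at hu ⊢
      have := hP.conn.dist_triangle (u := y) (v := z) (w := u)
      omega
    have e2 := hP.dbl ρ hρ1
    have e3 : K * (2 * (W ∩ bl G z ρ).card) ≤ K * v ρ := by
      calc K * (2 * (W ∩ bl G z ρ).card) ≤ K * (2 * (W ∩ bl G y (2 * ρ)).card) :=
            Nat.mul_le_mul_left _ (Nat.mul_le_mul_left _ e1)
        _ = 2 * K * 1 * (W ∩ bl G y (2 * ρ)).card := by ring
        _ ≤ 2 * K * v 1 * (W ∩ bl G y (2 * ρ)).card :=
            Nat.mul_le_mul_right _ (Nat.mul_le_mul_left _ hv1)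
        _ ≤ K * v ρ := h2.le.trans e2
    exact Nat.le_of_mul_le_mul_left e3 hK)
  have hbd2 : ∑ b ∈ W.filter (fun b => ∃ z ∈ W ∩ bl G y ρ, G.dist z b ≤ ρ),
      (G.neighborFinset b \ W).card ≤ bd G W y (2 * ρ) := by
    unfold bd
    refine sum_le_sum_of_subset ?_
    intro b hb
    rw [mem_filter] at hb
    obtain ⟨hb1, z, hz, hzb⟩ := hb
    rw [mem_inter, mem_bl hP.conn] at hz ⊢
    refine ⟨hb1, ?_⟩
    have := hP.conn.dist_triangle (u := y) (v := z) (w := b)
    omega
  have e4 : (W ∩ bl G y ρ).card ≤ 4 * ρ * bd G W y (2 * ρ) := by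
    refine hl.trans (Nat.mul_le_mul ?_ hbd2)
    omega
  have e5 := hP.gr k 1 le_rfl
  rw [mul_one, ← hρ] at e5
  have e6 : (8 : ℕ) ^ k = ρ * ρ * ρ := by
    rw [hρ, ← mul_pow, ← mul_pow]; norm_num
  rw [e6] at e5
  have e7 : ρ * ρ * ρ ≤ C * v ρ := (Nat.le_mul_of_pos_right _ hv1).trans e5
  have e8 : ρ * ρ * ρ ≤ ρ * (8 * K * v 1 * C * bd G W y (2 * ρ)) := by
    calc ρ * ρ * ρ ≤ C * v ρ := e7
      _ ≤ C * (2 * K * v 1 * (4 * ρ * bd G W y (2 * ρ))) :=
          Nat.mul_le_mul_left _ (h1.trans (Nat.mul_le_mul_left _ e4))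
      _ = _ := by ring
  have e9 : ρ * ρ ≤ 8 * K * v 1 * C * bd G W y (2 * ρ) := by
    refine Nat.le_of_mul_le_mul_left ?_ hρ1
    calc ρ * (ρ * ρ) = ρ * ρ * ρ := by ring
      _ ≤ _ := e8
  exact (Nat.le_mul_of_pos_right _ hρ1).trans e9

/-- a connected finite set has boundary at least proportional to its diameter -/
theorem diam' (hP : PolyG G d K C v) (hg : Geo G v) : ∃ c : ℝ, 0 < c ∧
    ∀ (W : Finset V) (o x : V) (w : G.Walk o x), (∀ a ∈ w.support, a ∈ W) →
      c * G.dist o x ≤ cut G W := by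
  classical
  have hK := K_pos hP
  have hv1 := v_pos hP 1
  have hC := C_pos hP
  set L : ℕ := 8 * K * v 1 * C with hL
  have hLpos : 1 ≤ L := by
    rw [hL]
    exact Nat.one_le_iff_ne_zero.2 (by positivity)
  refine ⟨1 / (13 * L), ?_, ?_⟩
  · have : (0 : ℝ) < L := by exact_mod_cast hLpos
    positivity
  intro W o x w hw
  have hsc : ∀ y : V, ∃ k : ℕ, y ∈ w.support → (2 ^ k ≤ L * bd G W y (2 * 2 ^ k)) := by
    intro y
    by_cases hy : y ∈ w.support
    · obtain ⟨k, h1, h2⟩ := exists_scale hP W y (hw y hy)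
      exact ⟨k, fun _ => scale_bd hP hg W y k h1 h2⟩
    · exact ⟨0, fun h => absurd h hy⟩
  choose k hk using hsc
  set ρ : V → ℕ := fun y => 2 ^ k y with hρ
  have hρ1 : ∀ y, 1 ≤ ρ y := fun y => Nat.one_le_two_pow
  obtain ⟨u, hut, hudisj, hucov⟩ := Vitali.exists_disjoint_subfamily_covering_enlargement
    (fun y : V => ((bl G y (2 * ρ y) : Finset V) : Set V)) {y : V | y ∈ w.support}
    (fun y => (ρ y : ℝ)) 2 (by norm_num) (fun a _ => by positivity)
    ((∑ y ∈ w.support.toFinset, ρ y : ℕ) : ℝ)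
    (fun a ha => by
      have : ρ a ≤ ∑ y ∈ w.support.toFinset, ρ y :=
        single_le_sum (f := ρ) (fun _ _ => Nat.zero_le _) (List.mem_toFinset.2 ha)
      exact_mod_cast this)
    (fun a _ => ⟨a, by
      rw [mem_coe, mem_bl hP.conn]
      simp⟩)
  have hufin : u.Finite := (List.finite_toSet w.support).subset hut
  set U : Finset V := hufin.toFinset with hU
  have hUmem : ∀ a, a ∈ U ↔ a ∈ u := fun a => by rw [hU, Set.Finite.mem_toFinset]
  -- disjoint balls
  have hcutsum : ∑ a ∈ U, bd G W a (2 * ρ a) ≤ cut G W := by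
    unfold bd cut
    rw [← sum_biUnion]
    · refine sum_le_sum_of_subset ?_
      intro b hb
      rw [mem_biUnion] at hb
      obtain ⟨a, -, hb⟩ := hb
      exact (mem_inter.1 hb).1
    · intro a ha b hb hab
      have := hudisj ((hUmem a).1 ha) ((hUmem b).1 hb) hab
      rw [Function.onFun, disjoint_coe] at this
      exact this.mono inter_subset_right inter_subset_right
  -- distances from `o` along the walk
  have hdist : ∀ t ≤ G.dist o x, ∃ y ∈ w.support, G.dist o y = t := by
    intro t ht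
    have hex : ∃ i : ℕ, t ≤ G.dist o (w.getVert i) := ⟨w.length, by
      rw [SimpleGraph.Walk.getVert_length]; exact ht⟩
    obtain ⟨i, hi⟩ : ∃ i, Nat.find hex = i := ⟨_, rfl⟩
    have hspec := Nat.find_spec hex
    rw [hi] at hspec
    refine ⟨w.getVert i, w.getVert_mem_support i, ?_⟩
    rcases Nat.eq_zero_or_pos i with h0 | h0
    · subst h0
      rw [SimpleGraph.Walk.getVert_zero, SimpleGraph.dist_self] at hspec ⊢
      omega
    · have hmin := Nat.find_min hex (m := i - 1) (by omega)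
      have hil : i - 1 < w.length := by
        by_contra hcon
        apply hmin
        rw [SimpleGraph.Walk.getVert_of_length_le _ (by omega)]
        exact ht
      have hadj := w.adj_getVert_succ hil
      have e1 : i - 1 + 1 = i := by omega
      rw [e1] at hadj
      have e2 : G.dist (w.getVert (i - 1)) (w.getVert i) = 1 :=
        SimpleGraph.dist_eq_one_iff_adj.2 hadj
      have e3 := hP.conn.dist_triangle (u := o) (v := w.getVert (i - 1)) (w := w.getVert i)
      omega
  have hcover : range (G.dist o x + 1) ⊆ U.biUnion fun a =>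
      Icc (G.dist o a - 6 * ρ a) (G.dist o a + 6 * ρ a) := by
    intro t ht
    rw [mem_range] at ht
    obtain ⟨y, hy, hyt⟩ := hdist t (by omega)
    obtain ⟨a, ha, ⟨z, hz1, hz2⟩, hle⟩ := hucov y hy
    rw [mem_coe, mem_bl hP.conn] at hz1 hz2
    have hle' : ρ y ≤ 2 * ρ a := by exact_mod_cast hle
    rw [mem_biUnion]
    refine ⟨a, (hUmem a).2 ha, ?_⟩
    rw [mem_Icc]
    have e1 := hP.conn.dist_triangle (u := a) (v := z) (w := y)
    have e2 := hP.conn.dist_triangle (u := o) (v := a) (w := y)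
    have e3 := hP.conn.dist_triangle (u := o) (v := y) (w := a)
    have e4 : G.dist z y = G.dist y z := SimpleGraph.dist_comm
    have e5 : G.dist y a = G.dist a y := SimpleGraph.dist_comm
    omega
  have hcount : G.dist o x + 1 ≤ ∑ a ∈ U, 13 * ρ a := by
    have h1 := card_le_card hcover
    rw [card_range] at h1
    refine h1.trans (card_biUnion_le.trans (sum_le_sum fun a _ => ?_))
    rw [Nat.card_Icc]
    have := hρ1 a
    omega
  have hfin : G.dist o x ≤ 13 * L * cut G W := by
    calc G.dist o x ≤ ∑ a ∈ U, 13 * ρ a := by omega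
      _ ≤ ∑ a ∈ U, 13 * (L * bd G W a (2 * ρ a)) :=
          sum_le_sum fun a ha => Nat.mul_le_mul_left _ (hk a (hut ((hUmem a).1 ha)))
      _ = 13 * L * ∑ a ∈ U, bd G W a (2 * ρ a) := by
          rw [mul_sum]
          refine sum_congr rfl fun a _ => by ring
      _ ≤ _ := Nat.mul_le_mul_left _ hcutsum
  have hLR : (0 : ℝ) < 13 * L := by
    have : (0 : ℝ) < L := by exact_mod_cast hLpos
    linarith
  rw [one_div, inv_mul_le_iff₀ hLR]
  exact_mod_cast hfin

end Pool.Agent.Helper22.PG
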