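import Pool.Agent.Helper22.PG.Basic

/-! Vertex-transitive graphs with `c₁ r^D ≤ |Ball(r)| ≤ c₂ r^D`, `D ≥ 3`, satisfy `PolyG`. -/

namespace Pool.Agent.Helper22.PG

open Finset Pool.Agent.Helper30.Perc

theorem polyG_of_growth {V : Type} [DecidableEq V] (G : SimpleGraph V) [G.LocallyFinite]
    (hinf : Infinite V) (hconn : G.Connected) (htrans : ∀ u v : V, ∃ φ : G ≃g G, φ u = v)
    (o : V) (D c₁ c₂ : ℝ) (hD : 3 ≤ D) (hc₁ : 0 < c₁)
    (hgr : ∀ r : ℕ, 1 ≤ r → c₁ * (r : ℝ) ^ D ≤ ({w : V | G.dist o w ≤ r}.ncard : ℝ) ∧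
      ({w : V | G.dist o w ≤ r}.ncard : ℝ) ≤ c₂ * (r : ℝ) ^ D) :
    ∃ d K C : ℕ, PolyG G d K C fun r => (bl G o r).card := by
  have hcard : ∀ r, {w : V | G.dist o w ≤ r}.ncard = (bl G o r).card := by
    intro r
    rw [← Set.ncard_coe_finset]
    congr 1
    ext w
    rw [mem_coe, mem_bl hconn]
    exact Iff.rfl
  simp only [hcard] at hgr
  have hc₂ : 0 < c₂ := by
    have h1 := hgr 1 le_rfl
    rw [Nat.cast_one, Real.one_rpow, mul_one, mul_one] at h1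
    linarith [h1.1.trans h1.2]
  have hvol : ∀ x r, (bl G x r).card = (bl G o r).card := by
    have hle : ∀ x y r, (bl G x r).card ≤ (bl G y r).card := by
      intro x y r
      obtain ⟨φ, rfl⟩ := htrans x y
      refine card_le_card_of_injOn φ ?_ φ.injective.injOn
      intro w hw
      rw [mem_coe] at hw ⊢
      rwa [map_mem_bl hconn]
    exact fun x r => le_antisymm (hle _ _ _) (hle _ _ _)
  refine ⟨(G.neighborFinset o).card, ⌈c₂ / c₁ * (2 : ℝ) ^ D⌉₊, ⌈c₂ / c₁⌉₊, hinf, hconn, ?_,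
    htrans, hvol, ?_, ?_⟩
  · intro x
    obtain ⟨φ, rfl⟩ := htrans x o
    refine card_le_card_of_injOn φ ?_ φ.injective.injOn
    intro w hw
    rw [mem_coe, SimpleGraph.mem_neighborFinset] at hw ⊢
    exact φ.map_rel_iff.2 hw
  · intro r hr
    have h1 := (hgr (2 * r) (by omega)).2
    have h2 := (hgr r hr).1
    have h3 : ((2 * r : ℕ) : ℝ) ^ D = 2 ^ D * (r : ℝ) ^ D := by
      push_cast
      exact Real.mul_rpow (by norm_num) (by positivity)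
    rw [h3] at h1
    have h4 : c₂ * (2 ^ D * (r : ℝ) ^ D) = c₂ / c₁ * 2 ^ D * (c₁ * (r : ℝ) ^ D) := by
      field_simp
    rw [h4] at h1
    have h5 : c₂ / c₁ * (2 : ℝ) ^ D ≤ ⌈c₂ / c₁ * (2 : ℝ) ^ D⌉₊ := Nat.le_ceil _
    have h6 : 0 ≤ c₁ * (r : ℝ) ^ D := by positivity
    have h7 : ((bl G o (2 * r)).card : ℝ) ≤ ⌈c₂ / c₁ * (2 : ℝ) ^ D⌉₊ * (bl G o r).card :=
      h1.trans (mul_le_mul h5 h2 h6 (by positivity))
    exact_mod_cast h7
  · intro k r hr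
    have h1 := (hgr r hr).2
    have hkr : 1 ≤ 2 ^ k * r := Nat.mul_pos (by positivity) hr
    have h2 := (hgr (2 ^ k * r) hkr).1
    have h3 : ((2 ^ k * r : ℕ) : ℝ) ^ D = ((2 : ℝ) ^ k) ^ D * (r : ℝ) ^ D := by
      push_cast
      exact Real.mul_rpow (by positivity) (by positivity)
    have h4 : (8 : ℝ) ^ k ≤ ((2 : ℝ) ^ k) ^ D := by
      have h5 : ((2 : ℝ) ^ k) ^ (3 : ℝ) ≤ ((2 : ℝ) ^ k) ^ D :=
        Real.rpow_le_rpow_of_exponent_le (one_le_pow₀ (by norm_num)) hD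
      have h6 : ((2 : ℝ) ^ k) ^ (3 : ℝ) = 8 ^ k := by
        rw [show (3 : ℝ) = ((3 : ℕ) : ℝ) by norm_num, Real.rpow_natCast, ← pow_mul, mul_comm,
          pow_mul]
        norm_num
      rwa [h6] at h5
    rw [h3] at h2
    have h7 : c₂ / c₁ ≤ ⌈c₂ / c₁⌉₊ := Nat.le_ceil _
    have hrD : (0 : ℝ) ≤ (r : ℝ) ^ D := by positivity
    have h8 : (8 : ℝ) ^ k * (bl G o r).card ≤ ⌈c₂ / c₁⌉₊ * (bl G o (2 ^ k * r)).card := by
      calc (8 : ℝ) ^ k * (bl G o r).card ≤ 8 ^ k * (c₂ * (r : ℝ) ^ D) := by gcongr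
        _ = c₂ / c₁ * (c₁ * (8 ^ k * (r : ℝ) ^ D)) := by field_simp
        _ ≤ c₂ / c₁ * (c₁ * (((2 : ℝ) ^ k) ^ D * (r : ℝ) ^ D)) := by gcongr
        _ ≤ ⌈c₂ / c₁⌉₊ * (bl G o (2 ^ k * r)).card := by
            apply mul_le_mul h7 h2 (by positivity) (by positivity)
    exact_mod_cast h8

end Pool.Agent.Helper22.PG
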