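import Pool.Agent.Helper22.PG.BlockEx

/-! The static theorem: blocks can be hung along every geodesic. -/

namespace Pool.Agent.Helper22.PG

open Finset Filter Pool.Agent.Helper30.Perc

variable {V : Type} {G : SimpleGraph V} [DecidableEq V] [G.LocallyFinite] {d K C : ℕ} {v : ℕ → ℕ}

/-- the static hypothesis from the numerical conditions -/
lemma static_of (hP : PolyG G d K C v) {θ θ' : ℝ}
    (hloc : ∀ (o : V) (M : Finset (Sym2 V)) (W : Finset V), (M : Set (Sym2 V)) ⊆ G.edgeSet →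
      Adm o M W → (∀ W', Adm o M W' → cut G W ≤ cut G W') →
      ∀ x ∈ W, ∃ r : ℕ, 1 ≤ r ∧ θ * v r ≤ ((insert o (vert M) ∩ bl G x r).card : ℝ) * r)
    (o : V) (M1 : Finset (Sym2 V)) (hM1 : (M1 : Set (Sym2 V)) ⊆ G.edgeSet) (C0 D ℓ ρ2 Rθ S nb s : ℕ)
    (hC0 : ∀ W : Finset V, Adm o M1 W → C0 ≤ cut G W)
    (A : Finset (V × ℕ))
    (hA : ∀ x r, Dense G v θ' (insert o (vert M1)) x r → ∃ p ∈ A, r ≤ p.2 ∧ G.dist x p.1 ≤ 2 * p.2)
    (hD : ∀ p ∈ A, G.dist o p.1 + 2 * p.2 ≤ D)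
    (hV0 : ∀ u ∈ insert o (vert M1), G.dist o u ≤ D)
    (hself : θ' * v 1 ≤ 1) (hℓ : 0 < ℓ) (hs1 : 64 * ℓ ≤ s) (hs2 : M1.card + ρ2 + ℓ ≤ s)
    (hnb : 2 * (S + 2 * ρ2 + 2 * D + Rθ + 1) / ℓ + 1 ≤ nb)
    (hθ : 0 < θ) (hθ' : 0 < θ') (hθθ : (2 * nb + 1) * θ' ≤ θ)
    (hS : ∀ r, S ≤ r → ((2 * r + 1 + (2 * (r + ρ2 + D) / ℓ + 1) *
      (ρ2 + 1 + (insert o (vert M1)).card) : ℕ) : ℝ) * r < θ * v r)
    (hR : ∀ r, 1 ≤ r → θ' * v r ≤ ((2 * r + 1 : ℕ) : ℝ) * r → r ≤ Rθ)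
    (hsum : ∑ p ∈ A, ((∑ p' ∈ A, (2 * (2 * D + 2 * ρ2 + 1) / ℓ + 1) * v (2 * p.2 + 2 * p'.2 + 1)) +
      (2 * (ρ2 + D + Rθ + 1) + 1) * v (2 * p.2 + Rθ + 1)) < v ρ2) :
    StaticHyp G ℓ s (ρ2 + D) (C0 - d * (nb * ((ρ2 + 1) * v Rθ))) := by
  refine ⟨hℓ, hs1, ?_⟩
  intro y z γ hγ m hm
  obtain ⟨φ, hφ⟩ := place_all hP o A ℓ ρ2 Rθ D hℓ hD hsum γ hγ m hm
  choose π hπ using fun j => hP.conn.exists_walk_length_eq_dist (γ.getVert (j * ℓ)) (φ j o)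
  have H : Hung G v d θ θ' o M1 C0 D ℓ ρ2 Rθ S nb A γ m φ π :=
    { hγ := hγ, hℓ := hℓ, hm := hm, hM1 := hM1, hC0 := hC0, hV0 := hV0, hself := hself, hA := hA,
      hD := hD, hπ := hπ, hφ1 := fun j hj => (hφ j hj).1, hφ2 := fun j hj => (hφ j hj).2.1,
      hφ3 := fun j hj => (hφ j hj).2.2, hnb := hnb, hθ := hθ, hθ' := hθ', hθθ := hθθ, hS := hS,
      hR := hR }
  refine ⟨blockE o M1 φ π, ?_, ?_⟩
  · intro j hj
    refine ⟨?_, ?_, ?_⟩
    · intro e he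
      have h1 : e ∈ hungE o M1 φ π 0 m := by
        rw [hungE, mem_union, mem_biUnion]
        exact Or.inr ⟨j, mem_Ico.2 ⟨Nat.zero_le _, hj⟩, mem_coe.1 he⟩
      exact hungE_subset hM1 hm 0 (mem_coe.2 h1)
    · have h1 : (blockE o M1 φ π j).card ≤ M1.card + (π j).length := by
        rw [blockE]
        refine (card_union_le _ _).trans (add_le_add card_image_le ?_)
        rw [← (π j).length_edges]
        exact List.toFinset_card_le _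
      have h2 := hπ j
      have h3 := H.hφ1 j hj
      omega
    · intro e he u hu
      have hφ1 := H.hφ1 j hj
      rcases mem_vert_blockE j u ((mem_vert _ _).2 ⟨e, he, hu⟩) with h1 | ⟨u0, hu0, rfl⟩
      · obtain ⟨k, hk, hkl⟩ := SimpleGraph.Walk.mem_support_iff_exists_getVert.1 h1
        have h2 := dist_getVert_le hP.conn (π j) 0 k (Nat.zero_le _)
        rw [(π j).getVert_zero, hk] at h2
        have h3 := hπ j
        omega
      · have h2 := hP.conn.dist_triangle (u := γ.getVert (j * ℓ)) (v := φ j o) (w := φ j u0)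
        rw [dist_iso hP.conn] at h2
        have h3 := hV0 u0 hu0
        omega
  · intro i hi W hW1 hW2
    exact H.cut_all hP hloc i hi W hW1 hW2

theorem static (hP : PolyG G d K C v) (o : V) (κ ε : ℝ) (hε : 0 < ε)
    (hfreq : ∃ᶠ n in atTop, CapGE G o n ((κ - ε) * n)) :
    ∃ ℓ s R C' : ℕ, StaticHyp G ℓ s R C' ∧ (κ - 2 * ε) * s ≤ C' := by
  rcases le_or_gt κ (2 * ε) with hκ | hκ
  · refine ⟨1, 64, 0, 0, ⟨one_pos, le_rfl, ?_⟩, ?_⟩
    · intro y z γ hγ m hm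
      refine ⟨fun _ => ∅, ?_, ?_⟩
      · intro j hj
        simp
      · intro i hi W _ _
        simp
    · push_cast
      nlinarith
  obtain ⟨c1, hc1⟩ := block_exists hP o κ ε hε hfreq
  obtain ⟨θ, hθ, hloc⟩ := loc hP
  have hCpos : (0 : ℝ) < C := by exact_mod_cast hP.C_pos
  have hv1 : (0 : ℝ) < v 1 := by exact_mod_cast hP.v_pos 1
  -- constants
  obtain ⟨a, ha64, ha⟩ : ∃ a : ℕ, 64 ≤ a ∧ 8 * κ / ε ≤ a :=
    ⟨⌈8 * κ / ε⌉₊ + 64, by omega, (Nat.le_ceil _).trans (by push_cast; linarith)⟩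
  set nb : ℕ := 4 * a * (2 * c1 + 10) + 1 with hnb
  set θ' : ℝ := min (θ / (2 * nb + 1)) (1 / v 1) with hθ'def
  have hnb1 : (0 : ℝ) < 2 * nb + 1 := by positivity
  have hθ' : 0 < θ' := lt_min (div_pos hθ hnb1) (div_pos one_pos hv1)
  have hθθ : (2 * nb + 1) * θ' ≤ θ := by
    have h1 : θ' ≤ θ / (2 * nb + 1) := min_le_left _ _
    rw [le_div_iff₀ hnb1] at h1
    linarith
  have hself : θ' * v 1 ≤ 1 := by
    have h1 : θ' ≤ 1 / v 1 := min_le_right _ _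
    rw [le_div_iff₀ hv1] at h1
    linarith
  obtain ⟨Rθ, hRθ⟩ : ∃ Rθ : ℕ, 24 * C / θ' ≤ Rθ := ⟨⌈24 * C / θ'⌉₊, Nat.le_ceil _⟩
  rw [div_le_iff₀ hθ'] at hRθ
  have hR : ∀ r, 1 ≤ r → θ' * v r ≤ ((2 * r + 1 : ℕ) : ℝ) * r → r ≤ Rθ := by
    intro r hr h
    have hr0 : (1 : ℝ) ≤ r := by exact_mod_cast hr
    have h1 : ((r : ℝ)) ^ 3 ≤ 8 * C * v r := by exact_mod_cast hP.v_cube r
    push_cast at h
    have h2 : θ' * (r : ℝ) ^ 3 ≤ 24 * C * r ^ 2 := by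
      calc θ' * (r : ℝ) ^ 3 ≤ θ' * (8 * C * v r) := mul_le_mul_of_nonneg_left h1 hθ'.le
        _ = 8 * C * (θ' * v r) := by ring
        _ ≤ 8 * C * ((2 * r + 1) * r) := mul_le_mul_of_nonneg_left h (by positivity)
        _ ≤ 8 * C * ((3 * r) * r) := by
            refine mul_le_mul_of_nonneg_left ?_ (by positivity)
            refine mul_le_mul_of_nonneg_right (by linarith) (by linarith)
        _ = _ := by ring
    have h3 : (0 : ℝ) < (r : ℝ) ^ 2 := by positivity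
    have h4 : θ' * r * r ^ 2 ≤ 24 * C * r ^ 2 := by
      calc θ' * r * (r : ℝ) ^ 2 = θ' * (r : ℝ) ^ 3 := by ring
        _ ≤ _ := h2
    have h5 : θ' * r ≤ 24 * C := le_of_mul_le_mul_right h4 h3
    have h6 : (r : ℝ) * θ' ≤ Rθ * θ' := by linarith
    exact_mod_cast le_of_mul_le_mul_right h6 hθ'
  obtain ⟨b, hba, hb⟩ : ∃ b : ℕ, a ≤ b ∧ 8 * (d * nb * v Rθ) / ε ≤ b :=
    ⟨⌈8 * (d * nb * v Rθ) / ε⌉₊ + a, by omega, (Nat.le_ceil _).trans (by push_cast; linarith)⟩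
  rw [div_le_iff₀ hε] at ha hb
  set C8 : ℕ := 20 * a * (c1 + 5) + 8 with hC8
  obtain ⟨s2, hs2⟩ : ∃ s2 : ℕ, 8 * C * C8 / θ < s2 :=
    ⟨⌊8 * C * C8 / θ⌋₊ + 1, by push_cast; exact Nat.lt_floor_add_one _⟩
  rw [div_lt_iff₀ hθ] at hs2
  set C10 : ℕ := 6 * nb * K ^ 3 + (2 * c1 + 11) * K ^ (Rθ + 3) with hC10
  obtain ⟨Q, hQ⟩ : ∃ Q : ℕ, 192 * (C10 : ℝ) * (b : ℝ) ^ 3 * C / θ' ≤ Q := ⟨_, Nat.le_ceil _⟩
  rw [div_le_iff₀ hθ'] at hQ
  obtain ⟨s1, hs1, M1, hM1E, hM1c, hM1d, hM1cap⟩ :=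
    hc1 (a + b + 2 + (Rθ + 1) + s2 + (Rθ * (Q + 1) ^ 2 + 1))
  have hs1a : a ≤ s1 := by omega
  have hs1b : b ≤ s1 := by omega
  have hs12 : 2 ≤ s1 := by omega
  have hs1R : Rθ + 1 ≤ s1 := by omega
  have hs1s : s2 ≤ s1 := by omega
  have hs1Q : Rθ * (Q + 1) ^ 2 + 1 ≤ s1 := by omega
  clear hs1
  have hb0 : 0 < b := by omega
  have ha0 : 0 < a := by omega
  set ℓ := s1 / a with hℓdef
  set ρ2 := s1 / b with hρ2def
  set D := (c1 + 3) * s1 with hDdef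
  have hℓ : 0 < ℓ := Nat.div_pos hs1a ha0
  have hs1ℓ : s1 ≤ 2 * a * ℓ := by
    have h1 := Nat.lt_div_mul_add ha0 (a := s1)
    rw [← hℓdef] at h1
    nlinarith
  have hs1ρ : s1 ≤ 2 * b * ρ2 := by
    have h1 := Nat.lt_div_mul_add hb0 (a := s1)
    rw [← hρ2def] at h1
    have h2 : 0 < ρ2 := Nat.div_pos hs1b hb0
    nlinarith
  have hℓ64 : 64 * ℓ ≤ s1 := (Nat.mul_le_mul_right _ ha64).trans (Nat.mul_div_le s1 a)
  have hρ2s : ρ2 ≤ s1 := Nat.div_le_self _ _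
  have hV0c : (insert o (vert M1)).card ≤ 3 * s1 := by
    have h1 := card_insert_le o (vert M1)
    have h2 := card_vert M1
    omega
  set V0 := insert o (vert M1) with hV0def
  obtain ⟨A, hA1, hA2, hA3, hA4⟩ := dense_cover hP θ' hθ' V0
  -- radii
  set ρ := Nat.sqrt (Rθ * s1) with hρdef
  have hrad : ∀ x r, Dense G v θ' V0 x r → r ≤ ρ := by
    intro x r h
    have h1 := h.radius_sq hP hθ'
    have h2 : (V0.card : ℝ) ≤ 3 * s1 := by exact_mod_cast hV0c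
    have h3 : θ' * (r : ℝ) ^ 2 ≤ θ' * (Rθ * s1) := by
      calc θ' * (r : ℝ) ^ 2 ≤ 8 * C * V0.card := h1
        _ ≤ 8 * C * (3 * s1) := mul_le_mul_of_nonneg_left h2 (by positivity)
        _ = 24 * C * s1 := by ring
        _ ≤ (Rθ * θ') * s1 := mul_le_mul_of_nonneg_right hRθ (by positivity)
        _ = _ := by ring
    have h4 : (r : ℝ) ^ 2 ≤ Rθ * s1 := le_of_mul_le_mul_left h3 hθ'
    have h5 : r ^ 2 ≤ Rθ * s1 := by exact_mod_cast h4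
    rw [hρdef, Nat.le_sqrt']
    exact h5
  have hρs : ρ ≤ s1 := by
    rw [hρdef]
    refine (Nat.sqrt_le_sqrt (Nat.mul_le_mul_right s1 (by omega : Rθ ≤ s1))).trans ?_
    rw [Nat.sqrt_eq]
  have hD : ∀ p ∈ A, G.dist o p.1 + 2 * p.2 ≤ D := by
    intro p hp
    have h1 := hrad _ _ (hA1 p hp)
    obtain ⟨u, hu⟩ := (hA1 p hp).inter_nonempty hP hθ'
    rw [Finset.mem_inter, mem_bl hP.conn] at hu
    have h2 := hM1d u hu.1
    have h3 := hP.conn.dist_triangle (u := o) (v := u) (w := p.1)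
    rw [SimpleGraph.dist_comm (u := u)] at h3
    rw [hDdef, Nat.add_mul]
    omega
  have hV0 : ∀ u ∈ V0, G.dist o u ≤ D := by
    intro u hu
    have := hM1d u hu
    rw [hDdef, Nat.add_mul]
    omega
  have hwin : ∀ N, N ≤ (2 * c1 + 10) * s1 → 2 * N / ℓ + 1 ≤ nb := by
    intro N hN
    rw [hnb]
    refine Nat.add_le_add_right ?_ 1
    rw [Nat.div_le_iff_le_mul_add_pred hℓ]
    have h1 : (2 * c1 + 10) * s1 ≤ (2 * c1 + 10) * (2 * a * ℓ) := Nat.mul_le_mul_left _ hs1ℓ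
    have h2 : 2 * N ≤ ℓ * (4 * a * (2 * c1 + 10)) := by
      calc 2 * N ≤ 2 * ((2 * c1 + 10) * (2 * a * ℓ)) := Nat.mul_le_mul_left _ (hN.trans h1)
        _ = _ := by ring
    omega
  have hC0' : ∀ W : Finset V, Adm o M1 W → ⌈(κ - ε) * s1⌉₊ ≤ cut G W := by
    intro W hW
    exact Nat.ceil_le.2 (hM1cap W hW)
  have hnb' : 2 * (s1 + 2 * ρ2 + 2 * D + Rθ + 1) / ℓ + 1 ≤ nb := by
    refine hwin _ ?_
    rw [hDdef]
    nlinarith
  have hS : ∀ r, s1 ≤ r → ((2 * r + 1 + (2 * (r + ρ2 + D) / ℓ + 1) *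
      (ρ2 + 1 + V0.card) : ℕ) : ℝ) * r < θ * v r := by
    intro r hr
    have h1 : 2 * r + 1 + (2 * (r + ρ2 + D) / ℓ + 1) * (ρ2 + 1 + V0.card) ≤ C8 * r := by
      have h2 : ρ2 + 1 + V0.card ≤ 5 * s1 := by omega
      have h3 : 2 * (r + ρ2 + D) ≤ 2 * (c1 + 5) * r := by
        rw [hDdef]
        have : (c1 + 3) * s1 ≤ (c1 + 3) * r := Nat.mul_le_mul_left _ hr
        nlinarith
      have h4 : 2 * (r + ρ2 + D) / ℓ * s1 ≤ 2 * (c1 + 5) * r * (2 * a) := by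
        calc 2 * (r + ρ2 + D) / ℓ * s1 ≤ 2 * (r + ρ2 + D) / ℓ * (2 * a * ℓ) :=
              Nat.mul_le_mul_left _ hs1ℓ
          _ = (2 * (r + ρ2 + D) / ℓ * ℓ) * (2 * a) := by ring
          _ ≤ (2 * (r + ρ2 + D)) * (2 * a) := Nat.mul_le_mul_right _ (Nat.div_mul_le_self _ _)
          _ ≤ _ := Nat.mul_le_mul_right _ h3
      calc 2 * r + 1 + (2 * (r + ρ2 + D) / ℓ + 1) * (ρ2 + 1 + V0.card)
          ≤ 3 * r + (2 * (r + ρ2 + D) / ℓ + 1) * (5 * s1) := by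
            refine add_le_add (by omega) (Nat.mul_le_mul_left _ h2)
        _ = 3 * r + 5 * s1 + 5 * (2 * (r + ρ2 + D) / ℓ * s1) := by ring
        _ ≤ 3 * r + 5 * r + 5 * (2 * (c1 + 5) * r * (2 * a)) := by
            refine add_le_add (add_le_add le_rfl (Nat.mul_le_mul_left _ hr))
              (Nat.mul_le_mul_left _ h4)
        _ = _ := by rw [hC8]; ring
    have h5 : ((2 * r + 1 + (2 * (r + ρ2 + D) / ℓ + 1) *
      (ρ2 + 1 + V0.card) : ℕ) : ℝ) ≤ C8 * r := by exact_mod_cast h1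
    have hr0 : (0 : ℝ) < r := by exact_mod_cast (by omega : 0 < r)
    have h6 : ((r : ℝ)) ^ 3 ≤ 8 * C * v r := by exact_mod_cast hP.v_cube r
    have h7 : (8 * C * C8 : ℝ) < r * θ := by
      refine hs2.trans_le (mul_le_mul_of_nonneg_right ?_ hθ.le)
      exact_mod_cast hs1s.trans hr
    have h8 : (8 * C : ℝ) * (C8 * r * r) < 8 * C * (θ * v r) := by
      calc (8 * C : ℝ) * (C8 * r * r) = 8 * C * C8 * (r * r) := by ring
        _ < r * θ * (r * r) := mul_lt_mul_of_pos_right h7 (by positivity)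
        _ = θ * (r : ℝ) ^ 3 := by ring
        _ ≤ θ * (8 * C * v r) := mul_le_mul_of_nonneg_left h6 hθ.le
        _ = _ := by ring
    have h9 : (C8 * r * r : ℝ) < θ * v r := lt_of_mul_lt_mul_left h8 (by positivity)
    exact lt_of_le_of_lt (mul_le_mul_of_nonneg_right h5 hr0.le) h9
  have hsum : ∑ p ∈ A, ((∑ p' ∈ A, (2 * (2 * D + 2 * ρ2 + 1) / ℓ + 1) *
      v (2 * p.2 + 2 * p'.2 + 1)) + (2 * (ρ2 + D + Rθ + 1) + 1) * v (2 * p.2 + Rθ + 1)) < v ρ2 := by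
    have hAr : ∀ p ∈ A, 1 ≤ p.2 := fun p hp => (hA1 p hp).1
    have h1 : 2 * (2 * D + 2 * ρ2 + 1) / ℓ + 1 ≤ nb := by
      refine hwin _ ?_
      rw [hDdef]
      nlinarith
    have h2 : 2 * (ρ2 + D + Rθ + 1) + 1 ≤ (2 * c1 + 11) * s1 := by
      rw [hDdef]
      nlinarith
    have h3 : ∀ p ∈ A, ∀ p' ∈ A, v (2 * p.2 + 2 * p'.2 + 1) ≤ K ^ 3 * (v p.2 + v p'.2) := by
      intro p hp p' hp'
      have hp1 := hAr p hp
      have hp1' := hAr p' hp'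
      rcases le_total p.2 p'.2 with h | h
      · calc v (2 * p.2 + 2 * p'.2 + 1) ≤ v (2 ^ 3 * p'.2) := hP.v_mono (by omega)
          _ ≤ K ^ 3 * v p'.2 := hP.v_dbl 3 _ hp1'
          _ ≤ _ := Nat.mul_le_mul_left _ (Nat.le_add_left _ _)
      · calc v (2 * p.2 + 2 * p'.2 + 1) ≤ v (2 ^ 3 * p.2) := hP.v_mono (by omega)
          _ ≤ K ^ 3 * v p.2 := hP.v_dbl 3 _ hp1
          _ ≤ _ := Nat.mul_le_mul_left _ (Nat.le_add_right _ _)
    have h4 : ∀ p ∈ A, v (2 * p.2 + Rθ + 1) ≤ K ^ (Rθ + 3) * v p.2 := by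
      intro p hp
      have hp1 := hAr p hp
      refine le_trans (hP.v_mono ?_) (hP.v_mul (a := Rθ + 3) (k := Rθ + 3) p.2 hp1
        (Nat.lt_two_pow_self).le)
      nlinarith
    have h5 : ∑ p ∈ A, ((∑ p' ∈ A, (2 * (2 * D + 2 * ρ2 + 1) / ℓ + 1) *
        v (2 * p.2 + 2 * p'.2 + 1)) + (2 * (ρ2 + D + Rθ + 1) + 1) * v (2 * p.2 + Rθ + 1)) ≤
        C10 * s1 * ∑ p ∈ A, v p.2 := by
      calc _ ≤ ∑ p ∈ A, ((∑ p' ∈ A, nb * (K ^ 3 * (v p.2 + v p'.2))) +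
            (2 * c1 + 11) * s1 * (K ^ (Rθ + 3) * v p.2)) := by
            refine sum_le_sum fun p hp => add_le_add (sum_le_sum fun p' hp' =>
              Nat.mul_le_mul h1 (h3 p hp p' hp')) (Nat.mul_le_mul h2 (h4 p hp))
        _ = nb * K ^ 3 * (2 * A.card) * ∑ p ∈ A, v p.2 +
            (2 * c1 + 11) * s1 * K ^ (Rθ + 3) * ∑ p ∈ A, v p.2 := by
            rw [sum_add_distrib]
            congr 1
            · have e1 : ∀ p ∈ A, ∑ p' ∈ A, nb * (K ^ 3 * (v p.2 + v p'.2)) =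
                  nb * K ^ 3 * (A.card * v p.2) + nb * K ^ 3 * ∑ p' ∈ A, v p'.2 := by
                intro p _
                rw [mul_sum, ← smul_eq_mul (a := A.card), ← sum_const, mul_sum, ← sum_add_distrib]
                refine sum_congr rfl fun p' _ => ?_
                ring
              rw [sum_congr rfl e1, sum_add_distrib, sum_const, smul_eq_mul, ← mul_sum, ← mul_sum]
              ring
            · rw [mul_sum]
              refine sum_congr rfl fun p' _ => ?_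
              ring
        _ ≤ nb * K ^ 3 * (2 * (3 * s1)) * ∑ p ∈ A, v p.2 +
            (2 * c1 + 11) * s1 * K ^ (Rθ + 3) * ∑ p ∈ A, v p.2 := by
            refine Nat.add_le_add_right (Nat.mul_le_mul_right _ (Nat.mul_le_mul_left _
              (Nat.mul_le_mul_left _ (hA3.trans hV0c)))) _
        _ = _ := by rw [hC10]; ring
    have h6 := hA4 ρ hrad
    have h7 : (V0.card : ℝ) ≤ 3 * s1 := by exact_mod_cast hV0c
    have h8 : θ' * ∑ p ∈ A, (v p.2 : ℝ) ≤ 3 * s1 * ρ := by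
      calc θ' * ∑ p ∈ A, (v p.2 : ℝ) ≤ ρ * V0.card := h6
        _ ≤ ρ * (3 * s1) := mul_le_mul_of_nonneg_left h7 (by positivity)
        _ = _ := by ring
    -- ρ (Q + 1) < s1
    have h9 : ρ * (Q + 1) < s1 := by
      have h10 : ρ ^ 2 ≤ Rθ * s1 := by
        rw [hρdef]
        exact Nat.sqrt_le' _
      by_contra hcon
      push Not at hcon
      have h11 : s1 ^ 2 ≤ (ρ * (Q + 1)) ^ 2 := Nat.pow_le_pow_left hcon 2
      have h12 : (ρ * (Q + 1)) ^ 2 ≤ Rθ * s1 * (Q + 1) ^ 2 := by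
        rw [mul_pow]
        exact Nat.mul_le_mul_right _ h10
      have h13 : s1 * s1 ≤ (Rθ * (Q + 1) ^ 2) * s1 := by
        calc s1 * s1 = s1 ^ 2 := by ring
          _ ≤ Rθ * s1 * (Q + 1) ^ 2 := h11.trans h12
          _ = _ := by ring
      have h14 : s1 ≤ Rθ * (Q + 1) ^ 2 := Nat.le_of_mul_le_mul_right h13 (by omega)
      omega
    have h10 : (ρ : ℝ) * (Q + 1) < s1 := by exact_mod_cast h9
    have h11 : ((ρ2 : ℝ)) ^ 3 ≤ 8 * C * v ρ2 := by exact_mod_cast hP.v_cube ρ2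
    have h12 : (s1 : ℝ) ≤ 2 * b * ρ2 := by exact_mod_cast hs1ρ
    have hs1pos : (0 : ℝ) < s1 := by exact_mod_cast (by omega : 0 < s1)
    have hbpos : (0 : ℝ) < b := by exact_mod_cast hb0
    have h13 : ((s1 : ℝ)) ^ 3 ≤ 64 * (b : ℝ) ^ 3 * C * v ρ2 := by
      calc ((s1 : ℝ)) ^ 3 ≤ (2 * b * ρ2) ^ 3 := by
            exact pow_le_pow_left₀ hs1pos.le h12 3
        _ = 8 * b ^ 3 * (ρ2 : ℝ) ^ 3 := by ring
        _ ≤ 8 * b ^ 3 * (8 * C * v ρ2) := mul_le_mul_of_nonneg_left h11 (by positivity)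
        _ = _ := by ring
    have h14 : ((C10 : ℝ) * (s1 : ℝ) * ∑ p ∈ A, (v p.2 : ℝ)) < v ρ2 := by
      have h15 : 0 ≤ (ρ : ℝ) := by positivity
      have hk : (0 : ℝ) < 64 * (b : ℝ) ^ 3 * C * θ' := by positivity
      refine lt_of_mul_lt_mul_left (a := 64 * (b : ℝ) ^ 3 * C * θ') ?_ hk.le
      calc 64 * (b : ℝ) ^ 3 * C * θ' * ((C10 : ℝ) * s1 * ∑ p ∈ A, (v p.2 : ℝ))
          = (64 * (b : ℝ) ^ 3 * C * C10 * s1) * (θ' * ∑ p ∈ A, (v p.2 : ℝ)) := by ring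
        _ ≤ (64 * (b : ℝ) ^ 3 * C * C10 * s1) * (3 * s1 * ρ) :=
            mul_le_mul_of_nonneg_left h8 (by positivity)
        _ = (192 * (C10 : ℝ) * b ^ 3 * C) * ρ * (s1 : ℝ) ^ 2 := by ring
        _ ≤ ((Q : ℝ) * θ') * ρ * (s1 : ℝ) ^ 2 := by
            refine mul_le_mul_of_nonneg_right (mul_le_mul_of_nonneg_right hQ h15) (by positivity)
        _ = θ' * ((ρ : ℝ) * Q) * (s1 : ℝ) ^ 2 := by ring
        _ ≤ θ' * ((ρ : ℝ) * (Q + 1)) * (s1 : ℝ) ^ 2 := by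
            refine mul_le_mul_of_nonneg_right (mul_le_mul_of_nonneg_left ?_ hθ'.le) (by positivity)
            exact mul_le_mul_of_nonneg_left (by linarith) h15
        _ < θ' * s1 * (s1 : ℝ) ^ 2 := by
            refine mul_lt_mul_of_pos_right (mul_lt_mul_of_pos_left h10 hθ') (by positivity)
        _ = θ' * (s1 : ℝ) ^ 3 := by ring
        _ ≤ θ' * (64 * (b : ℝ) ^ 3 * C * v ρ2) := mul_le_mul_of_nonneg_left h13 hθ'.le
        _ = _ := by ring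
    have h15 : C10 * s1 * ∑ p ∈ A, v p.2 < v ρ2 := by exact_mod_cast h14
    exact lt_of_le_of_lt h5 h15
  refine ⟨ℓ, s1 + ρ2 + ℓ, ρ2 + D, ⌈(κ - ε) * s1⌉₊ - d * (nb * ((ρ2 + 1) * v Rθ)), ?_, ?_⟩
  · exact static_of hP hloc o M1 hM1E _ D ℓ ρ2 Rθ s1 nb _ hC0' A hA2 hD hV0 hself hℓ
      (hℓ64.trans ((Nat.le_add_right _ _).trans (Nat.add_assoc s1 ρ2 ℓ).ge))
      (Nat.add_le_add_right (Nat.add_le_add_right hM1c _) _) hnb' hθ hθ' hθθ hS hR hsum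
  · -- the numerical inequality
    have h1 : (κ - ε) * s1 ≤ (⌈(κ - ε) * s1⌉₊ : ℝ) := Nat.le_ceil _
    have hs1pos : (0 : ℝ) < s1 := by exact_mod_cast (by omega : 0 < s1)
    have hbpos : (0 : ℝ) < b := by exact_mod_cast hb0
    have hapos : (0 : ℝ) < a := by exact_mod_cast ha0
    have h2 : (b : ℝ) * (ρ2 + 1) ≤ 2 * s1 := by
      have h3 : b * ρ2 ≤ s1 := Nat.mul_div_le s1 b
      have h4 : b * (ρ2 + 1) ≤ 2 * s1 := by rw [mul_add]; omega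
      exact_mod_cast h4
    have h3 : ((d * (nb * ((ρ2 + 1) * v Rθ)) : ℕ) : ℝ) ≤ ε / 4 * s1 := by
      push_cast
      have h4 : (b : ℝ) * (d * (nb * ((ρ2 + 1) * v Rθ))) ≤ b * (ε / 4 * s1) := by
        calc (b : ℝ) * (d * (nb * ((ρ2 + 1) * v Rθ))) = (d * nb * v Rθ) * (b * (ρ2 + 1)) := by ring
          _ ≤ (d * nb * v Rθ) * (2 * s1) := mul_le_mul_of_nonneg_left h2 (by positivity)
          _ = (8 * (d * nb * v Rθ)) * (s1 / 4) := by ring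
          _ ≤ (b * ε) * (s1 / 4) := mul_le_mul_of_nonneg_right hb (by positivity)
          _ = _ := by ring
      exact le_of_mul_le_mul_left h4 hbpos
    have h4 : (κ - ε) * s1 - ε / 4 * s1 ≤
        ((⌈(κ - ε) * s1⌉₊ - d * (nb * ((ρ2 + 1) * v Rθ)) : ℕ) : ℝ) := by
      rcases le_total (d * (nb * ((ρ2 + 1) * v Rθ))) ⌈(κ - ε) * s1⌉₊ with h | h
      · rw [Nat.cast_sub h]
        linarith
      · have h6 : ((⌈(κ - ε) * s1⌉₊ : ℕ) : ℝ) ≤ ((d * (nb * ((ρ2 + 1) * v Rθ)) : ℕ) : ℝ) := by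
          exact_mod_cast h
        have h7 : (0 : ℝ) ≤ ((⌈(κ - ε) * s1⌉₊ - d * (nb * ((ρ2 + 1) * v Rθ)) : ℕ) : ℝ) :=
          Nat.cast_nonneg _
        linarith
    refine le_trans ?_ h4
    have h5 : (a : ℝ) * ℓ ≤ s1 := by exact_mod_cast Nat.mul_div_le s1 a
    have h6 : (a : ℝ) * ρ2 ≤ s1 := by
      have : a * ρ2 ≤ s1 := (Nat.mul_le_mul_right _ hba).trans (Nat.mul_div_le s1 b)
      exact_mod_cast this
    push_cast
    have h7 : κ * (ρ2 + ℓ) ≤ ε / 4 * s1 := by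
      have h8 : (a : ℝ) * (κ * (ρ2 + ℓ)) ≤ a * (ε / 4 * s1) := by
        have hκ0 : 0 ≤ κ := by linarith
        calc (a : ℝ) * (κ * (ρ2 + ℓ)) = κ * (a * ρ2 + a * ℓ) := by ring
          _ ≤ κ * (s1 + s1) := mul_le_mul_of_nonneg_left (by linarith) hκ0
          _ = (8 * κ) * (s1 / 4) := by ring
          _ ≤ (a * ε) * (s1 / 4) := mul_le_mul_of_nonneg_right ha (by positivity)
          _ = _ := by ring
      exact le_of_mul_le_mul_left h8 hapos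
    have h8 : (0 : ℝ) ≤ ρ2 + ℓ := by positivity
    nlinarith

end Pool.Agent.Helper22.PG
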