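import Pool.Agent.Helper22.PG.Mtp
import Pool.Agent.Helper22.PG.Forced
import Pool.Agent.Helper68.Perc.SteerCst

/-! Steering: from the one-round hypothesis `TurnHyp` to a winning strategy of Maker. -/

namespace Pool.Agent.Helper22.PG

open Finset Pool.Agent.Helper30.Perc Pool.Agent.Perc

variable {V : Type} [DecidableEq V] {G : SimpleGraph V} [G.LocallyFinite] {d K C : ℕ} {v : ℕ → ℕ}

/-- The graph as a space with the geodesic averaging property. -/
noncomputable def stSpace (hP : PolyG G d K C v) : Space V where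
  δ := G.dist
  ball := bl G
  v := v
  δ_self := fun _ => SimpleGraph.dist_self
  δ_symm := fun _ _ => SimpleGraph.dist_comm
  δ_tri := fun _ _ _ => hP.conn.dist_triangle
  mem_ball := fun x r y => mem_bl hP.conn x y r
  card_ball := hP.vol
  path := fun x y => by
    obtain ⟨w, hw⟩ := hP.conn.exists_walk_length_eq_dist x y
    refine ⟨fun k => w.getVert k, w.getVert_zero, fun k hk => w.getVert_of_length_le (by omega),
      fun k => ?_⟩
    have := dist_getVert_le hP.conn w k (k + 1) (by omega)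
    change G.dist (w.getVert k) (w.getVert (k + 1)) ≤ 1
    omega
  geo := by
    intro P r hPr Kx Z ρ t hlt
    by_contra hcon
    push Not at hcon
    have h1 := geo hP r Kx (fun x => ((Z.filter (fun z => G.dist x z ≤ ρ)).card : ℝ))
      (fun x => by positivity) (Z.biUnion fun z => bl G z ρ) (by
        intro x hx
        rw [Nat.cast_eq_zero, card_eq_zero, filter_eq_empty_iff]
        intro z hz hz'
        apply hx
        rw [mem_biUnion]
        exact ⟨z, hz, by rw [mem_bl hP.conn, SimpleGraph.dist_comm]; exact hz'⟩) P hPr t (by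
        intro z hz w hw
        exact hcon z hz (fun k => w.getVert k) w.getVert_zero
          (fun k hk => w.getVert_of_length_le (by omega)) (fun k => by
            have := dist_getVert_le hP.conn w k (k + 1) (by omega)
            omega))
    have h2 : ∑ x ∈ Z.biUnion (fun z => bl G z ρ),
        ((Z.filter (fun z => G.dist x z ≤ ρ)).card : ℝ) ≤ Z.card * v ρ := by
      have e : ∑ x ∈ Z.biUnion (fun z => bl G z ρ), (Z.filter (fun z => G.dist x z ≤ ρ)).card =
          ∑ z ∈ Z, ((Z.biUnion (fun z => bl G z ρ)).filter (fun x => G.dist x z ≤ ρ)).card := by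
        simp_rw [card_filter]
        rw [sum_comm]
      have e2 : ∑ z ∈ Z, ((Z.biUnion (fun z => bl G z ρ)).filter
          (fun x => G.dist x z ≤ ρ)).card ≤ ∑ _z ∈ Z, v ρ := by
        refine sum_le_sum fun z _ => ?_
        rw [← hP.vol z ρ]
        apply card_le_card
        intro x hx
        rw [mem_bl hP.conn, SimpleGraph.dist_comm]
        exact (mem_filter.1 hx).2
      rw [sum_const, smul_eq_mul, ← e] at e2
      exact_mod_cast e2
    have h3 : (Kx.card : ℝ) * v r * ∑ x ∈ Z.biUnion (fun z => bl G z ρ),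
        ((Z.filter (fun z => G.dist x z ≤ ρ)).card : ℝ) ≤ Kx.card * v r * (Z.card * v ρ) :=
      mul_le_mul_of_nonneg_left h2 (by positivity)
    have h4 : (Kx.card : ℝ) * v r * (Z.card * v ρ) = Kx.card * v r * v ρ * Z.card := by ring
    linarith

lemma stSpace_gr (hP : PolyG G d K C v) : (stSpace hP).Gr K C := ⟨hP.dbl, hP.gr⟩

lemma stSpace_cnt (hP : PolyG G d K C v) (Z : Finset V) (x : V) (r : ℕ) :
    (stSpace hP).cnt Z x r = (Z ∩ bl G x r).card := by
  unfold Space.cnt
  congr 1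
  ext z
  rw [mem_filter, mem_inter, mem_bl hP.conn]
  rfl

section

variable (hP : PolyG G d K C v) (v₀ : V) (p q : ℕ)
  (At : Finset (Sym2 V) → Finset (Sym2 V) → V → Prop)

/-- arrival near `c'` after a move of level `N` -/
def Arr (lam β b : ℝ) (n3 N : ℕ) (c' : V) (Z : Finset V) (M' B' : Finset (Sym2 V)) : Prop :=
  ∃ y', At M' B' y' ∧ Pos G M' B' ∧ Z ⊆ vert (M' ∪ B') ∧
    ((vert (M' ∪ B')).card : ℝ) ≤ Z.card + b ∧ 4 * G.dist y' c' ≤ 2 ^ N * p ∧
    ∀ i, i + n3 ≤ N →
      ((stSpace hP).cnt (vert (M' ∪ B')) y' (2 ^ i * p) : ℝ) ≤ lam * (5 / 2 : ℝ) ^ (i + n3) * β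

/-- the claim of level `N` -/
def Claim (lam β : ℝ) (n3 N : ℕ) (b : ℝ) : Prop :=
  ∀ M B y c', Pos G M B → At M B y → (stSpace hP).Start lam β n3 p N (vert (M ∪ B)) y →
    G.dist y c' ≤ 2 ^ N * p → Step G v₀ p q M B
      (Force G v₀ p q (Arr hP p At lam β b n3 N c' (vert (M ∪ B))))

end

variable {hP : PolyG G d K C v} {v₀ : V} {p q : ℕ}
  {At : Finset (Sym2 V) → Finset (Sym2 V) → V → Prop}

/-- repeated rounds towards `c'` -/
lemma iter {T Λ : ℕ} (hT : 0 < T) (htu : TurnHyp G v₀ p q T Λ At) (y₀ c' : V)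
    (hyc : G.dist y₀ c' ≤ p) :
    ∀ (k : ℕ) (M B : Finset (Sym2 V)) (y : V), Pos G M B → At M B y →
      p < 4 * G.dist y c' → G.dist y c' ≤ 2 * p → T * G.dist y c' ≤ k * p →
      (stSpace hP).cnt (vert (M ∪ B)) y₀ (16 * p) + k * (2 * (p + q)) ≤ Λ * p →
      Force G v₀ p q (fun M' B' => ∃ y', At M' B' y' ∧ Pos G M' B' ∧
        vert (M ∪ B) ⊆ vert (M' ∪ B') ∧
        (vert (M' ∪ B')).card ≤ (vert (M ∪ B)).card + k * (2 * (p + q)) ∧
        4 * G.dist y' c' ≤ p) M B := by
  intro k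
  induction k with
  | zero =>
    intro M B y _ _ h1 _ h3 _
    rw [zero_mul] at h3
    have : G.dist y c' = 0 := by
      rcases Nat.mul_eq_zero.1 (Nat.le_zero.1 h3) with h | h
      · omega
      · exact h
    omega
  | succ k ih =>
    intro M B y hPos hAt h1 h2 h3 h4
    have hd : G.dist y₀ y ≤ 3 * p := by
      have := hP.conn.dist_triangle (u := y₀) (v := c') (w := y)
      rw [SimpleGraph.dist_comm (u := c')] at this
      omega
    have hloc : (vert (M ∪ B) ∩ bl G y (8 * p)).card ≤ Λ * p := by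
      rw [← stSpace_cnt hP]
      have : (stSpace hP).cnt (vert (M ∪ B)) y (8 * p) ≤
          (stSpace hP).cnt (vert (M ∪ B)) y₀ (16 * p) := by
        apply Space.cnt_mono_rad
        change G.dist y₀ y + 8 * p ≤ 16 * p
        omega
      omega
    have hst := htu M B y c' hPos hAt hloc (by omega) (by omega)
    refine (((hst.strong hPos).mono ?_) : Step G v₀ p q M B (Force G v₀ p q _)).force
    rintro M' B' ⟨⟨y', hAt', hcl, -⟩, hPos', hsub, hcard⟩
    by_cases harr : 4 * G.dist y' c' ≤ p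
    · refine Force.base _ _ ⟨y', hAt', hPos', hsub, hcard.trans ?_, harr⟩
      have e : (k + 1) * (2 * (p + q)) = k * (2 * (p + q)) + 2 * (p + q) := by ring
      omega
    · push Not at harr
      have hlt : G.dist y' c' ≤ G.dist y c' := by
        have : T * G.dist y' c' ≤ T * G.dist y c' := by omega
        exact Nat.le_of_mul_le_mul_left this hT
      have hcnt : (stSpace hP).cnt (vert (M' ∪ B')) y₀ (16 * p) ≤
          (stSpace hP).cnt (vert (M ∪ B)) y₀ (16 * p) + 2 * (p + q) := by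
        have := (stSpace hP).cnt_add hsub (b := 2 * (p + q)) (by exact_mod_cast hcard) y₀ (16 * p)
        exact_mod_cast this
      have e : (k + 1) * (2 * (p + q)) = k * (2 * (p + q)) + 2 * (p + q) := by ring
      have e' : (k + 1) * p = k * p + p := by ring
      refine (ih M' B' y' hPos' hAt' harr (by omega) (by omega) (by omega)).mono ?_
      rintro M'' B'' ⟨y'', h5, h6, h7, h8, h9⟩
      exact ⟨y'', h5, h6, hsub.trans h7, by omega, h9⟩

/-- the claim of level zero -/
lemma claim_zero {T Λ : ℕ} (hT : 0 < T) (htu : TurnHyp G v₀ p q T Λ At) {lam β : ℝ} {n3 : ℕ}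
    (hn3 : 1 ≤ n3) (hΛ : β + (T + 1) * (2 * (p + q)) ≤ Λ * p) :
    Claim hP v₀ p q At lam β n3 0 ((T + 1) * (2 * (p + q))) := by
  intro M B y c' hPos hAt hst hyc
  have hc := hst.2
  rw [pow_zero, one_mul, zero_add] at hc
  rw [pow_zero, one_mul] at hyc
  have hcn : (stSpace hP).cnt (vert (M ∪ B)) y (16 * p) + (T + 1) * (2 * (p + q)) ≤ Λ * p := by
    have h1 : ((stSpace hP).cnt (vert (M ∪ B)) y (16 * p) : ℝ) + (T + 1) * (2 * (p + q)) ≤
        Λ * p := by
      have e : (2 : ℕ) ^ 4 * p = 16 * p := by norm_num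
      rw [e] at hc
      linarith
    exact_mod_cast h1
  have hloc : (vert (M ∪ B) ∩ bl G y (8 * p)).card ≤ Λ * p := by
    rw [← stSpace_cnt hP]
    have : (stSpace hP).cnt (vert (M ∪ B)) y (8 * p) ≤
        (stSpace hP).cnt (vert (M ∪ B)) y (16 * p) := by
      apply Space.cnt_mono_rad
      change G.dist y y + 8 * p ≤ 16 * p
      rw [SimpleGraph.dist_self]
      omega
    have h0 : 0 ≤ (T + 1) * (2 * (p + q)) := Nat.zero_le _
    omega
  have e1 : (T + 1) * (2 * (p + q)) = T * (2 * (p + q)) + 2 * (p + q) := by ring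
  by_cases hfar : p ≤ 8 * G.dist y c'
  · have hs := (htu M B y c' hPos hAt hloc hfar (by omega)).strong hPos
    refine hs.mono ?_
    rintro M' B' ⟨⟨y', hAt', hcl, -⟩, hPos', hsub, hcard⟩
    have hlt : G.dist y' c' ≤ G.dist y c' := by
      have : T * G.dist y' c' ≤ T * G.dist y c' := by omega
      exact Nat.le_of_mul_le_mul_left this hT
    by_cases harr : 4 * G.dist y' c' ≤ p
    · refine Force.base _ _ ⟨y', hAt', hPos', hsub, ?_, by rw [pow_zero, one_mul]; exact harr,
        fun i hi => by omega⟩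
      have : (vert (M' ∪ B')).card ≤ (vert (M ∪ B)).card + (T + 1) * (2 * (p + q)) := by omega
      exact_mod_cast this
    · push Not at harr
      have hcnt : (stSpace hP).cnt (vert (M' ∪ B')) y (16 * p) ≤
          (stSpace hP).cnt (vert (M ∪ B)) y (16 * p) + 2 * (p + q) := by
        have := (stSpace hP).cnt_add hsub (b := 2 * (p + q)) (by exact_mod_cast hcard) y (16 * p)
        exact_mod_cast this
      refine (iter (hP := hP) hT htu y c' hyc T M' B' y' hPos' hAt' harr (by omega)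
        (Nat.mul_le_mul_left _ (by omega)) (by omega)).mono ?_
      rintro M'' B'' ⟨y'', h5, h6, h7, h8, h9⟩
      refine ⟨y'', h5, h6, hsub.trans h7, ?_, by rw [pow_zero, one_mul]; exact h9,
        fun i hi => by omega⟩
      have : (vert (M'' ∪ B'')).card ≤ (vert (M ∪ B)).card + (T + 1) * (2 * (p + q)) := by omega
      exact_mod_cast this
  · push Not at hfar
    obtain ⟨a, ha⟩ := hP.exists_dist_eq y p
    have hs := (htu M B y a hPos hAt hloc (by omega) (by omega)).strong hPos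
    refine hs.mono ?_
    rintro M' B' ⟨⟨y', hAt', -, hnear⟩, hPos', hsub, hcard⟩
    refine Force.base _ _ ⟨y', hAt', hPos', hsub, ?_, ?_, fun i hi => by omega⟩
    · have h0 : 0 ≤ T * (2 * (p + q)) := Nat.zero_le _
      have : (vert (M' ∪ B')).card ≤ (vert (M ∪ B)).card + (T + 1) * (2 * (p + q)) := by omega
      exact_mod_cast this
    · rw [pow_zero, one_mul]
      have h1 := hP.conn.dist_triangle (u := y') (v := y) (w := c')
      have h2 : G.dist y' y = G.dist y y' := SimpleGraph.dist_comm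
      omega

/-- going along a chain -/
lemma along {lam β b : ℝ} {n3 n N : ℕ} (hc : Space.Cst K C lam n3 n) (hβ : 0 < β) (hb : 0 ≤ b)
    (hcl : Claim hP v₀ p q At lam β n3 N b) (M B : Finset (Sym2 V)) (y : V)
    (hPos : Pos G M B) (hAt : At M B y)
    (hst : (stSpace hP).Start lam β n3 p (N + n) (vert (M ∪ B)) y)
    (hbm : (2 : ℝ) ^ (n + 5) * b ≤ lam / 2 * (5 / 2 : ℝ) ^ N * β) :
    ∀ (k : ℕ) (w : V), (stSpace hP).Chain (2 ^ N * p / 2) (2 ^ (N + 5) * p)
      ((5 / 2 : ℝ) ^ N * β / 2) (vert (M ∪ B)) k y w → k ≤ 2 ^ (n + 5) →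
      Force G v₀ p q (fun M' B' => ∃ y', At M' B' y' ∧ Pos G M' B' ∧
        vert (M ∪ B) ⊆ vert (M' ∪ B') ∧
        ((vert (M' ∪ B')).card : ℝ) ≤ (vert (M ∪ B)).card + k * b ∧
        4 * G.dist y' w ≤ 2 ^ N * p ∧
        (stSpace hP).Start lam β n3 p N (vert (M' ∪ B')) y') M B := by
  have hlam := hc.lam_pos
  have hlam1 : lam ≤ 1 := by
    have h1 := hc.c1
    have h2 : (1 : ℝ) ≤ (5 / 2 : ℝ) ^ (6 + n3) := one_le_pow₀ (by norm_num)
    nlinarith
  have hTN : (0 : ℝ) < (5 / 2 : ℝ) ^ N * β := by positivity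
  intro k w hch
  induction hch with
  | refl y ha =>
    intro _
    refine Force.base _ _ ⟨y, hAt, hPos, subset_rfl, by simp, by simp, ?_, ?_⟩
    · intro i hi
      exact hst.1 i (by omega)
    · have h1 : (stSpace hP).cnt (vert (M ∪ B)) y (2 ^ (N + 4) * p) ≤
          (stSpace hP).cnt (vert (M ∪ B)) y (2 ^ (N + 5) * p) := by
        apply Space.cnt_mono_rad
        change G.dist y y + _ ≤ _
        rw [SimpleGraph.dist_self, zero_add]
        apply Nat.mul_le_mul_right
        exact Nat.pow_le_pow_right (by norm_num) (by omega)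
      have h2 : ((stSpace hP).cnt (vert (M ∪ B)) y (2 ^ (N + 4) * p) : ℝ) ≤
          (stSpace hP).cnt (vert (M ∪ B)) y (2 ^ (N + 5) * p) := by exact_mod_cast h1
      linarith
  | snoc k y b' c hab hbc hcc ih =>
    intro hk
    have ih := ih hAt hst (by omega)
    refine ih.trans ?_
    rintro M' B' ⟨y', hAt', hPos', hsub, hcard, hdist, hst'⟩
    have hbc' : G.dist b' c ≤ 2 ^ N * p / 2 := hbc
    have hyc : G.dist y' c ≤ 2 ^ N * p := by
      have := hP.conn.dist_triangle (u := y') (v := b') (w := c)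
      omega
    refine (hcl M' B' y' c hPos' hAt' hst' hyc).force.mono ?_
    rintro M'' B'' ⟨y'', hAt'', hPos'', hsub'', hcard'', hdist'', hcnt''⟩
    have hcard3 : ((vert (M'' ∪ B'')).card : ℝ) ≤ (vert (M ∪ B)).card + ((k + 1 : ℕ) : ℝ) * b := by
      push_cast
      linarith
    refine ⟨y'', hAt'', hPos'', hsub.trans hsub'', hcard3, hdist'', ?_, ?_⟩
    · intro i hi
      refine (hcnt'' i hi).trans ?_
      have : 0 ≤ lam * (5 / 2 : ℝ) ^ (i + n3) * β := by positivity
      linarith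
    · have h1 := (stSpace hP).cnt_add (hsub.trans hsub'') hcard3 y'' (2 ^ (N + 4) * p)
      have h2 : (stSpace hP).cnt (vert (M ∪ B)) y'' (2 ^ (N + 4) * p) ≤
          (stSpace hP).cnt (vert (M ∪ B)) c (2 ^ (N + 5) * p) := by
        apply Space.cnt_mono_rad
        change G.dist c y'' + _ ≤ _
        rw [SimpleGraph.dist_comm]
        have e1 : 2 ^ (N + 4) * p = 16 * (2 ^ N * p) := by ring
        have e2 : 2 ^ (N + 5) * p = 32 * (2 ^ N * p) := by ring
        omega
      have h3 : ((stSpace hP).cnt (vert (M ∪ B)) y'' (2 ^ (N + 4) * p) : ℝ) ≤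
          (stSpace hP).cnt (vert (M ∪ B)) c (2 ^ (N + 5) * p) := by exact_mod_cast h2
      have h4 : ((k + 1 : ℕ) : ℝ) * b ≤ (2 : ℝ) ^ (n + 5) * b := by
        apply mul_le_mul_of_nonneg_right _ hb
        exact_mod_cast hk
      have h5 : lam / 2 * (5 / 2 : ℝ) ^ N * β ≤ (5 / 2 : ℝ) ^ N * β / 2 := by
        rw [show lam / 2 * (5 / 2 : ℝ) ^ N * β = lam * ((5 / 2 : ℝ) ^ N * β / 2) by ring]
        have : 0 < (5 / 2 : ℝ) ^ N * β / 2 := by positivity
        nlinarith
      linarith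

/-- from level `N` to level `N + n` -/
lemma claim_succ {lam β b : ℝ} {n3 n N : ℕ} (hc : Space.Cst K C lam n3 n) (hβ : 0 < β)
    (hb : 0 ≤ b) (hp : 2 ≤ p) (hcl : Claim hP v₀ p q At lam β n3 N b)
    (hbm : (2 : ℝ) ^ (n + 5) * b ≤ lam / 2 * (5 / 2 : ℝ) ^ N * β) :
    Claim hP v₀ p q At lam β n3 (N + n) (2 ^ (n + 5) * b) := by
  intro M B y c' hPos hAt hst hyc
  have hlam := hc.lam_pos
  have hn := hc.n_ge
  have hn3 := hc.n3_ge
  obtain ⟨w, hch, hwc, hgood⟩ := Space.exists_good_chain (stSpace_gr hP) hc hβ hp hst c' hyc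
  have hwc' : G.dist c' w ≤ 2 ^ (N + n - 3) * p := hwc
  obtain ⟨m, hm⟩ : ∃ m, 2 ^ (n + 5) = m + 1 := by
    have : 0 < 2 ^ (n + 5) := by positivity
    exact ⟨2 ^ (n + 5) - 1, by omega⟩
  rw [hm] at hch
  have hm' : ((m + 1 : ℕ) : ℝ) = 2 ^ (n + 5) := by rw [← hm]; push_cast; rfl
  cases hch with
  | snoc _ _ b' _ hab hbc hcc =>
    have hF := along hc hβ hb hcl M B y hPos hAt hst hbm m b' hab (by omega)
    refine hF.bind ?_
    rintro M' B' ⟨y', hAt', hPos', hsub, hcard, hdist, hst'⟩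
    have hbc' : G.dist b' w ≤ 2 ^ N * p / 2 := hbc
    have hyc : G.dist y' w ≤ 2 ^ N * p := by
      have := hP.conn.dist_triangle (u := y') (v := b') (w := w)
      omega
    refine (hcl M' B' y' w hPos' hAt' hst' hyc).mono ?_
    intro M1 B1 hF1
    refine hF1.mono ?_
    rintro M'' B'' ⟨y'', hAt'', hPos'', hsub'', hcard'', hdist'', hcnt''⟩
    have hcard3 : ((vert (M'' ∪ B'')).card : ℝ) ≤
        (vert (M ∪ B)).card + (2 : ℝ) ^ (n + 5) * b := by
      rw [← hm']
      push_cast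
      linarith
    refine ⟨y'', hAt'', hPos'', hsub.trans hsub'', hcard3, ?_, ?_⟩
    · have h1 := hP.conn.dist_triangle (u := y'') (v := w) (w := c')
      rw [SimpleGraph.dist_comm (u := w)] at h1
      have e1 : 2 ^ (N + n) * p = 8 * (2 ^ (N + n - 3) * p) := by
        have : 2 ^ (N + n) = 8 * 2 ^ (N + n - 3) := by
          rw [show (8 : ℕ) = 2 ^ 3 by norm_num, ← pow_add]; congr 1; omega
        rw [this]; ring
      have e2 : 2 ^ N * p ≤ 2 ^ (N + n - 3) * p := by
        apply Nat.mul_le_mul_right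
        exact Nat.pow_le_pow_right (by norm_num) (by omega)
      omega
    · intro i hi
      by_cases hi' : i + n3 ≤ N
      · exact hcnt'' i hi'
      · push Not at hi'
        have h1 := (stSpace hP).cnt_add (hsub.trans hsub'') hcard3 y'' (2 ^ i * p)
        have h2 : (stSpace hP).cnt (vert (M ∪ B)) y'' (2 ^ i * p) ≤
            (stSpace hP).cnt (vert (M ∪ B)) w (2 ^ (max i N + 1) * p) := by
          apply Space.cnt_mono_rad
          change G.dist w y'' + _ ≤ _
          rw [SimpleGraph.dist_comm]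
          have e1 : 2 ^ i * p ≤ 2 ^ (max i N) * p := by
            apply Nat.mul_le_mul_right
            exact Nat.pow_le_pow_right (by norm_num) (le_max_left _ _)
          have e2 : 2 ^ N * p ≤ 2 ^ (max i N) * p := by
            apply Nat.mul_le_mul_right
            exact Nat.pow_le_pow_right (by norm_num) (le_max_right _ _)
          have e3 : 2 ^ (max i N + 1) * p = 2 * (2 ^ (max i N) * p) := by ring
          omega
        have h3 : ((stSpace hP).cnt (vert (M ∪ B)) y'' (2 ^ i * p) : ℝ) ≤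
            (stSpace hP).cnt (vert (M ∪ B)) w (2 ^ (max i N + 1) * p) := by exact_mod_cast h2
        have h4 := hgood (max i N) (le_max_right _ _) (by omega)
        have h5 : (5 / 2 : ℝ) ^ (max i N) ≤ (5 / 2 : ℝ) ^ (i + n3) :=
          pow_le_pow_right₀ (by norm_num) (by omega)
        have h6 : (5 / 2 : ℝ) ^ N ≤ (5 / 2 : ℝ) ^ (i + n3) :=
          pow_le_pow_right₀ (by norm_num) (by omega)
        have h7 : lam / 2 * (5 / 2 : ℝ) ^ (max i N) * β ≤
            lam / 2 * (5 / 2 : ℝ) ^ (i + n3) * β := by gcongr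
        have h8 : lam / 2 * (5 / 2 : ℝ) ^ N * β ≤ lam / 2 * (5 / 2 : ℝ) ^ (i + n3) * β := by
          gcongr
        have h9 : ((stSpace hP).cnt (vert (M ∪ B)) w (2 ^ (max i N + 1) * p) : ℝ) ≤
            lam / 2 * (5 / 2 : ℝ) ^ (max i N) * β := h4
        linarith

theorem steering (hP : PolyG G d K C v) (T κ' : ℕ) (hT : 0 < T) :
    ∃ Λ p₁ : ℕ, ∀ p q : ℕ, p₁ ≤ p → q ≤ κ' * p →
      ∀ (v₀ : V) (At : Finset (Sym2 V) → Finset (Sym2 V) → V → Prop), At ∅ ∅ v₀ →
        TurnHyp G v₀ p q T Λ At → MakerWins G v₀ p q := by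
  obtain ⟨lam, n3, n, hc, hpow⟩ := Space.exists_cst K C
  have hlam := hc.lam_pos
  have hn3 := hc.n3_ge
  have hn := hc.n_ge
  -- `β = βs * p`
  set βs : ℝ := 2 * 2 ^ (n + 5) / lam * ((T + 1) * (2 * (1 + κ'))) with hβs
  have hβs0 : 0 < βs := by positivity
  refine ⟨⌈βs⌉₊ + (T + 1) * (2 * (1 + κ')), 2, ?_⟩
  intro p q hp hq v₀ At hAt0 htu
  have hp0 : (0 : ℝ) < p := by exact_mod_cast (show 0 < p by omega)
  set β : ℝ := βs * p with hβ
  have hβ0 : 0 < β := by positivity
  set b0 : ℝ := (T + 1) * (2 * (p + q)) with hb0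
  have hb0' : 0 ≤ b0 := by positivity
  have hqr : (q : ℝ) ≤ κ' * p := by exact_mod_cast hq
  have hb0le : b0 ≤ (T + 1) * (2 * (1 + κ')) * p := by
    rw [hb0]
    have : (p : ℝ) + q ≤ (1 + κ') * p := by linarith
    calc ((T : ℝ) + 1) * (2 * (p + q)) ≤ (T + 1) * (2 * ((1 + κ') * p)) := by gcongr
      _ = _ := by ring
  have hbm0 : (2 : ℝ) ^ (n + 5) * b0 ≤ lam / 2 * β := by
    have e : lam / 2 * β = 2 ^ (n + 5) * ((T + 1) * (2 * (1 + κ')) * p) := by
      rw [hβ, hβs]; field_simp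
    rw [e]
    exact mul_le_mul_of_nonneg_left hb0le (by positivity)
  -- the level bounds
  set b : ℕ → ℝ := fun j => ((2 : ℝ) ^ (n + 5)) ^ j * b0 with hb
  have hbnn : ∀ j, 0 ≤ b j := fun j => by rw [hb]; positivity
  have hbs : ∀ j, b (j + 1) = 2 ^ (n + 5) * b j := fun j => by
    simp only [hb]; rw [pow_succ ((2 : ℝ) ^ (n + 5)) j]; ring
  have hbm : ∀ j, (2 : ℝ) ^ (n + 5) * b j ≤ lam / 2 * (5 / 2 : ℝ) ^ (n * j) * β := by
    intro j
    have h1 : ((2 : ℝ) ^ (n + 5)) ^ j ≤ ((5 / 2 : ℝ) ^ n) ^ j :=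
      pow_le_pow_left₀ (by positivity) hpow j
    calc (2 : ℝ) ^ (n + 5) * b j = ((2 : ℝ) ^ (n + 5)) ^ j * (2 ^ (n + 5) * b0) := by
          simp only [hb]; ring
      _ ≤ ((5 / 2 : ℝ) ^ n) ^ j * (lam / 2 * β) := by gcongr
      _ = lam / 2 * (5 / 2 : ℝ) ^ (n * j) * β := by rw [← pow_mul]; ring
  have hclaim : ∀ j, Claim hP v₀ p q At lam β n3 (n * j) (b j) := by
    intro j
    induction j with
    | zero =>
      have h1 := claim_zero (hP := hP) (lam := lam) (β := β) (n3 := n3) hT htu (by omega) (by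
        push_cast
        have h2 : βs ≤ ⌈βs⌉₊ := Nat.le_ceil _
        have h3 : β ≤ ⌈βs⌉₊ * p := by rw [hβ]; gcongr
        have h4 : ((⌈βs⌉₊ : ℝ) + (T + 1) * (2 * (1 + κ'))) * p =
          ⌈βs⌉₊ * p + (T + 1) * (2 * (1 + κ')) * p := by ring
        rw [h4]
        have h5 : ((T : ℝ) + 1) * (2 * (p + q)) ≤ (T + 1) * (2 * (1 + κ')) * p := hb0le
        linarith)
      have e : b 0 = (T + 1) * (2 * (p + q)) := by simp [hb, hb0]
      rw [mul_zero, e]
      exact h1
    | succ j ih =>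
      rw [hbs, mul_add, mul_one]
      exact claim_succ hc hβ0 (hbnn j) hp ih (hbm j)
  -- the set of positions
  refine makerWins_of_force hP.edge_infinite v₀ p q
    (fun M B => ∃ (j : ℕ) (y : V), At M B y ∧
      (stSpace hP).Start lam β n3 p (n * j) (vert (M ∪ B)) y ∧
      ((vert (M ∪ B)).card : ℝ) ≤ b j) ?_ ?_
  · refine ⟨0, v₀, hAt0, ⟨fun i hi => by omega, ?_⟩, ?_⟩
    · have : (stSpace hP).cnt (vert (∅ ∪ ∅ : Finset (Sym2 V))) v₀ (2 ^ (n * 0 + 4) * p) = 0 := by
        simp [Space.cnt, vert]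
      rw [this]
      push_cast
      positivity
    · have : (vert (∅ ∪ ∅ : Finset (Sym2 V))).card = 0 := by simp [vert]
      rw [this]
      push_cast
      exact hbnn 0
  · rintro M B hPos ⟨j, y, hAt, hst, hcard⟩
    refine (hclaim j M B y y hPos hAt hst (by simp)).mono ?_
    intro M1 B1 hF
    refine hF.mono ?_
    rintro M' B' ⟨y', hAt', hPos', hsub, hcard', -, hcnt⟩
    have h2p : (2 : ℝ) ≤ 2 ^ (n + 5) := by
      calc (2 : ℝ) = 2 ^ 1 := by norm_num
        _ ≤ 2 ^ (n + 5) := pow_le_pow_right₀ (by norm_num) (by omega)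
    have hcard2 : ((vert (M' ∪ B')).card : ℝ) ≤ b (j + 1) := by
      rw [hbs]
      have := hbnn j
      nlinarith
    have hcard3 : ((vert (M' ∪ B')).card : ℝ) ≤ lam / 2 * (5 / 2 : ℝ) ^ (n * j) * β := by
      rw [hbs] at hcard2
      exact hcard2.trans (hbm j)
    have hle : ∀ r, ((stSpace hP).cnt (vert (M' ∪ B')) y' r : ℝ) ≤
        lam / 2 * (5 / 2 : ℝ) ^ (n * j) * β := by
      intro r
      refine le_trans ?_ hcard3
      exact_mod_cast (stSpace hP).cnt_le_card _ _ _
    have hlam1 : lam ≤ 1 := by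
      have h1 := hc.c1
      have h2 : (1 : ℝ) ≤ (5 / 2 : ℝ) ^ (6 + n3) := one_le_pow₀ (by norm_num)
      nlinarith
    refine ⟨j + 1, y', hAt', ⟨?_, ?_⟩, hcard2⟩
    · intro i hi
      by_cases hi' : i + n3 ≤ n * j
      · refine (hcnt i hi').trans ?_
        have : 0 ≤ lam * (5 / 2 : ℝ) ^ (i + n3) * β := by positivity
        linarith
      · push Not at hi'
        refine (hle _).trans ?_
        have h5 : (5 / 2 : ℝ) ^ (n * j) ≤ (5 / 2 : ℝ) ^ (i + n3) :=
          pow_le_pow_right₀ (by norm_num) (by omega)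
        calc lam / 2 * (5 / 2 : ℝ) ^ (n * j) * β ≤ lam / 2 * (5 / 2 : ℝ) ^ (i + n3) * β := by gcongr
          _ ≤ 2 * lam * (5 / 2 : ℝ) ^ (i + n3) * β := by
              gcongr
              linarith
    · refine (hle _).trans ?_
      have h5 : (5 / 2 : ℝ) ^ (n * j) ≤ (5 / 2 : ℝ) ^ (n * (j + 1)) :=
        pow_le_pow_right₀ (by norm_num) (by rw [mul_add]; omega)
      calc lam / 2 * (5 / 2 : ℝ) ^ (n * j) * β ≤ 1 * (5 / 2 : ℝ) ^ (n * (j + 1)) * β := by
            gcongr
            linarith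
        _ = _ := by ring

end Pool.Agent.Helper22.PG
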