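import Pool.Agent.Helper22.PG.Loc

/-! Subquadratic growth: the critical bias is `0`. Positivity of the capacity for growth of
degree at least `3`. -/

namespace Pool.Agent.Helper22.PG

open Finset Filter Pool.Agent.Helper30.Perc

variable {V : Type} [DecidableEq V] {G : SimpleGraph V} [G.LocallyFinite]

/-- the smaller of the distances of the two endpoints of an edge from `o` -/
noncomputable def lowDist (G : SimpleGraph V) (o : V) : Sym2 V → ℕ :=
  Sym2.lift ⟨fun a b => min (G.dist o a) (G.dist o b), fun _ _ => min_comm _ _⟩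

lemma adm_ball_of_not_mem (hconn : G.Connected) (o : V) (M : Finset (Sym2 V))
    (hM : (M : Set (Sym2 V)) ⊆ G.edgeSet) (r : ℕ) (hr : r ∉ M.image (lowDist G o)) :
    Adm o M (bl G o r) := by
  refine ⟨self_mem_bl o r, ?_⟩
  intro a b hab ha
  by_contra hb
  apply hr
  rw [mem_image]
  refine ⟨s(a, b), hab, ?_⟩
  rw [mem_bl hconn] at ha hb
  have hadj : G.Adj a b := by simpa using hM (mem_coe.2 hab)
  have h1 := hconn.dist_triangle (u := o) (v := a) (w := b)
  have h2 : G.dist a b = 1 := SimpleGraph.dist_eq_one_iff_adj.2 hadj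
  show min (G.dist o a) (G.dist o b) = r
  omega

lemma cut_ball_le (hconn : G.Connected) {d : ℕ} (hd : ∀ x, (G.neighborFinset x).card ≤ d)
    (o : V) (r : ℕ) :
    cut G (bl G o r) ≤ d * ((bl G o r).filter fun x => G.dist o x = r).card := by
  unfold cut
  rw [card_filter, mul_sum]
  refine sum_le_sum fun a ha => ?_
  by_cases h : G.dist o a = r
  · rw [if_pos h, mul_one]
    exact (card_le_card sdiff_subset).trans (hd a)
  · rw [if_neg h, mul_zero, Nat.le_zero, card_eq_zero, sdiff_eq_empty_iff_subset]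
    intro b hb
    rw [SimpleGraph.mem_neighborFinset] at hb
    rw [mem_bl hconn] at ha ⊢
    have h1 := hconn.dist_triangle (u := o) (v := a) (w := b)
    have h2 : G.dist a b = 1 := SimpleGraph.dist_eq_one_iff_adj.2 hb
    omega

/-- Breaker finds a cheap sphere that Maker does not cross. -/
lemma exists_sphere (hconn : G.Connected) {d : ℕ} (hd : ∀ x, (G.neighborFinset x).card ≤ d)
    (o : V) (p : ℕ) (M : Finset (Sym2 V)) (hM : (M : Set (Sym2 V)) ⊆ G.edgeSet)
    (hMc : M.card ≤ p) (hp : 0 < p) :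
    ∃ W : Finset V, Adm o M W ∧ p * cut G W ≤ d * (bl G o (2 * p)).card := by
  set S := range (2 * p) \ M.image (lowDist G o) with hS
  have hSc : p ≤ S.card := by
    have h1 : (range (2 * p)).card ≤ S.card + (M.image (lowDist G o)).card := by
      rw [hS]
      have := le_card_sdiff (M.image (lowDist G o)) (range (2 * p))
      omega
    rw [card_range] at h1
    have h2 : (M.image (lowDist G o)).card ≤ M.card := card_image_le
    omega
  have hne : S.Nonempty := card_pos.1 (by omega)
  obtain ⟨r, hr, hmin⟩ := S.exists_min_image (fun r => cut G (bl G o r)) hne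
  have hr' := (mem_sdiff.1 hr)
  refine ⟨bl G o r, adm_ball_of_not_mem hconn o M hM r hr'.2, ?_⟩
  have h1 : S.card * cut G (bl G o r) ≤ ∑ r' ∈ S, cut G (bl G o r') := by
    rw [← smul_eq_mul, ← sum_const]
    exact sum_le_sum hmin
  have h2 : ∑ r' ∈ S, cut G (bl G o r') ≤
      d * ∑ r' ∈ S, ((bl G o (2 * p)).filter fun x => G.dist o x = r').card := by
    rw [mul_sum]
    refine sum_le_sum fun r' hr' => (cut_ball_le hconn hd o r').trans ?_
    refine Nat.mul_le_mul_left _ (card_le_card ?_)
    intro x hx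
    rw [mem_filter, mem_bl hconn] at hx ⊢
    have := mem_range.1 (mem_sdiff.1 hr').1
    omega
  have h3 : ∑ r' ∈ S, ((bl G o (2 * p)).filter fun x => G.dist o x = r').card ≤
      (bl G o (2 * p)).card := by
    rw [← card_biUnion]
    · refine card_le_card ?_
      intro x hx
      rw [mem_biUnion] at hx
      obtain ⟨r', -, hx⟩ := hx
      exact (mem_filter.1 hx).1
    · intro a _ b _ hab
      rw [Function.onFun, disjoint_left]
      intro x hx hx'
      exact hab ((mem_filter.1 hx).2.symm.trans (mem_filter.1 hx').2)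
  calc p * cut G (bl G o r) ≤ S.card * cut G (bl G o r) := Nat.mul_le_mul_right _ hSc
    _ ≤ _ := h1.trans (h2.trans (Nat.mul_le_mul_left _ h3))

omit [G.LocallyFinite] in
lemma edge_infinite_of (hinf : Infinite V) (hconn : G.Connected) : G.edgeSet.Infinite := by
  intro hfin
  obtain ⟨o⟩ : Nonempty V := inferInstance
  have h1 : (Set.univ : Set V) ⊆ (insert o (vert hfin.toFinset) : Finset V) := by
    intro x _
    rw [mem_coe, mem_insert, mem_vert]
    by_cases hx : x = o
    · exact Or.inl hx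
    · right
      obtain ⟨w⟩ := hconn.preconnected x o
      cases w with
      | nil => exact absurd rfl hx
      | @cons _ y _ hadj _ =>
        exact ⟨s(x, y), by rw [Set.Finite.mem_toFinset]; simpa using hadj, by simp⟩
  exact Set.infinite_univ ((finite_toSet _).subset h1)

/-- Subquadratic growth: the critical bias is `0`. -/
theorem subquadratic (hinf : Infinite V) (hconn : G.Connected)
    (htrans : ∀ u v : V, ∃ φ : G ≃g G, φ u = v) (o : V) (D c₂ : ℝ) (hD : D < 2)
    (hgr : ∀ r : ℕ, 1 ≤ r → ((bl G o r).card : ℝ) ≤ c₂ * (r : ℝ) ^ D) :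
    (∀ v₀ : V, Tendsto (fun p : ℕ => (maxCap G v₀ p : ℝ) / (p : ℝ)) atTop (nhds 0)) ∧
      ∀ ε : ℝ, 0 < ε → ∃ p₀ : ℕ, ∀ p q : ℕ, p₀ ≤ p → ∀ v₀ : V,
        ((0 + ε) * (p : ℝ) < (q : ℝ) → BreakerWins G v₀ p q) ∧
        ((q : ℝ) < (0 - ε) * (p : ℝ) → MakerWins G v₀ p q) := by
  have hE := edge_infinite_of hinf hconn
  have hvol : ∀ x r, (bl G x r).card = (bl G o r).card := by
    have hle : ∀ x y r, (bl G x r).card ≤ (bl G y r).card := by
      intro x y r
      obtain ⟨φ, rfl⟩ := htrans x y
      refine card_le_card_of_injOn φ ?_ φ.injective.injOn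
      intro w hw
      rw [mem_coe] at hw ⊢
      rwa [map_mem_bl hconn]
    exact fun x r => le_antisymm (hle _ _ _) (hle _ _ _)
  have hd : ∀ x, (G.neighborFinset x).card ≤ (G.neighborFinset o).card := by
    intro x
    obtain ⟨φ, rfl⟩ := htrans x o
    refine card_le_card_of_injOn φ ?_ φ.injective.injOn
    intro w hw
    rw [mem_coe, SimpleGraph.mem_neighborFinset] at hw ⊢
    exact φ.map_rel_iff.2 hw
  set d := (G.neighborFinset o).card with hdd
  have hc₂ : 0 < c₂ := by
    have h1 := hgr 1 le_rfl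
    rw [Nat.cast_one, Real.one_rpow, mul_one] at h1
    have h2 : 0 < (bl G o 1).card := card_pos.2 ⟨o, self_mem_bl o 1⟩
    have h3 : (0 : ℝ) < (bl G o 1).card := by exact_mod_cast h2
    linarith
  -- the cheap cuts
  have key : ∀ ε : ℝ, 0 < ε → ∃ p₀ : ℕ, ∀ p : ℕ, p₀ ≤ p → ∀ v₀ : V, ∀ M : Finset (Sym2 V),
      (M : Set (Sym2 V)) ⊆ G.edgeSet → M.card ≤ p →
      ∃ W : Finset V, Adm v₀ M W ∧ (cut G W : ℝ) < ε * p := by
    intro ε hε
    have h1 : Tendsto (fun p : ℕ => (d * c₂ * (2 : ℝ) ^ D) * ((p : ℝ) ^ (-(2 - D)))) atTop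
        (nhds ((d * c₂ * (2 : ℝ) ^ D) * 0)) :=
      ((tendsto_rpow_neg_atTop (by linarith : 0 < 2 - D)).comp
        tendsto_natCast_atTop_atTop).const_mul _
    rw [mul_zero] at h1
    obtain ⟨p₁, hp₁⟩ := eventually_atTop.1 (h1.eventually (gt_mem_nhds hε))
    refine ⟨max p₁ 1, ?_⟩
    intro p hp v₀ M hM hMc
    have hp0 : 0 < p := (le_max_right p₁ 1).trans hp
    have hpR : (0 : ℝ) < p := by exact_mod_cast hp0
    obtain ⟨W, hW, hWc⟩ := exists_sphere hconn hd v₀ p M hM hMc hp0
    refine ⟨W, hW, ?_⟩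
    rw [hvol] at hWc
    have h2 := hgr (2 * p) (by omega)
    have h3 : (p : ℝ) * cut G W ≤ d * (bl G o (2 * p)).card := by exact_mod_cast hWc
    have h4 : ((2 * p : ℕ) : ℝ) ^ D = 2 ^ D * (p : ℝ) ^ D := by
      push_cast
      exact Real.mul_rpow (by norm_num) (by positivity)
    have h5 := hp₁ p ((le_max_left p₁ 1).trans hp)
    have h6 : (p : ℝ) ^ D = (p : ℝ) ^ (-(2 - D)) * p ^ 2 := by
      rw [← Real.rpow_natCast, ← Real.rpow_add hpR]
      congr 1
      push_cast
      ring
    rw [h4] at h2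
    have h7 : (p : ℝ) * cut G W < p * (ε * p) := by
      calc (p : ℝ) * cut G W ≤ d * (bl G o (2 * p)).card := h3
        _ ≤ d * (c₂ * (2 ^ D * (p : ℝ) ^ D)) := mul_le_mul_of_nonneg_left h2 (by positivity)
        _ = ((d * c₂ * (2 : ℝ) ^ D) * ((p : ℝ) ^ (-(2 - D)))) * p ^ 2 := by rw [h6]; ring
        _ < ε * p ^ 2 := mul_lt_mul_of_pos_right h5 (by positivity)
        _ = p * (ε * p) := by ring
    exact lt_of_mul_lt_mul_left h7 hpR.le
  constructor
  · intro v₀
    rw [Metric.tendsto_atTop]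
    intro ε hε
    obtain ⟨p₀, hp₀⟩ := key ε hε
    refine ⟨max p₀ 1, ?_⟩
    intro p hp
    have hp0 : 0 < p := (le_max_right p₀ 1).trans hp
    have hpR : (0 : ℝ) < p := by exact_mod_cast hp0
    obtain ⟨M, hM1, hM2, hM3⟩ := (capGE_iff G d hd hE v₀ p (maxCap G v₀ p)).2 le_rfl
    obtain ⟨W, hW, hWc⟩ := hp₀ p ((le_max_left p₀ 1).trans hp) v₀ M hM1 hM2.le
    have h1 := (hM3 W hW).trans_lt hWc
    rw [Real.dist_eq, sub_zero, abs_of_nonneg (by positivity), div_lt_iff₀ hpR]
    exact h1
  · intro ε hε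
    obtain ⟨p₀, hp₀⟩ := key ε hε
    refine ⟨p₀, ?_⟩
    intro p q hp v₀
    constructor
    · intro hq
      refine breakerWins_of_cut G hE v₀ p q ?_
      intro X hX hXE
      obtain ⟨W, hW, hWc⟩ := hp₀ p hp v₀ X hXE hX.le
      refine ⟨W, bdE G W, hW.1, ?_, ?_, ?_, ?_⟩
      · rw [card_bdE]
        have : (cut G W : ℝ) < q := by linarith
        have : cut G W < q := by exact_mod_cast this
        exact this.le
      · intro e he
        rw [mem_coe, mem_bdE] at he
        obtain ⟨a, -, b, -, hab, rfl⟩ := he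
        simpa using hab
      · rw [adm_iff G v₀ X hXE, bdry_eq] at hW
        exact hW.2
      · intro a ha b' hb' hab
        rw [mem_bdE]
        exact ⟨a, ha, b', hb', hab, rfl⟩
    · intro hq
      exfalso
      have h1 : (0 : ℝ) ≤ q := by positivity
      have h2 : (0 : ℝ) ≤ ε * p := by positivity
      linarith

variable {d K C : ℕ} {v : ℕ → ℕ}

/-- growth of degree at least `3`: the limit of the capacities is positive -/
theorem PolyG.lim_pos (hP : PolyG G d K C v) (v₀ : V) (b : ℝ)
    (hb : Tendsto (fun p : ℕ => (maxCap G v₀ p : ℝ) / (p : ℝ)) atTop (nhds b)) : 0 < b := by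
  obtain ⟨c, hc, hdiam⟩ := diam hP
  have key : ∀ p : ℕ, c * p ≤ maxCap G v₀ p := by
    intro p
    rw [← capGE_iff G d hP.deg hP.edge_infinite]
    obtain ⟨z, hz⟩ := hP.exists_dist_eq v₀ p
    obtain ⟨γ, hγp, hγ⟩ := hP.conn.exists_path_of_dist v₀ z
    refine ⟨γ.edges.toFinset, ?_, ?_, ?_⟩
    · intro e he
      rw [mem_coe, List.mem_toFinset] at he
      exact γ.edges_subset_edgeSet he
    · rw [List.toFinset_card_of_nodup hγp.isTrail.edges_nodup, SimpleGraph.Walk.length_edges, hγ, hz]
    · intro W hW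
      have h0 : ∀ (a b : V) (w : G.Walk a b), (∀ e ∈ w.edges, e ∈ γ.edges) → a ∈ W →
          ∀ u ∈ w.support, u ∈ W := by
        intro a b w
        induction w with
        | nil =>
          intro _ ha u hu
          rw [SimpleGraph.Walk.support_nil, List.mem_singleton] at hu
          exact hu ▸ ha
        | @cons x y z' hadj w' ih =>
          intro hsub ha u hu
          rw [SimpleGraph.Walk.support_cons, List.mem_cons] at hu
          rcases hu with rfl | hu
          · exact ha
          · refine ih (fun e he => hsub e ?_) ?_ u hu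
            · rw [SimpleGraph.Walk.edges_cons]
              exact List.mem_cons_of_mem _ he
            · refine hW.2 x y ?_ ha
              rw [List.mem_toFinset]
              refine hsub _ ?_
              rw [SimpleGraph.Walk.edges_cons]
              exact List.mem_cons_self
      have h1 : ∀ a ∈ γ.support, a ∈ W := h0 v₀ z γ (fun e he => he) hW.1
      have h2 := hdiam W v₀ z γ h1
      rwa [hz] at h2
  refine hc.trans_le (ge_of_tendsto hb ?_)
  refine eventually_atTop.2 ⟨1, fun p hp => ?_⟩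
  have hpR : (0 : ℝ) < p := by exact_mod_cast hp
  rw [le_div_iff₀ hpR]
  exact key p

end Pool.Agent.Helper22.PG
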