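import Pool.Agent.Helper56.PG.TurnF

/-! Module D: one turn of the game. -/

namespace Pool.Agent.Helper22.PG

open Finset Filter Pool.Agent.Helper30.Perc Pool.Agent.Helper22.PG.TurnAux

variable {V : Type} [DecidableEq V] {G : SimpleGraph V} [G.LocallyFinite] {d K C : ℕ} {v : ℕ → ℕ}

/-- the numerical conditions of `turn_core` hold for large `p` -/
theorem TurnAux.turn_params (hP : PolyG G d K C v) (ℓ s R C' : ℕ) (hℓ : 0 < ℓ) (hs : 64 * ℓ ≤ s) (ε : ℝ)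
    (hε : 0 < ε) (ε₁ δ₁ c₂ : ℝ) (hε₁ : 0 < ε₁) (hε₁2 : ε₁ ≤ 1 / 2)
    (hε₁3 : 16 * (C' + 1) * ε₁ ≤ ε) (hδ₁ : δ₁ = ε₁ * ℓ / (8 * s)) (hc₂ : c₂ = δ₁ / 16)
    (T : ℕ) (hT : 8 * s ≤ T * (ε₁ * ℓ)) (Λ : ℕ) :
    ∀ᶠ p : ℕ in atTop, ∀ q : ℕ, (q + ε * p) * s ≤ C' * p →
      ∃ m i₀ J r₀ r₁ b g : ℕ, ⌊δ₁ * p⌋₊ + m * s ≤ p ∧ 1 ≤ m ∧ i₀ ≤ m ∧ 1 ≤ r₀ ∧
        r₀ ≤ ⌊c₂ * p⌋₊ ∧
        4 * ((m * ℓ + 1) * v (5 * p) * ((Λ * p) * (v (R + 2) * (r₁ * b) + v (2 * r₁)))) <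
          3 * v ⌊c₂ * p⌋₊ * v ⌊c₂ * p⌋₊ * (r₁ * b) ∧
        q + d * b + g ≤ (m - i₀) * C' ∧
        4 * ((r₀ + 1) * (b + 2 * q)) * d ≤ J * g ∧
        R + J + r₀ ≤ r₁ ∧ 2 * r₁ ≤ m * ℓ ∧
        (∀ r, r₀ ≤ r → r ≤ ⌊c₂ * p⌋₊ → 16 * ((2 * r + 1) * (Λ * p + 2 * q)) ≤ 3 * v r) ∧
        J + 4 * ⌊c₂ * p⌋₊ ≤ ⌊δ₁ * p⌋₊ ∧
        T * (R + J + 6 * ⌊c₂ * p⌋₊) + p ≤ T * (i₀ * ℓ) ∧
        16 * (m * ℓ + R + J + 4 * ⌊c₂ * p⌋₊) ≤ p := by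
  have hℓR : (1 : ℝ) ≤ ℓ := by exact_mod_cast hℓ
  have hsR : (64 : ℝ) * ℓ ≤ s := by exact_mod_cast hs
  have hsp : (0 : ℝ) < s := by linarith
  have hδpos : 0 < δ₁ := by rw [hδ₁]; positivity
  have hcpos : 0 < c₂ := by rw [hc₂]; positivity
  have hC'0 : (0 : ℝ) ≤ C' := Nat.cast_nonneg _
  have hd0 : (0 : ℝ) ≤ d := Nat.cast_nonneg _
  -- `δ₁ s = ε₁ ℓ / 8`
  have hδs : δ₁ * s = ε₁ * ℓ / 8 := by rw [hδ₁]; field_simp
  obtain ⟨hδle, hδε⟩ := aux_delta hε₁ hε₁2 hℓR hsR hδs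
  set ε₂ : ℝ := ε / (8 * (d + 1)) with hε₂
  have hε₂pos : 0 < ε₂ := by positivity
  have hdε₂ : d * ε₂ ≤ ε / 8 := by
    rw [hε₂, mul_div_assoc', div_le_div_iff₀ (by positivity) (by norm_num)]
    have : (d : ℝ) * ε ≤ (d + 1) * ε := mul_le_mul_of_nonneg_right (by linarith) hε.le
    linarith
  set a₀ : ℕ := 128 * C * (Λ + 2 * C') + 1 with ha₀
  set A : ℕ := ⌈64 * a₀ * (ε₂ + 2 * C') * d / ε⌉₊ with hA
  have hAε : 64 * a₀ * (ε₂ + 2 * C') * d ≤ A * ε := by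
    have h1 := Nat.le_ceil (64 * a₀ * (ε₂ + 2 * C') * d / ε)
    rw [div_le_iff₀ hε] at h1
    exact h1
  set D₁ : ℕ := R + A + a₀ with hD₁
  obtain ⟨a, ha⟩ : ∃ a : ℕ, 10 / c₂ ≤ (2 : ℝ) ^ a := by
    obtain ⟨a, ha⟩ := pow_unbounded_of_one_lt (10 / c₂) (by norm_num : (1 : ℝ) < 2)
    exact ⟨a, ha.le⟩
  set W : ℝ := (K : ℝ) ^ a * Λ with hW
  have hW0 : 0 ≤ W := by positivity
  filter_upwards [eventually_ge_atTop 1, ev_lin 2 c₂ hcpos, ev_sqrt a₀ (c₂ / 2) (by positivity),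
    ev_sqrt (2 * D₁) (c₂ / 2) (by positivity),
    ev_lin 2 (1 / (2 * s)) (by positivity), ev_sqrt (2 * D₁) (1 / (4 * s)) (by positivity),
    ev_lin 8 ε hε, ev_lin 2 ε₂ hε₂pos, ev_lin (4 * C') (ε / 4) (by positivity),
    ev_lin (W * v (R + 2) * C * 256) (c₂ ^ 3) (by positivity),
    ev_lin (W * C * D₁ ^ 2 * 16384) (c₂ ^ 3 * ε₂) (by positivity),
    ev_sqrt (A + 1) (δ₁ / 2) (by positivity),
    ev_sqrt (R + A + ε₁ * ℓ) (ε₁ * ℓ / (4 * s)) (by positivity),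
    ev_sqrt (R + A) (1 / 64) (by positivity)] with p g0 g1 g2 g3 g4 g5 g6 g7 g8 g9 g10 g11 g12 g13
  intro q hq
  set P : ℝ := (p : ℝ) with hPd
  set S : ℝ := (Nat.sqrt p : ℝ) with hSd
  set t : ℕ := Nat.sqrt p + 1 with ht
  have hP1 : (1 : ℝ) ≤ P := by rw [hPd]; exact_mod_cast g0
  have hP0 : (0 : ℝ) ≤ P := by linarith
  have hS0 : (0 : ℝ) ≤ S := Nat.cast_nonneg _
  have htR : (t : ℝ) = S + 1 := by rw [ht, hSd]; push_cast; ring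
  have ht1 : 1 ≤ t := Nat.succ_pos _
  have hpt : p ≤ t ^ 2 := by
    have := Nat.lt_succ_sqrt p
    rw [ht, pow_two]
    exact this.le
  have htp : t ^ 2 ≤ 4 * p := by
    have h1 := Nat.sqrt_le' p
    have h2 := Nat.sqrt_le_self p
    have h3 : t ^ 2 = Nat.sqrt p ^ 2 + 2 * Nat.sqrt p + 1 := by rw [ht]; ring
    omega
  have hs1 : (1 : ℝ) ≤ s := by linarith
  have ha₀1 : 1 ≤ a₀ := Nat.succ_pos _
  set Δ : ℕ := ⌊δ₁ * P⌋₊ with hΔ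
  set ρ : ℕ := ⌊c₂ * P⌋₊ with hρ
  have hΔ1 : (Δ : ℝ) ≤ δ₁ * P := Nat.floor_le (by positivity)
  have hΔ2 : δ₁ * P < Δ + 1 := Nat.lt_floor_add_one _
  have hρ1 : (ρ : ℝ) ≤ c₂ * P := Nat.floor_le (by positivity)
  have hρ2 : c₂ * P < ρ + 1 := Nat.lt_floor_add_one _
  have hρ3 : c₂ * P / 2 ≤ ρ := by linarith
  have hΔP : (Δ : ℝ) ≤ P / 1024 := by
    have := mul_le_mul_of_nonneg_right hδle hP0
    linarith
  have hΔp : Δ ≤ p := by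
    have : (Δ : ℝ) ≤ P := by linarith
    rw [hPd] at this
    exact_mod_cast this
  set m : ℕ := (p - Δ) / s with hm
  have hm1 : m * s ≤ p - Δ := Nat.div_mul_le_self _ _
  have hm1' : Δ + m * s ≤ p := by
    have h1 : p - Δ + Δ = p := Nat.sub_add_cancel hΔp
    calc Δ + m * s ≤ Δ + (p - Δ) := Nat.add_le_add_left hm1 _
      _ = p := by rw [Nat.add_comm]; exact h1
  have hm1R : (Δ : ℝ) + m * s ≤ P := by
    rw [hPd]; exact_mod_cast hm1'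
  have hs0 : 0 < s := by exact_mod_cast hsp
  have hm2 : p - Δ < s * (m + 1) := Nat.lt_mul_div_succ _ hs0
  have hm2R : P - Δ < s * (m + 1) := by
    have h1 : ((p - Δ : ℕ) : ℝ) = P - Δ := by rw [Nat.cast_sub hΔp]
    rw [← h1]
    exact_mod_cast hm2
  have g4' : 4 * (s : ℝ) ≤ P := by
    have h2 : 2 ≤ P / (2 * s) := by
      rw [div_eq_mul_one_div, mul_comm]
      exact g4
    rw [le_div_iff₀ (by positivity)] at h2
    linarith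
  obtain ⟨hmge, hmhalf⟩ := aux_m hP0 g4' hΔP hm2R
  have hmpos : 1 ≤ m := by
    rcases Nat.eq_zero_or_pos m with h | h
    · rw [h] at hmge
      simp only [Nat.cast_zero, mul_zero] at hmge
      linarith
    · exact h
  set i₀ : ℕ := ⌈ε₁ * m⌉₊ with hi₀
  have hi1 : ε₁ * m ≤ i₀ := Nat.le_ceil _
  have hi2 : (i₀ : ℝ) < ε₁ * m + 1 := Nat.ceil_lt_add_one (by positivity)
  have hi3 : i₀ ≤ m := by
    rw [hi₀, Nat.ceil_le]
    exact aux_i hε₁2 (Nat.cast_nonneg _)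
  obtain ⟨hqs, hqC⟩ := aux_q (Nat.cast_nonneg q) hs1 hε hP0 hq
  have hqC' : q ≤ C' * p := by
    rw [hPd] at hqC
    exact_mod_cast hqC
  set b : ℕ := ⌊ε₂ * P⌋₊ with hb
  have hb1 : (b : ℝ) ≤ ε₂ * P := Nat.floor_le (by positivity)
  have hb2 : ε₂ * P < b + 1 := Nat.lt_floor_add_one _
  have hb3 : ε₂ * P / 2 ≤ b := by linarith
  set g : ℕ := ⌊ε * P / 4⌋₊ with hg
  have hg1 : (g : ℝ) ≤ ε * P / 4 := Nat.floor_le (by positivity)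
  have hg2 : ε * P / 4 < g + 1 := Nat.lt_floor_add_one _
  have hg3 : ε * P / 8 ≤ g := by linarith
  have hm0 : (0 : ℝ) ≤ m := Nat.cast_nonneg _
  have hmℓ : 64 * ((m : ℝ) * ℓ) ≤ P := aux_ml hm0 (Nat.cast_nonneg _) hsR hm1R
  have hmm : (m : ℝ) * 1 ≤ m * ℓ := mul_le_mul_of_nonneg_left hℓR hm0
  have hD₁R : (D₁ : ℝ) = R + A + a₀ := by rw [hD₁]; push_cast; ring
  have hR0 : (0 : ℝ) ≤ R := Nat.cast_nonneg _
  have hA0 : (0 : ℝ) ≤ A := Nat.cast_nonneg _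
  have ha₀0 : (0 : ℝ) ≤ a₀ := Nat.cast_nonneg _
  have hD0 : (0 : ℝ) ≤ 2 * (D₁ : ℝ) := by positivity
  have hmℓ1 : (m : ℝ) * ℓ + 1 ≤ P := by linarith
  have hρ33 : (c₂ * P / 2) ^ 3 ≤ (ρ : ℝ) ^ 3 := pow_le_pow_left₀ (by positivity) hρ3 3
  refine ⟨m, i₀, A * t, a₀ * t, D₁ * t, b, g, hm1', hmpos, hi3, Nat.mul_pos ha₀1 ht1, ?_, ?_, ?_,
    ?_, ?_, ?_, ?_, ?_, ?_, ?_⟩
  · -- r₀ ≤ ρ
    have h1 : ((a₀ * t : ℕ) : ℝ) ≤ ρ := by
      push_cast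
      have := aux_tR ha₀0 htR g2
      linarith
    exact_mod_cast h1
  · -- c3
    refine c3_aux hP (m * ℓ) p (D₁ * t) b ρ R (Λ * p) a ?_ ?_ ?_ ?_ ?_ ?_
    · have h1 : 5 * P ≤ 2 ^ a * ρ := by
        have h2 : 10 / c₂ * (c₂ * P / 2) = 5 * P := by field_simp; norm_num
        calc 5 * P = 10 / c₂ * (c₂ * P / 2) := h2.symm
          _ ≤ 2 ^ a * (c₂ * P / 2) := mul_le_mul_of_nonneg_right ha (by positivity)
          _ ≤ 2 ^ a * ρ := mul_le_mul_of_nonneg_left hρ3 (by positivity)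
      rw [hPd] at h1
      exact_mod_cast h1
    · exact Nat.mul_pos (Nat.add_pos_right _ ha₀1) ht1
    · have h1 : ((2 * (D₁ * t) : ℕ) : ℝ) ≤ ρ := by
        push_cast
        have := aux_tR hD0 htR g3
        linarith
      exact_mod_cast h1
    · have h1 : (1 : ℝ) ≤ b := by linarith
      exact_mod_cast h1
    · have h1 : ((4 * (m * ℓ + 1) * K ^ a * (Λ * p) * v (R + 2) * (8 * C) : ℕ) : ℝ) ≤
          ((ρ ^ 3 : ℕ) : ℝ) := by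
        push_cast
        have h4 : 4 * ((m : ℝ) * ℓ + 1) * K ^ a * (Λ * p) * v (R + 2) * (8 * C) =
            32 * (((m : ℝ) * ℓ + 1) * (W * v (R + 2) * C * P)) := by rw [hW, hPd]; ring
        rw [h4]
        exact aux_hA hmℓ1 hP0 hW0 (Nat.cast_nonneg _) (Nat.cast_nonneg _) hρ33 g9
      exact_mod_cast h1
    · have h1 : ((4 * (m * ℓ + 1) * K ^ a * (Λ * p) * (64 * C * (D₁ * t) ^ 2) : ℕ) : ℝ) ≤
          ((ρ ^ 3 * b : ℕ) : ℝ) := by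
        push_cast
        have h5 : (t : ℝ) ^ 2 ≤ 4 * P := by rw [hPd]; exact_mod_cast htp
        have h4 : 4 * ((m : ℝ) * ℓ + 1) * K ^ a * (Λ * p) * (64 * C * (D₁ * t) ^ 2) =
            256 * (((m : ℝ) * ℓ + 1) * ((W * C * D₁ ^ 2 * P) * t ^ 2)) := by rw [hW, hPd]; ring
        rw [h4]
        exact aux_hB hmℓ1 hP0 hW0 (Nat.cast_nonneg _) hε₂pos.le hρ33 hb3 h5
          (Nat.cast_nonneg _) g10
      exact_mod_cast h1
  · -- c4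
    have h1 : ((q + d * b + g : ℕ) : ℝ) ≤ (((m - i₀) * C' : ℕ) : ℝ) := by
      rw [Nat.cast_mul, Nat.cast_sub hi3]
      push_cast
      have h2 : (d : ℝ) * b ≤ ε / 8 * P := by
        calc (d : ℝ) * b ≤ d * (ε₂ * P) := mul_le_mul_of_nonneg_left hb1 hd0
          _ = d * ε₂ * P := by ring
          _ ≤ ε / 8 * P := mul_le_mul_of_nonneg_right hdε₂ hP0
      exact aux_c4 hs1 hP0 hC'0 hε hε₁ hε₁2 hε₁3 hδpos hδε (aux_m2 hΔ1 hm2R) hi2 hqs h2 hg1 g8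
    exact_mod_cast h1
  · -- c5
    have h1 : ((4 * ((a₀ * t + 1) * (b + 2 * q)) * d : ℕ) : ℝ) ≤ ((A * t * g : ℕ) : ℝ) := by
      push_cast
      have h2 : (1 : ℝ) ≤ a₀ * t := by exact_mod_cast Nat.mul_pos ha₀1 ht1
      exact aux_c5 h2 (Nat.cast_nonneg _) hb1 (Nat.cast_nonneg _) hqC (Nat.cast_nonneg _) hd0 hP0
        hA0 hAε hg3
    exact_mod_cast h1
  · -- c6
    have h1 : R ≤ R * t := Nat.le_mul_of_pos_right _ ht1
    have h2 : D₁ * t = R * t + A * t + a₀ * t := by rw [hD₁]; ring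
    rw [h2]
    exact Nat.add_le_add_right (Nat.add_le_add_right h1 _) _
  · -- c6'
    have h1 : ((2 * (D₁ * t) : ℕ) : ℝ) ≤ ((m * ℓ : ℕ) : ℝ) := by
      push_cast
      have h2 := aux_tR hD0 htR g5
      have h3 : 1 / (4 * (s : ℝ)) * P ≤ m := by
        rw [one_div_mul_eq_div, div_le_iff₀ (by positivity)]
        linarith
      linarith
    exact_mod_cast h1
  · -- c7
    intro r hr1 hr2
    refine c7_aux hP r (Λ * p) q ?_ ?_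
    · exact (Nat.mul_pos ha₀1 ht1).trans_le hr1
    · calc 128 * C * (Λ * p + 2 * q) ≤ 128 * C * (Λ * p + 2 * (C' * p)) :=
            Nat.mul_le_mul_left _ (Nat.add_le_add_left (Nat.mul_le_mul_left _ hqC') _)
        _ = (128 * C * (Λ + 2 * C')) * p := by ring
        _ ≤ a₀ * p := Nat.mul_le_mul_right _ (Nat.le_succ _)
        _ ≤ a₀ * t ^ 2 := Nat.mul_le_mul_left _ hpt
        _ ≤ a₀ ^ 2 * t ^ 2 := Nat.mul_le_mul_right _ (Nat.le_self_pow (by norm_num) _)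
        _ = (a₀ * t) ^ 2 := by ring
        _ ≤ r ^ 2 := Nat.pow_le_pow_left hr1 2
  · -- c9
    have h1 : (A * t : ℝ) + 4 * ρ < Δ + 1 :=
      aux_c9 hA0 hS0 htR hc₂ hρ1 (by positivity) g11 hΔ2
    have h2 : A * t + 4 * ρ < Δ + 1 := by exact_mod_cast h1
    exact Nat.lt_succ_iff.1 h2
  · -- c10
    have h1 : ((T * (R + A * t + 6 * ρ) + p : ℕ) : ℝ) ≤ ((T * (i₀ * ℓ) : ℕ) : ℝ) := by
      push_cast
      exact aux_c10 (Nat.cast_nonneg _) hA0 rfl (by positivity) hsp (by linarith) hc₂ hδs hρ1 htR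
        hR0 hS0 g12 hT hmhalf hi1 (Nat.cast_nonneg _)
    exact_mod_cast h1
  · -- c11
    have h1 : ((16 * (m * ℓ + R + A * t + 4 * ρ) : ℕ) : ℝ) ≤ P := by
      push_cast
      exact aux_c11 hA0 hR0 hS0 hP0 htR hc₂ hρ1 hδle hmℓ g13
    rw [hPd] at h1
    exact_mod_cast h1

theorem turn (hP : PolyG G d K C v) (ℓ s R C' : ℕ) (hS : StaticHyp G ℓ s R C') (ε : ℝ)
    (hε : 0 < ε) (v₀ : V) :
    ∃ (At : ℕ → Finset (Sym2 V) → Finset (Sym2 V) → V → Prop) (T : ℕ), 0 < T ∧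
      (∀ p, At p ∅ ∅ v₀) ∧ ∀ Λ : ℕ, ∃ p₀ : ℕ, ∀ p q : ℕ, p₀ ≤ p →
        (q + ε * p) * s ≤ C' * p → TurnHyp G v₀ p q T Λ (At p) := by
  have hℓ := hS.1
  have hs := hS.2.1
  set ε₁ : ℝ := min (1 / 2) (ε / (16 * (C' + 1))) with hε₁
  have hε₁pos : 0 < ε₁ := lt_min (by norm_num) (by positivity)
  have h16 : 16 * (C' + 1) * ε₁ ≤ ε := by
    have h1 : ε₁ ≤ ε / (16 * (C' + 1)) := min_le_right _ _
    rw [le_div_iff₀ (by positivity)] at h1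
    linarith
  have hℓR : (0 : ℝ) < ℓ := by exact_mod_cast hℓ
  have hsR : (0 : ℝ) < s := by
    have : 0 < s := by omega
    exact_mod_cast this
  set δ₁ : ℝ := ε₁ * ℓ / (8 * s) with hδ₁
  have hδpos : 0 < δ₁ := by positivity
  set T : ℕ := ⌈8 * s / (ε₁ * ℓ)⌉₊ with hT
  have hT1 : 8 * s ≤ T * (ε₁ * ℓ) := by
    have h1 := Nat.le_ceil (8 * s / (ε₁ * ℓ))
    rwa [div_le_iff₀ (by positivity)] at h1
  refine ⟨fun p M B y => Live G v₀ (v ⌊δ₁ / 16 * p⌋₊) ⌊δ₁ / 16 * p⌋₊ ⌊δ₁ * p⌋₊ M B y, T,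
    Nat.ceil_pos.2 (by positivity), ?_, ?_⟩
  · intro p
    refine ⟨bl G v₀ ⌊δ₁ / 16 * p⌋₊, fun x hx => (mem_bl hP.conn _ _ _).1 hx, ?_, ?_⟩
    · rw [hP.vol]
      omega
    · intro x hx
      rw [mem_bl hP.conn] at hx
      obtain ⟨w, hw⟩ := hP.conn.exists_walk_length_eq_dist v₀ x
      have h0 : Rch G v₀ ∅ ∅ 0 v₀ :=
        ⟨∅, by simp, by simp, by simp, SimpleGraph.Reachable.refl _⟩
      refine (h0.walk w (hw.trans_le hx) ?_).mono (Subset.refl _) ?_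
      · intro z _ hz
        rw [mem_vert] at hz
        obtain ⟨e, he, -⟩ := hz
        simp at he
      · rw [Nat.zero_add]
        refine Nat.floor_le_floor ?_
        have : (0 : ℝ) ≤ p := Nat.cast_nonneg _
        nlinarith
  · intro Λ
    have key := turn_params hP ℓ s R C' hℓ hs ε hε ε₁ δ₁ (δ₁ / 16) hε₁pos (min_le_left _ _) h16
      hδ₁ rfl T hT1 Λ
    rw [eventually_atTop] at key
    obtain ⟨p₀, hp₀⟩ := key
    refine ⟨p₀, fun p q hp hq => ?_⟩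
    obtain ⟨m, i₀, J, r₀, r₁, b, g, c1, c2, c2', hr₀, hr₀ρ, c3, c4, c5, c6, c6', c7, c9, c10,
      c11⟩ := hp₀ p hp q hq
    intro M B y a hpos hlive hL h1 h2
    exact turn_core hP hS v₀ p q m i₀ J r₀ r₁ _ _ b g (Λ * p) T c1 c2 c2' hr₀ hr₀ρ c3 c4 c5 c6
      c6' c7 c9 c10 c11 M B y a hpos hlive hL h1 h2

end Pool.Agent.Helper22.PG
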