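import Pool.Agent.Helper22.PG.Basic

/-! Vitali selection, window counts, and the cover of the dense set of a finite set. -/

namespace Pool.Agent.Helper22.PG

open Finset Pool.Agent.Helper30.Perc

variable {V : Type} {G : SimpleGraph V} [DecidableEq V]

lemma vitali_fin (G : SimpleGraph V) (n : ℕ) : ∀ D : Finset (V × ℕ), D.card ≤ n → ∃ A ⊆ D,
    (∀ p ∈ A, ∀ p' ∈ A, p ≠ p' → p.2 + p'.2 < G.dist p.1 p'.1) ∧
    ∀ p ∈ D, ∃ p' ∈ A, p.2 ≤ p'.2 ∧ G.dist p.1 p'.1 ≤ p.2 + p'.2 := by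
  induction n with
  | zero =>
    intro D hD
    have : D = ∅ := card_eq_zero.1 (by omega)
    subst this
    exact ⟨∅, subset_rfl, by simp, by simp⟩
  | succ n ih =>
    intro D hD
    rcases D.eq_empty_or_nonempty with rfl | hne
    · exact ⟨∅, subset_rfl, by simp, by simp⟩
    obtain ⟨p0, hp0, hmax⟩ := exists_max_image D (fun p => p.2) hne
    set D' := D.filter fun p => p0.2 + p.2 < G.dist p0.1 p.1 with hD'
    have hp0' : p0 ∉ D' := by
      rw [hD', mem_filter]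
      rintro ⟨-, h⟩
      simp at h
    have hcard : D'.card ≤ n := by
      have h1 : D' ⊆ D.erase p0 := by
        intro p hp
        rw [mem_erase]
        exact ⟨fun h => hp0' (h ▸ hp), (mem_filter.1 hp).1⟩
      have h2 := card_le_card h1
      rw [card_erase_of_mem hp0] at h2
      omega
    obtain ⟨A', h1, h2, h3⟩ := ih D' hcard
    refine ⟨insert p0 A', ?_, ?_, ?_⟩
    · refine insert_subset hp0 (h1.trans (filter_subset _ _))
    · intro p hp p' hp' hne'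
      rw [mem_insert] at hp hp'
      rcases hp with rfl | hp <;> rcases hp' with rfl | hp'
      · exact absurd rfl hne'
      · exact (mem_filter.1 (h1 hp')).2
      · rw [SimpleGraph.dist_comm, add_comm]
        exact (mem_filter.1 (h1 hp)).2
      · exact h2 p hp p' hp' hne'
    · intro p hp
      by_cases hpD : p ∈ D'
      · obtain ⟨p', h4, h5⟩ := h3 p hpD
        exact ⟨p', mem_insert_of_mem h4, h5⟩
      · refine ⟨p0, mem_insert_self _ _, hmax p hp, ?_⟩
        rw [hD', mem_filter] at hpD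
        push Not at hpD
        have := hpD hp
        rw [SimpleGraph.dist_comm]
        omega

omit [DecidableEq V] in
lemma window_count (hconn : G.Connected) {y z : V} (γ : G.Walk y z)
    (hγ : γ.length = G.dist y z) (ℓ m : ℕ) (hℓ : 0 < ℓ) (hm : m * ℓ ≤ γ.length) (x : V) (Rw : ℕ) :
    ((range m).filter fun j => G.dist (γ.getVert (j * ℓ)) x ≤ Rw).card ≤ 2 * Rw / ℓ + 1 := by
  set S := (range m).filter fun j => G.dist (γ.getVert (j * ℓ)) x ≤ Rw with hS
  rcases S.eq_empty_or_nonempty with h | h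
  · rw [h]; simp
  · obtain ⟨j0, hj0, hmin⟩ := exists_min_image S id h
    have hsub : S ⊆ Icc j0 (j0 + 2 * Rw / ℓ) := by
      intro j hj
      have h1 := hmin j hj
      simp only [id] at h1
      rw [hS, mem_filter, mem_range] at hj hj0
      have hjl : j * ℓ ≤ γ.length := (Nat.mul_le_mul_right _ hj.1.le).trans hm
      have h2 := dist_getVert hconn γ hγ (j0 * ℓ) (j * ℓ) (Nat.mul_le_mul_right _ h1) hjl
      have h3 := hconn.dist_triangle (u := γ.getVert (j0 * ℓ)) (v := x) (w := γ.getVert (j * ℓ))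
      rw [SimpleGraph.dist_comm (u := x)] at h3
      have h4 : (j - j0) * ℓ ≤ 2 * Rw := by
        rw [Nat.sub_mul]; omega
      have h5 : j - j0 ≤ 2 * Rw / ℓ := (Nat.le_div_iff_mul_le hℓ).2 h4
      rw [mem_Icc]
      omega
    refine (card_le_card hsub).trans ?_
    rw [Nat.card_Icc]
    generalize 2 * Rw / ℓ = q
    omega

variable [G.LocallyFinite] {d K C : ℕ} {v : ℕ → ℕ}

lemma sum_card_inter_le (hconn : G.Connected) (V0 : Finset V) (A : Finset (V × ℕ))
    (hA : ∀ p ∈ A, ∀ p' ∈ A, p ≠ p' → p.2 + p'.2 < G.dist p.1 p'.1) :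
    ∑ p ∈ A, (V0 ∩ bl G p.1 p.2).card ≤ V0.card := by
  rw [← card_biUnion]
  · refine card_le_card ?_
    intro x hx
    rw [mem_biUnion] at hx
    obtain ⟨p, -, hp⟩ := hx
    exact (mem_inter.1 hp).1
  · intro p hp p' hp' hne
    rw [Function.onFun, disjoint_left]
    intro x hx hx'
    rw [mem_inter, mem_bl hconn] at hx hx'
    have h1 := hA p hp p' hp' hne
    have h2 := hconn.dist_triangle (u := p.1) (v := x) (w := p'.1)
    rw [SimpleGraph.dist_comm (u := x)] at h2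
    omega

/-- `x` is dense at radius `r` for the set `V0` -/
def Dense (G : SimpleGraph V) [G.LocallyFinite] (v : ℕ → ℕ) (θ : ℝ) (V0 : Finset V) (x : V)
    (r : ℕ) : Prop :=
  1 ≤ r ∧ θ * v r ≤ ((V0 ∩ bl G x r).card : ℝ) * r

lemma Dense.radius_sq (hP : PolyG G d K C v) {θ : ℝ} {V0 : Finset V} {x : V} {r : ℕ}
    (h : Dense G v θ V0 x r) (hθ : 0 < θ) : θ * (r : ℝ) ^ 2 ≤ 8 * C * V0.card := by
  obtain ⟨h1, h2⟩ := h
  have h3 : ((r : ℝ)) ^ 3 ≤ 8 * C * v r := by exact_mod_cast hP.v_cube r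
  have h4 : ((V0 ∩ bl G x r).card : ℝ) ≤ V0.card := by
    exact_mod_cast card_le_card inter_subset_left
  have hr : (0 : ℝ) < r := by exact_mod_cast h1
  have hC : (0 : ℝ) ≤ 8 * C := by positivity
  have h5 : θ * (r : ℝ) ^ 3 ≤ 8 * C * V0.card * r := by
    calc θ * (r : ℝ) ^ 3 ≤ θ * (8 * C * v r) := mul_le_mul_of_nonneg_left h3 hθ.le
      _ = 8 * C * (θ * v r) := by ring
      _ ≤ 8 * C * (((V0 ∩ bl G x r).card : ℝ) * r) := mul_le_mul_of_nonneg_left h2 hC
      _ ≤ 8 * C * ((V0.card : ℝ) * r) :=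
          mul_le_mul_of_nonneg_left (mul_le_mul_of_nonneg_right h4 hr.le) hC
      _ = _ := by ring
  have h6 : θ * (r : ℝ) ^ 2 * r ≤ 8 * C * V0.card * r := by
    calc θ * (r : ℝ) ^ 2 * r = θ * (r : ℝ) ^ 3 := by ring
      _ ≤ _ := h5
  exact le_of_mul_le_mul_right h6 hr

lemma Dense.inter_nonempty (hP : PolyG G d K C v) {θ : ℝ} {V0 : Finset V} {x : V} {r : ℕ}
    (h : Dense G v θ V0 x r) (hθ : 0 < θ) : (V0 ∩ bl G x r).Nonempty := by
  rw [← card_pos]
  by_contra hcon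
  have h0 : (V0 ∩ bl G x r).card = 0 := by omega
  have h2 := h.2
  rw [h0] at h2
  have h3 : (0 : ℝ) < v r := by exact_mod_cast hP.v_pos r
  have := mul_pos hθ h3
  simp at h2
  linarith

/-- The Vitali cover of the dense set. -/
lemma dense_cover (hP : PolyG G d K C v) (θ : ℝ) (hθ : 0 < θ) (V0 : Finset V) :
    ∃ A : Finset (V × ℕ), (∀ p ∈ A, Dense G v θ V0 p.1 p.2) ∧
      (∀ x r, Dense G v θ V0 x r → ∃ p ∈ A, r ≤ p.2 ∧ G.dist x p.1 ≤ 2 * p.2) ∧
      A.card ≤ V0.card ∧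
      ∀ ρ : ℕ, (∀ x r, Dense G v θ V0 x r → r ≤ ρ) →
        θ * ∑ p ∈ A, (v p.2 : ℝ) ≤ ρ * V0.card := by
  classical
  -- a bound for all dense radii
  obtain ⟨ρ0, hρ0⟩ : ∃ ρ0 : ℕ, ∀ x r, Dense G v θ V0 x r → r ≤ ρ0 := by
    refine ⟨⌈8 * C * V0.card / θ⌉₊, ?_⟩
    intro x r h
    have h1 := h.radius_sq hP hθ
    have hr : (1 : ℝ) ≤ r := by exact_mod_cast h.1
    have h2 : (r : ℝ) ≤ 8 * C * V0.card / θ := by
      rw [le_div_iff₀ hθ]
      nlinarith [mul_le_mul_of_nonneg_left hr (mul_nonneg hθ.le (by linarith : (0 : ℝ) ≤ r))]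
    exact_mod_cast h2.trans (Nat.le_ceil _)
  set D : Finset (V × ℕ) := ((V0.biUnion fun u => bl G u ρ0) ×ˢ range (ρ0 + 1)).filter
    fun p => Dense G v θ V0 p.1 p.2 with hD
  have hmem : ∀ x r, Dense G v θ V0 x r → (x, r) ∈ D := by
    intro x r h
    rw [hD, mem_filter, mem_product, mem_biUnion, mem_range]
    refine ⟨⟨?_, Nat.lt_succ_of_le (hρ0 x r h)⟩, h⟩
    obtain ⟨u, hu⟩ := h.inter_nonempty hP hθ
    rw [mem_inter] at hu
    refine ⟨u, hu.1, ?_⟩
    exact bl_mono hP.conn u (hρ0 x r h) ((mem_bl_comm hP.conn).1 hu.2)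
  obtain ⟨A, h1, h2, h3⟩ := vitali_fin G D.card D le_rfl
  have hAd : ∀ p ∈ A, Dense G v θ V0 p.1 p.2 := fun p hp => (mem_filter.1 (h1 hp)).2
  have hsum := sum_card_inter_le hP.conn V0 A h2
  refine ⟨A, hAd, ?_, ?_, ?_⟩
  · intro x r h
    obtain ⟨p, hp, h4, h5⟩ := h3 _ (hmem x r h)
    simp only at h4 h5
    exact ⟨p, hp, h4, by omega⟩
  · calc A.card = ∑ _p ∈ A, 1 := by simp
      _ ≤ ∑ p ∈ A, (V0 ∩ bl G p.1 p.2).card :=
          sum_le_sum fun p hp => card_pos.2 ((hAd p hp).inter_nonempty hP hθ)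
      _ ≤ _ := hsum
  · intro ρ hρ
    rw [mul_sum]
    calc ∑ p ∈ A, θ * (v p.2 : ℝ) ≤ ∑ p ∈ A, ((V0 ∩ bl G p.1 p.2).card : ℝ) * ρ := by
          refine sum_le_sum fun p hp => (hAd p hp).2.trans ?_
          refine mul_le_mul_of_nonneg_left ?_ (by positivity)
          exact_mod_cast hρ _ _ (hAd p hp)
      _ = (∑ p ∈ A, ((V0 ∩ bl G p.1 p.2).card : ℝ)) * ρ := by rw [sum_mul]
      _ ≤ V0.card * ρ := by
          refine mul_le_mul_of_nonneg_right ?_ (by positivity)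
          exact_mod_cast hsum
      _ = _ := mul_comm _ _

end Pool.Agent.Helper22.PG
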